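import Pool.Agent.ResSpec.Defs

/-! # Basic local identities for the combinatorial core -/

set_option linter.unusedSectionVars false
set_option linter.unusedVariables false

namespace Pool.Agent.ResSpec

open Finset

universe u

variable {V : Type u} [Fintype V] [DecidableEq V] {G : SimpleGraph V} [DecidableRel G.Adj]
  {n D : ℕ} {Q : V → V → ℤ} {T : V → ℤ}

/-- Neighbours `w` of `u` with `Q w v = k`. -/
def nb (G : SimpleGraph V) [DecidableRel G.Adj] (Q : V → V → ℤ) (k : ℤ) (u v : V) : Finset V :=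
  (G.neighborFinset u).filter (fun w => Q w v = k)

/-- number of `w ∈ N(u)` with `Q w v = a` -/
def al (G : SimpleGraph V) [DecidableRel G.Adj] (Q : V → V → ℤ) (n : ℕ) (u v : V) : ℤ :=
  ((nb G Q (2 * n) u v).card : ℤ)

/-- number of `w ∈ N(u)` with `Q w v = b` -/
def be (G : SimpleGraph V) [DecidableRel G.Adj] (Q : V → V → ℤ) (n D : ℕ) (u v : V) : ℤ :=
  ((nb G Q (2 * n + D - 1) u v).card : ℤ)

/-- number of `w ∈ N(u)` with `Q w v = c` -/
def ga (G : SimpleGraph V) [DecidableRel G.Adj] (Q : V → V → ℤ) (n D : ℕ) (u v : V) : ℤ :=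
  ((nb G Q (2 * n + 2 * D) u v).card : ℤ)

/-- adjacency indicator -/
def ad (G : SimpleGraph V) [DecidableRel G.Adj] (u v : V) : ℤ := if G.Adj u v then 1 else 0

theorem mem_nb {k : ℤ} {u v w : V} : w ∈ nb G Q k u v ↔ G.Adj u w ∧ Q w v = k := by
  simp [nb]

theorem al_nonneg (u v : V) : 0 ≤ al G Q n u v := by unfold al; positivity
theorem be_nonneg (u v : V) : 0 ≤ be G Q n D u v := by unfold be; positivity
theorem ga_nonneg (u v : V) : 0 ≤ ga G Q n D u v := by unfold ga; positivity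

theorem ad_of_adj {u v : V} (h : G.Adj u v) : ad G u v = 1 := by simp [ad, h]
theorem ad_of_not {u v : V} (h : ¬ G.Adj u v) : ad G u v = 0 := by simp [ad, h]
theorem ad_self (u : V) : ad G u u = 0 := by simp [ad]
theorem ad_comm (u v : V) : ad G u v = ad G v u := by simp [ad, G.adj_comm]
theorem ad_cases (u v : V) : (ad G u v = 0 ∧ ¬ G.Adj u v) ∨ (ad G u v = 1 ∧ G.Adj u v) := by
  by_cases h : G.Adj u v
  · right; exact ⟨ad_of_adj h, h⟩
  · left; exact ⟨ad_of_not h, h⟩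

theorem al_pos_iff {u v : V} : 0 < al G Q n u v ↔ ∃ w, G.Adj u w ∧ Q w v = 2 * n := by
  unfold al
  rw [Int.natCast_pos, Finset.card_pos]
  constructor
  · rintro ⟨w, hw⟩; exact ⟨w, mem_nb.1 hw⟩
  · rintro ⟨w, hw⟩; exact ⟨w, mem_nb.2 hw⟩

theorem be_pos_iff {u v : V} : 0 < be G Q n D u v ↔ ∃ w, G.Adj u w ∧ Q w v = 2 * n + D - 1 := by
  unfold be
  rw [Int.natCast_pos, Finset.card_pos]
  constructor
  · rintro ⟨w, hw⟩; exact ⟨w, mem_nb.1 hw⟩
  · rintro ⟨w, hw⟩; exact ⟨w, mem_nb.2 hw⟩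

theorem ga_pos_iff {u v : V} : 0 < ga G Q n D u v ↔ ∃ w, G.Adj u w ∧ Q w v = 2 * n + 2 * D := by
  unfold ga
  rw [Int.natCast_pos, Finset.card_pos]
  constructor
  · rintro ⟨w, hw⟩; exact ⟨w, mem_nb.1 hw⟩
  · rintro ⟨w, hw⟩; exact ⟨w, mem_nb.2 hw⟩

theorem al_zero_of {u v : V} (h : ∀ w, G.Adj u w → Q w v ≠ 2 * n) : al G Q n u v = 0 := by
  by_contra hne
  have := lt_of_le_of_ne (al_nonneg (G := G) (Q := Q) (n := n) u v) (Ne.symm hne)
  obtain ⟨w, h1, h2⟩ := al_pos_iff.1 this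
  exact h w h1 h2

theorem be_zero_of {u v : V} (h : ∀ w, G.Adj u w → Q w v ≠ 2 * n + D - 1) :
    be G Q n D u v = 0 := by
  by_contra hne
  have := lt_of_le_of_ne (be_nonneg (G := G) (Q := Q) (n := n) (D := D) u v) (Ne.symm hne)
  obtain ⟨w, h1, h2⟩ := be_pos_iff.1 this
  exact h w h1 h2

theorem ga_zero_of {u v : V} (h : ∀ w, G.Adj u w → Q w v ≠ 2 * n + 2 * D) :
    ga G Q n D u v = 0 := by
  by_contra hne
  have := lt_of_le_of_ne (ga_nonneg (G := G) (Q := Q) (n := n) (D := D) u v) (Ne.symm hne)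
  obtain ⟨w, h1, h2⟩ := ga_pos_iff.1 this
  exact h w h1 h2

namespace Core

variable (C : Core n D G Q T)
include C

theorem vals' (hn : 2 ≤ n) (hD : 2 ≤ D) (w v : V) :
    (w = v ∧ Q w v = 0) ∨ (w ≠ v ∧ Q w v = 2 * n) ∨ (w ≠ v ∧ Q w v = 2 * n + D - 1) ∨
      (w ≠ v ∧ Q w v = 2 * n + 2 * D) := by
  by_cases h : w = v
  · left; subst h; exact ⟨rfl, C.diag w⟩
  · right
    rcases C.vals w v h with h1 | h1 | h1
    · left; exact ⟨h, h1⟩
    · right; left; exact ⟨h, h1⟩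
    · right; right; exact ⟨h, h1⟩

theorem deg_split (hn : 2 ≤ n) (hD : 2 ≤ D) (u v : V) :
    (G.degree u : ℤ) = ad G u v + al G Q n u v + be G Q n D u v + ga G Q n D u v := by
  have h1 : (G.degree u : ℤ) = ∑ w ∈ G.neighborFinset u, (1 : ℤ) := by simp
  have h2 : ad G u v = ∑ w ∈ G.neighborFinset u, (if w = v then (1 : ℤ) else 0) := by
    rw [Finset.sum_ite_eq']
    simp [ad]
  have h3 : al G Q n u v = ∑ w ∈ G.neighborFinset u, (if Q w v = 2 * n then (1 : ℤ) else 0) := by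
    unfold al nb
    simp
  have h4 : be G Q n D u v =
      ∑ w ∈ G.neighborFinset u, (if Q w v = 2 * n + D - 1 then (1 : ℤ) else 0) := by
    unfold be nb
    simp
  have h5 : ga G Q n D u v =
      ∑ w ∈ G.neighborFinset u, (if Q w v = 2 * n + 2 * D then (1 : ℤ) else 0) := by
    unfold ga nb
    simp
  rw [h1, h2, h3, h4, h5, ← Finset.sum_add_distrib, ← Finset.sum_add_distrib,
    ← Finset.sum_add_distrib]
  refine Finset.sum_congr rfl fun w _ => ?_
  rcases C.vals' hn hD w v with ⟨h, h'⟩ | ⟨h, h'⟩ | ⟨h, h'⟩ | ⟨h, h'⟩ <;> rw [h'] <;>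
    simp only [h, if_true, if_false] <;> split_ifs <;> omega

theorem sum_split (hn : 2 ≤ n) (hD : 2 ≤ D) (u v : V) :
    ∑ w ∈ G.neighborFinset u, Q w v =
      2 * n * al G Q n u v + (2 * n + D - 1) * be G Q n D u v +
        (2 * n + 2 * D) * ga G Q n D u v := by
  have h3 : al G Q n u v = ∑ w ∈ G.neighborFinset u, (if Q w v = 2 * n then (1 : ℤ) else 0) := by
    unfold al nb
    simp
  have h4 : be G Q n D u v =
      ∑ w ∈ G.neighborFinset u, (if Q w v = 2 * n + D - 1 then (1 : ℤ) else 0) := by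
    unfold be nb
    simp
  have h5 : ga G Q n D u v =
      ∑ w ∈ G.neighborFinset u, (if Q w v = 2 * n + 2 * D then (1 : ℤ) else 0) := by
    unfold ga nb
    simp
  rw [h3, h4, h5, Finset.mul_sum, Finset.mul_sum, Finset.mul_sum, ← Finset.sum_add_distrib,
    ← Finset.sum_add_distrib]
  refine Finset.sum_congr rfl fun w _ => ?_
  rcases C.vals' hn hD w v with ⟨h, h'⟩ | ⟨h, h'⟩ | ⟨h, h'⟩ | ⟨h, h'⟩ <;> rw [h'] <;>
    split_ifs <;> omega

/-- general form of the key identity -/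
theorem keyQ (hn : 2 ≤ n) (hD : 2 ≤ D) {u v : V} (huv : u ≠ v) :
    T u = Q u v * (ad G u v + al G Q n u v + be G Q n D u v + ga G Q n D u v) -
      (2 * n * al G Q n u v + (2 * n + D - 1) * be G Q n D u v +
        (2 * n + 2 * D) * ga G Q n D u v) := by
  rw [C.key u v huv, Finset.sum_sub_distrib, C.sum_split hn hD u v, ← C.deg_split hn hD u v]
  simp
  ring

/-- `c`-pairs -/
theorem L1 (hn : 2 ≤ n) (hD : 2 ≤ D) {u v : V} (huv : u ≠ v) (h : Q u v = 2 * n + 2 * D) :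
    T u = (2 * n + 2 * D) * ad G u v + (D + 1) * be G Q n D u v + 2 * D * al G Q n u v := by
  rw [C.keyQ hn hD huv, h]; ring

/-- `b`-pairs -/
theorem L2 (hn : 2 ≤ n) (hD : 2 ≤ D) {u v : V} (huv : u ≠ v) (h : Q u v = 2 * n + D - 1) :
    T u = (2 * n + D - 1) * ad G u v + (D - 1) * al G Q n u v - (D + 1) * ga G Q n D u v := by
  rw [C.keyQ hn hD huv, h]; ring

/-- `a`-pairs -/
theorem L3 (hn : 2 ≤ n) (hD : 2 ≤ D) {u v : V} (huv : u ≠ v) (h : Q u v = 2 * n) :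
    T u = 2 * n * ad G u v - (D - 1) * be G Q n D u v - 2 * D * ga G Q n D u v := by
  rw [C.keyQ hn hD huv, h]; ring

/-- degrees by edge type -/
theorem deg_split_self (hn : 2 ≤ n) (hD : 2 ≤ D) (u : V) :
    (G.degree u : ℤ) = al G Q n u u + be G Q n D u u + ga G Q n D u u := by
  rw [C.deg_split hn hD u u, ad_self]; ring

theorem F0 (hn : 2 ≤ n) (hD : 2 ≤ D) (u : V) :
    T u = 2 * (n + D) * n - 2 * n * al G Q n u u - (2 * n + D - 1) * be G Q n D u u -
      (2 * n + 2 * D) * ga G Q n D u u := by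
  rw [C.tdef u]
  have : ∑ w ∈ G.neighborFinset u, Q u w = ∑ w ∈ G.neighborFinset u, Q w u :=
    Finset.sum_congr rfl fun w _ => C.symm u w
  rw [this, C.sum_split hn hD u u]; ring

/-- B1 -/
theorem T_le_of_a (hn : 2 ≤ n) (hD : 2 ≤ D) {u v : V} (huv : u ≠ v) (h : Q u v = 2 * n) :
    T u ≤ 2 * n := by
  have h1 := C.L3 hn hD huv h
  have h2 := be_nonneg (G := G) (Q := Q) (n := n) (D := D) u v
  have h3 := ga_nonneg (G := G) (Q := Q) (n := n) (D := D) u v
  have h4 : (2 : ℤ) ≤ D := by exact_mod_cast hD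
  have h5 : (2 : ℤ) ≤ n := by exact_mod_cast hn
  have h6 : 0 ≤ ((D : ℤ) - 1) * be G Q n D u v := mul_nonneg (by linarith) h2
  have h7 : 0 ≤ 2 * (D : ℤ) * ga G Q n D u v := mul_nonneg (by linarith) h3
  rcases ad_cases (G := G) u v with ⟨ha, _⟩ | ⟨ha, _⟩ <;> rw [ha] at h1 <;> linarith

theorem T_le_zero_of_a (hn : 2 ≤ n) (hD : 2 ≤ D) {u v : V} (huv : u ≠ v) (h : Q u v = 2 * n)
    (hna : ¬ G.Adj u v) : T u ≤ 0 := by
  have h1 := C.L3 hn hD huv h
  have h2 := be_nonneg (G := G) (Q := Q) (n := n) (D := D) u v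
  have h3 := ga_nonneg (G := G) (Q := Q) (n := n) (D := D) u v
  have h4 : (2 : ℤ) ≤ D := by exact_mod_cast hD
  have h6 : 0 ≤ ((D : ℤ) - 1) * be G Q n D u v := mul_nonneg (by linarith) h2
  have h7 : 0 ≤ 2 * (D : ℤ) * ga G Q n D u v := mul_nonneg (by linarith) h3
  rw [ad_of_not hna] at h1
  linarith

/-- B2 -/
theorem T_nonneg_of_c (hn : 2 ≤ n) (hD : 2 ≤ D) {u v : V} (huv : u ≠ v)
    (h : Q u v = 2 * n + 2 * D) : 0 ≤ T u := by
  have h1 := C.L1 hn hD huv h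
  have h2 := be_nonneg (G := G) (Q := Q) (n := n) (D := D) u v
  have h3 := al_nonneg (G := G) (Q := Q) (n := n) u v
  have h4 : (2 : ℤ) ≤ D := by exact_mod_cast hD
  have h6 : 0 ≤ ((D : ℤ) + 1) * be G Q n D u v := mul_nonneg (by linarith) h2
  have h7 : 0 ≤ 2 * (D : ℤ) * al G Q n u v := mul_nonneg (by linarith) h3
  have h8 : (0 : ℤ) ≤ n := by positivity
  rcases ad_cases (G := G) u v with ⟨ha, _⟩ | ⟨ha, _⟩ <;> rw [ha] at h1 <;> linarith

theorem T_ge_of_cadj (hn : 2 ≤ n) (hD : 2 ≤ D) {u v : V} (huv : G.Adj u v)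
    (h : Q u v = 2 * n + 2 * D) : 2 * n + 2 * D ≤ T u := by
  have h1 := C.L1 hn hD huv.ne h
  have h2 := be_nonneg (G := G) (Q := Q) (n := n) (D := D) u v
  have h3 := al_nonneg (G := G) (Q := Q) (n := n) u v
  have h4 : (2 : ℤ) ≤ D := by exact_mod_cast hD
  have h6 : 0 ≤ ((D : ℤ) + 1) * be G Q n D u v := mul_nonneg (by linarith) h2
  have h7 : 0 ≤ 2 * (D : ℤ) * al G Q n u v := mul_nonneg (by linarith) h3
  rw [ad_of_adj huv] at h1
  linarith

/-- no `c`-edges at vertices with `T ≤ 2n` -/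
theorem not_c_of_adj (hn : 2 ≤ n) (hD : 2 ≤ D) {u v : V} (huv : G.Adj u v)
    (hT : T u ≤ 2 * n) : Q u v ≠ 2 * n + 2 * D := by
  intro h
  have := C.T_ge_of_cadj hn hD huv h
  have h4 : (2 : ℤ) ≤ D := by exact_mod_cast hD
  linarith

theorem ga_self_zero (hn : 2 ≤ n) (hD : 2 ≤ D) {u : V} (hT : T u ≤ 2 * n) :
    ga G Q n D u u = 0 := by
  apply ga_zero_of
  intro w hw
  rw [C.symm]
  exact C.not_c_of_adj hn hD hw hT

/-- B3 -/
theorem exists_c_of_b (hn : 2 ≤ n) (hD : 2 ≤ D) {u w : V} (huw : G.Adj u w)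
    (hT : T u ≤ 2 * n) (hb : Q u w = 2 * n + D - 1) :
    ∃ z, G.Adj u z ∧ z ≠ w ∧ Q z w = 2 * n + 2 * D := by
  have h1 := C.L2 hn hD huw.ne hb
  have h2 := al_nonneg (G := G) (Q := Q) (n := n) u w
  have h4 : (2 : ℤ) ≤ D := by exact_mod_cast hD
  have h6 : 0 ≤ ((D : ℤ) - 1) * al G Q n u w := mul_nonneg (by linarith) h2
  rw [ad_of_adj huw] at h1
  have h7 : 0 < ga G Q n D u w := by
    by_contra hcon
    have h8 : ga G Q n D u w = 0 :=
      le_antisymm (not_lt.1 hcon) (ga_nonneg (G := G) (Q := Q) (n := n) (D := D) u w)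
    rw [h8] at h1
    linarith
  obtain ⟨z, hz1, hz2⟩ := ga_pos_iff.1 h7
  refine ⟨z, hz1, ?_, hz2⟩
  rintro rfl
  rw [C.diag] at hz2
  have : (2 : ℤ) ≤ n := by exact_mod_cast hn
  linarith

theorem T_nonneg_of_b (hn : 2 ≤ n) (hD : 2 ≤ D) {u w : V} (huw : G.Adj u w)
    (hT : T u ≤ 2 * n) (hb : Q u w = 2 * n + D - 1) : 0 ≤ T w := by
  obtain ⟨z, _, h2, h3⟩ := C.exists_c_of_b hn hD huw hT hb
  rw [C.symm] at h3
  exact C.T_nonneg_of_c hn hD (Ne.symm h2) h3

/-- B4: pairs of hubs are `a`-pairs -/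
theorem hub_hub (hn : 2 ≤ n) (hD : 2 ≤ D) {u v : V} (huv : u ≠ v) (hu : T u < 0)
    (hv : T v < 0) : Q u v = 2 * n := by
  have h4 : (2 : ℤ) ≤ D := by exact_mod_cast hD
  have h5 : (2 : ℤ) ≤ n := by exact_mod_cast hn
  rcases C.vals u v huv with h | h | h
  · exact h
  · exfalso
    by_cases ha : G.Adj u v
    · have := C.T_nonneg_of_b hn hD ha (by linarith) h
      linarith
    · have h1 := C.L2 hn hD huv h
      have h2 := al_nonneg (G := G) (Q := Q) (n := n) u v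
      have h6 : 0 ≤ ((D : ℤ) - 1) * al G Q n u v := mul_nonneg (by linarith) h2
      rw [ad_of_not ha] at h1
      have h7 : ga G Q n D u v = 0 := by
        apply ga_zero_of
        intro w hw hQ
        have hwv : w ≠ v := by
          rintro rfl; rw [C.diag] at hQ; linarith
        rw [C.symm] at hQ
        have := C.T_nonneg_of_c hn hD (Ne.symm hwv) hQ
        linarith
      rw [h7] at h1
      linarith
  · exfalso
    have := C.T_nonneg_of_c hn hD huv h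
    linarith

/-- hubs have no `c`-partner -/
theorem hub_not_c (hn : 2 ≤ n) (hD : 2 ≤ D) {u v : V} (huv : u ≠ v) (hu : T u < 0) :
    Q u v ≠ 2 * n + 2 * D := by
  intro h
  have := C.T_nonneg_of_c hn hD huv h
  linarith

end Core

end Pool.Agent.ResSpec
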