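import Pool.Agent.ResSpec.Defs

/-!
# Module CNT: values and counts from equality of the resistance spectra
-/

namespace Pool.Agent.ResSpec.Cnt

open Finset SimpleGraph

universe u

variable {V : Type u} [Fintype V] [DecidableEq V]

theorem card_pairs (S : Finset (Sym2 V)) (hS : ∀ e ∈ S, ¬ e.IsDiag) :
    ((Finset.univ : Finset (V × V)).filter (fun p => s(p.1, p.2) ∈ S)).card = 2 * S.card := by
  have hmap : ∀ p ∈ (Finset.univ : Finset (V × V)).filter (fun p => s(p.1, p.2) ∈ S),
      s(p.1, p.2) ∈ S := by
    intro p hp
    exact (Finset.mem_filter.mp hp).2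
  rw [Finset.card_eq_sum_card_fiberwise (f := fun p : V × V => s(p.1, p.2)) (t := S) hmap]
  have hfib : ∀ e ∈ S, (((Finset.univ : Finset (V × V)).filter
      (fun p => s(p.1, p.2) ∈ S)).filter (fun p => s(p.1, p.2) = e)).card = 2 := by
    intro e he
    induction e using Sym2.ind with
    | _ a b =>
      have hab : a ≠ b := by
        have := hS _ he
        simpa [Sym2.mk_isDiag_iff] using this
      have : (((Finset.univ : Finset (V × V)).filter
          (fun p => s(p.1, p.2) ∈ S)).filter (fun p => s(p.1, p.2) = s(a, b))) =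
          {(a, b), (b, a)} := by
        ext ⟨x, y⟩
        simp only [Finset.mem_filter, Finset.mem_univ, true_and, Finset.mem_insert,
          Finset.mem_singleton, Prod.mk.injEq, Sym2.eq_iff]
        constructor
        · rintro ⟨_, h⟩
          exact h
        · intro h
          refine ⟨?_, h⟩
          have : s(x, y) = s(a, b) := by
            rw [Sym2.eq_iff]
            exact h
          rw [this]
          exact he
      rw [this, Finset.card_pair]
      intro h
      exact hab (Prod.mk.inj h).1
  rw [Finset.sum_congr rfl hfib]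
  simp [mul_comm]

theorem card_offDiag (G : SimpleGraph V) :
    ((Finset.univ : Finset (V × V)).filter (fun p => p.1 ≠ p.2)).card =
      2 * Multiset.card (resSpec G) := by
  have h := card_pairs ((Finset.univ : Finset (Sym2 V)).filter (fun e => ¬ e.IsDiag))
    (by simp)
  have h2 : ((Finset.univ : Finset (V × V)).filter (fun p => s(p.1, p.2) ∈
      (Finset.univ : Finset (Sym2 V)).filter (fun e => ¬ e.IsDiag))) =
      ((Finset.univ : Finset (V × V)).filter (fun p => p.1 ≠ p.2)) := by
    ext p
    simp
  rw [h2] at h
  rw [h]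
  unfold resSpec
  rw [Multiset.card_map]
  rfl

theorem card_value (G : SimpleGraph V) (r : ℝ) :
    ((Finset.univ : Finset (V × V)).filter
      (fun p => p.1 ≠ p.2 ∧ resistance G p.1 p.2 = r)).card =
      2 * Multiset.count r (resSpec G) := by
  have h := card_pairs ((Finset.univ : Finset (Sym2 V)).filter (fun e => ¬ e.IsDiag ∧
    r = (Sym2.lift ⟨resistance G, resistance_comm G⟩) e))
    (by
      intro e he
      exact (Finset.mem_filter.mp he).2.1)
  have h2 : ((Finset.univ : Finset (V × V)).filter (fun p => s(p.1, p.2) ∈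
      (Finset.univ : Finset (Sym2 V)).filter (fun e => ¬ e.IsDiag ∧
        r = (Sym2.lift ⟨resistance G, resistance_comm G⟩) e))) =
      ((Finset.univ : Finset (V × V)).filter
        (fun p => p.1 ≠ p.2 ∧ resistance G p.1 p.2 = r)) := by
    ext p
    simp only [Finset.mem_filter, Finset.mem_univ, true_and, Sym2.mk_isDiag_iff, Sym2.lift_mk,
      ne_eq]
    constructor
    · rintro ⟨h1, h2⟩
      exact ⟨h1, h2.symm⟩
    · rintro ⟨h1, h2⟩
      exact ⟨h1, h2.symm⟩
  rw [h2] at h
  rw [h]
  unfold resSpec
  rw [Multiset.count_map, ← Finset.filter_val, Finset.filter_filter]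
  rfl

theorem offDiag_card_fin (k : ℕ) :
    ((Finset.univ : Finset (Fin k × Fin k)).filter (fun p => p.1 ≠ p.2)).card = k * (k - 1) := by
  have h : ((Finset.univ : Finset (Fin k × Fin k)).filter (fun p => p.1 ≠ p.2)) =
      (Finset.univ : Finset (Fin k)).offDiag := by
    ext p
    simp
  rw [h, Finset.offDiag_card]
  simp [Nat.mul_sub]

theorem card_offDiag_type :
    ((Finset.univ : Finset (V × V)).filter (fun p => p.1 ≠ p.2)).card =
      Fintype.card V * (Fintype.card V - 1) := by
  have h : ((Finset.univ : Finset (V × V)).filter (fun p => p.1 ≠ p.2)) =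
      (Finset.univ : Finset V).offDiag := by
    ext p
    simp
  rw [h, Finset.offDiag_card]
  simp [Nat.mul_sub]

end Cnt

open Cnt Finset SimpleGraph in
theorem cnt_proof.{u} (hK : Stmt_Kmn) : Stmt_Cnt.{u} := by
  intro V _ _ G n D hn hD hspec
  have hm1 : 1 ≤ n + D := by omega
  have hn1 : 1 ≤ n := by omega
  obtain ⟨kll, krr, klr⟩ := hK (n + D) n hm1 hn1
  set K := completeBipartiteGraph (Fin (n + D)) (Fin n) with hKdef
  have hnR : (2 : ℝ) ≤ n := by exact_mod_cast hn
  have hDR : (2 : ℝ) ≤ D := by exact_mod_cast hD
  have hn0 : (n : ℝ) ≠ 0 := by linarith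
  have hm0 : (n : ℝ) + D ≠ 0 := by linarith
  have hcastm : ((n + D : ℕ) : ℝ) = (n : ℝ) + D := by push_cast; ring
  rw [hcastm] at krr klr
  -- value names
  have hb : ((n : ℝ) + D + n - 1) / ((n + D) * n) = (2 * n + D - 1 : ℝ) / ((n + D) * n) := by
    congr 1
    ring
  rw [hb] at klr
  have krl : ∀ (i : Fin n) (j : Fin (n + D)), resistance K (Sum.inr i) (Sum.inl j) =
      (2 * n + D - 1 : ℝ) / ((n + D) * n) := fun i j => by
    rw [resistance_comm]
    exact klr j i
  have hab : (2 : ℝ) / (n + D) ≠ (2 * n + D - 1 : ℝ) / ((n + D) * n) := by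
    intro h
    rw [div_eq_div_iff hm0 (mul_ne_zero hm0 hn0)] at h
    have h2 : ((n : ℝ) + D) * (2 * n) = ((n : ℝ) + D) * (2 * n + D - 1) := by linarith
    have h3 := mul_left_cancel₀ hm0 h2
    linarith
  have hbc : (2 * n + D - 1 : ℝ) / ((n + D) * n) ≠ (2 : ℝ) / n := by
    intro h
    rw [div_eq_div_iff (mul_ne_zero hm0 hn0) hn0] at h
    have h2 : (2 * n + D - 1 : ℝ) * n = (2 * (n + D)) * n := by linarith
    have h3 := mul_right_cancel₀ hn0 h2
    linarith
  have hac : (2 : ℝ) / (n + D) ≠ (2 : ℝ) / n := by
    intro h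
    rw [div_eq_div_iff hm0 hn0] at h
    linarith
  refine ⟨?_, ?_, ?_, ?_, ?_⟩
  · have h1 := card_offDiag G
    have h2 := card_offDiag K
    rw [hspec, ← h2, card_offDiag_type, card_offDiag_type] at h1
    have h3 : Fintype.card (Fin (n + D) ⊕ Fin n) = 2 * n + D := by
      simp
      omega
    rw [h3] at h1
    -- x (x-1) = N (N-1)
    have hmono : ∀ x y : ℕ, 1 ≤ y → x < y → x * (x - 1) < y * (y - 1) ∨ (x = 0 ∧ y = 1) := by
      intro x y hy hxy
      obtain ⟨y, rfl⟩ : ∃ z, y = z + 1 := ⟨y - 1, by omega⟩
      rcases Nat.eq_zero_or_pos x with hx | hx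
      · subst hx
        rcases Nat.eq_zero_or_pos y with hy0 | hy0
        · right
          omega
        · left
          simp
          omega
      · left
        have : x ≤ y := by omega
        have h4 : x - 1 < y := by omega
        calc x * (x - 1) < x * y := Nat.mul_lt_mul_of_pos_left h4 hx
          _ ≤ (y + 1) * y := Nat.mul_le_mul_right _ (by omega)
          _ = (y + 1) * (y + 1 - 1) := by simp
    rcases Nat.lt_trichotomy (Fintype.card V) (2 * n + D) with h | h | h
    · rcases hmono _ _ (by omega) h with h5 | h5 <;> omega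
    · exact h
    · rcases hmono _ _ (by omega) h with h5 | h5 <;> omega
  · intro u v huv
    have hmem : resistance G u v ∈ resSpec G := by
      unfold resSpec
      rw [Multiset.mem_map]
      refine ⟨s(u, v), ?_, rfl⟩
      rw [Finset.mem_val]
      simp [huv]
    rw [hspec] at hmem
    unfold resSpec at hmem
    rw [Multiset.mem_map] at hmem
    obtain ⟨e, he, hval⟩ := hmem
    rw [← hval]
    rw [Finset.mem_val] at he
    induction e using Sym2.ind with
    | _ x y =>
      have hxy : x ≠ y := by simpa using he
      rw [Sym2.lift_mk]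
      rcases x with x | x <;> rcases y with y | y
      · right; right
        exact kll x y (fun h => hxy (by rw [h]))
      · right; left
        exact klr x y
      · right; left
        exact krl x y
      · left
        exact krr x y (fun h => hxy (by rw [h]))
  · rw [card_value, hspec, ← card_value]
    rw [← offDiag_card_fin n]
    rw [← Finset.card_map (Function.Embedding.prodMap
      (Function.Embedding.inr : Fin n ↪ Fin (n + D) ⊕ Fin n)
      (Function.Embedding.inr : Fin n ↪ Fin (n + D) ⊕ Fin n))]
    congr 1
    ext ⟨x, y⟩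
    simp only [Finset.mem_filter, Finset.mem_univ, true_and, Finset.mem_map,
      Function.Embedding.prodMap, Function.Embedding.coeFn_mk, Prod.exists, Prod.map_apply,
      Function.Embedding.inr_apply, Prod.mk.injEq]
    constructor
    · rintro ⟨hxy, hr⟩
      rcases x with x | x <;> rcases y with y | y
      · rw [kll x y (fun h => hxy (by rw [h]))] at hr
        exact absurd hr.symm hac
      · rw [klr x y] at hr
        exact absurd hr.symm hab
      · rw [krl x y] at hr
        exact absurd hr.symm hab
      · exact ⟨x, y, fun h => hxy (by rw [h]), rfl, rfl⟩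
    · rintro ⟨a, b, hab', rfl, rfl⟩
      exact ⟨fun h => hab' (Sum.inr_injective h), krr a b hab'⟩
  · rw [card_value, hspec, ← card_value]
    have hunion : ((Finset.univ : Finset ((Fin (n + D) ⊕ Fin n) × (Fin (n + D) ⊕ Fin n))).filter
        (fun p => p.1 ≠ p.2 ∧ resistance K p.1 p.2 = (2 * n + D - 1 : ℝ) / ((n + D) * n))) =
        ((Finset.univ : Finset (Fin (n + D) × Fin n)).map (Function.Embedding.prodMap
          (Function.Embedding.inl : Fin (n + D) ↪ Fin (n + D) ⊕ Fin n)
          (Function.Embedding.inr : Fin n ↪ Fin (n + D) ⊕ Fin n))) ∪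
        ((Finset.univ : Finset (Fin n × Fin (n + D))).map (Function.Embedding.prodMap
          (Function.Embedding.inr : Fin n ↪ Fin (n + D) ⊕ Fin n)
          (Function.Embedding.inl : Fin (n + D) ↪ Fin (n + D) ⊕ Fin n))) := by
      ext ⟨x, y⟩
      simp only [Finset.mem_filter, Finset.mem_univ, true_and, Finset.mem_map,
        Function.Embedding.prodMap, Function.Embedding.coeFn_mk, Prod.exists, Prod.map_apply,
        Function.Embedding.inr_apply, Function.Embedding.inl_apply, Prod.mk.injEq,
        Finset.mem_union]
      constructor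
      · rintro ⟨hxy, hr⟩
        rcases x with x | x <;> rcases y with y | y
        · rw [kll x y (fun h => hxy (by rw [h]))] at hr
          exact absurd hr.symm hbc
        · exact Or.inl ⟨x, y, rfl, rfl⟩
        · exact Or.inr ⟨x, y, rfl, rfl⟩
        · rw [krr x y (fun h => hxy (by rw [h]))] at hr
          exact absurd hr hab
      · rintro (⟨a, b, rfl, rfl⟩ | ⟨a, b, rfl, rfl⟩)
        · exact ⟨by simp, klr a b⟩
        · exact ⟨by simp, krl a b⟩
    rw [hunion, Finset.card_union_of_disjoint]
    · simp only [Finset.card_map, Finset.card_univ, Fintype.card_prod, Fintype.card_fin]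
      ring
    · rw [Finset.disjoint_left]
      rintro ⟨x, y⟩ h1 h2
      simp only [Finset.mem_univ, true_and, Finset.mem_map,
        Function.Embedding.prodMap, Function.Embedding.coeFn_mk, Prod.exists, Prod.map_apply,
        Function.Embedding.inr_apply, Function.Embedding.inl_apply, Prod.mk.injEq] at h1 h2
      obtain ⟨a, b, rfl, rfl⟩ := h1
      obtain ⟨c, d, h3, h4⟩ := h2
      simp at h3
  · rw [card_value, hspec, ← card_value]
    rw [← offDiag_card_fin (n + D)]
    rw [← Finset.card_map (Function.Embedding.prodMap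
      (Function.Embedding.inl : Fin (n + D) ↪ Fin (n + D) ⊕ Fin n)
      (Function.Embedding.inl : Fin (n + D) ↪ Fin (n + D) ⊕ Fin n))]
    congr 1
    ext ⟨x, y⟩
    simp only [Finset.mem_filter, Finset.mem_univ, true_and, Finset.mem_map,
      Function.Embedding.prodMap, Function.Embedding.coeFn_mk, Prod.exists, Prod.map_apply,
      Function.Embedding.inl_apply, Prod.mk.injEq]
    constructor
    · rintro ⟨hxy, hr⟩
      rcases x with x | x <;> rcases y with y | y
      · exact ⟨x, y, fun h => hxy (by rw [h]), rfl, rfl⟩
      · rw [klr x y] at hr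
        exact absurd hr hbc
      · rw [krl x y] at hr
        exact absurd hr hbc
      · rw [krr x y (fun h => hxy (by rw [h]))] at hr
        exact absurd hr hac
    · rintro ⟨a, b, hab', rfl, rfl⟩
      exact ⟨fun h => hab' (Sum.inl_injective h), kll a b hab'⟩

end Pool.Agent.ResSpec
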