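import Pool.Agent.ResSpec.Defs

/-!
# Module KMN: the resistance spectrum of the complete bipartite graph
-/

namespace Pool.Agent.ResSpec.Kmn

open Finset Matrix SimpleGraph

theorem connected {m n : ℕ} (hm : 1 ≤ m) (hn : 1 ≤ n) :
    (completeBipartiteGraph (Fin m) (Fin n)).Connected := by
  have i0 : Fin m := ⟨0, hm⟩
  have j0 : Fin n := ⟨0, hn⟩
  have : Nonempty (Fin m ⊕ Fin n) := ⟨Sum.inl i0⟩
  have h1 : ∀ i : Fin m, (completeBipartiteGraph (Fin m) (Fin n)).Reachable (Sum.inl i)
      (Sum.inr j0) := fun i => SimpleGraph.Adj.reachable (by simp)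
  have h2 : ∀ j : Fin n, (completeBipartiteGraph (Fin m) (Fin n)).Reachable (Sum.inr j)
      (Sum.inl i0) := fun j => SimpleGraph.Adj.reachable (by simp)
  have h3 : ∀ x : Fin m ⊕ Fin n, (completeBipartiteGraph (Fin m) (Fin n)).Reachable x
      (Sum.inr j0) := by
    rintro (i | j)
    · exact h1 i
    · exact (h2 j).trans (h1 i0)
  exact ⟨fun x y => (h3 x).trans (h3 y).symm⟩

theorem nbr_inl {m n : ℕ} [DecidableRel (completeBipartiteGraph (Fin m) (Fin n)).Adj]
    (i : Fin m) :
    (completeBipartiteGraph (Fin m) (Fin n)).neighborFinset (Sum.inl i) =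
      Finset.univ.map Function.Embedding.inr := by
  ext x
  rw [mem_neighborFinset]
  rcases x with x | x <;> simp

theorem nbr_inr {m n : ℕ} [DecidableRel (completeBipartiteGraph (Fin m) (Fin n)).Adj]
    (j : Fin n) :
    (completeBipartiteGraph (Fin m) (Fin n)).neighborFinset (Sum.inr j) =
      Finset.univ.map Function.Embedding.inl := by
  ext x
  rw [mem_neighborFinset]
  rcases x with x | x <;> simp

theorem lap_inl {m n : ℕ} [DecidableRel (completeBipartiteGraph (Fin m) (Fin n)).Adj]
    (φ : Fin m ⊕ Fin n → ℝ) (i : Fin m) :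
    ((completeBipartiteGraph (Fin m) (Fin n)).lapMatrix ℝ *ᵥ φ) (Sum.inl i) =
      n * φ (Sum.inl i) - ∑ j : Fin n, φ (Sum.inr j) := by
  rw [lapMatrix_mulVec_apply, ← card_neighborFinset_eq_degree, nbr_inl]
  simp

theorem lap_inr {m n : ℕ} [DecidableRel (completeBipartiteGraph (Fin m) (Fin n)).Adj]
    (φ : Fin m ⊕ Fin n → ℝ) (j : Fin n) :
    ((completeBipartiteGraph (Fin m) (Fin n)).lapMatrix ℝ *ᵥ φ) (Sum.inr j) =
      m * φ (Sum.inr j) - ∑ i : Fin m, φ (Sum.inl i) := by
  rw [lapMatrix_mulVec_apply, ← card_neighborFinset_eq_degree, nbr_inr]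
  simp

end Kmn

open Kmn Finset Matrix SimpleGraph in
theorem kmn_proof (hPot : Stmt_Pot.{0}) : Stmt_Kmn := by
  classical
  intro m n hm hn
  have hm0 : (m : ℝ) ≠ 0 := by exact_mod_cast (by omega : m ≠ 0)
  have hn0 : (n : ℝ) ≠ 0 := by exact_mod_cast (by omega : n ≠ 0)
  have hc := connected hm hn
  refine ⟨?_, ?_, ?_⟩
  · intro i j hij
    have h := hPot _ (completeBipartiteGraph (Fin m) (Fin n)) hc (Sum.inl i) (Sum.inl j)
      (Sum.elim (fun k => (Pi.single (M := fun _ => ℝ) i (1 : ℝ) k -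
        Pi.single (M := fun _ => ℝ) j (1 : ℝ) k) / n) (fun _ => 0)) ?_
    · rw [h]
      simp only [Sum.elim_inl, Pi.single_eq_same, Pi.single_eq_of_ne hij,
        Pi.single_eq_of_ne hij.symm]
      ring
    · ext x
      rcases x with x | x
      · rw [lap_inl]
        simp only [Sum.elim_inl, Sum.elim_inr, Finset.sum_const_zero, Pi.sub_apply, sub_zero]
        have e1 : (Pi.single (Sum.inl i : Fin m ⊕ Fin n) (1 : ℝ) : Fin m ⊕ Fin n → ℝ) (Sum.inl x)
            = Pi.single (M := fun _ => ℝ) i (1 : ℝ) x := by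
          simp [Pi.single_apply]
        have e2 : (Pi.single (Sum.inl j : Fin m ⊕ Fin n) (1 : ℝ) : Fin m ⊕ Fin n → ℝ) (Sum.inl x)
            = Pi.single (M := fun _ => ℝ) j (1 : ℝ) x := by
          simp [Pi.single_apply]
        rw [e1, e2]
        field_simp
      · rw [lap_inr]
        simp only [Sum.elim_inl, Sum.elim_inr, Pi.sub_apply, mul_zero, zero_sub]
        rw [← Finset.sum_div, Finset.sum_sub_distrib]
        simp [Pi.single_apply]
  · intro i j hij
    have h := hPot _ (completeBipartiteGraph (Fin m) (Fin n)) hc (Sum.inr i) (Sum.inr j)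
      (Sum.elim (fun _ => 0) (fun k => (Pi.single (M := fun _ => ℝ) i (1 : ℝ) k -
        Pi.single (M := fun _ => ℝ) j (1 : ℝ) k) / m)) ?_
    · rw [h]
      simp only [Sum.elim_inr, Pi.single_eq_same, Pi.single_eq_of_ne hij,
        Pi.single_eq_of_ne hij.symm]
      ring
    · ext x
      rcases x with x | x
      · rw [lap_inl]
        simp only [Sum.elim_inl, Sum.elim_inr, Pi.sub_apply, mul_zero, zero_sub]
        rw [← Finset.sum_div, Finset.sum_sub_distrib]
        simp [Pi.single_apply]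
      · rw [lap_inr]
        simp only [Sum.elim_inl, Sum.elim_inr, Finset.sum_const_zero, Pi.sub_apply, sub_zero]
        have e1 : (Pi.single (Sum.inr i : Fin m ⊕ Fin n) (1 : ℝ) : Fin m ⊕ Fin n → ℝ) (Sum.inr x)
            = Pi.single (M := fun _ => ℝ) i (1 : ℝ) x := by
          simp [Pi.single_apply]
        have e2 : (Pi.single (Sum.inr j : Fin m ⊕ Fin n) (1 : ℝ) : Fin m ⊕ Fin n → ℝ) (Sum.inr x)
            = Pi.single (M := fun _ => ℝ) j (1 : ℝ) x := by
          simp [Pi.single_apply]
        rw [e1, e2]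
        field_simp
  · intro i j
    have h := hPot _ (completeBipartiteGraph (Fin m) (Fin n)) hc (Sum.inl i) (Sum.inr j)
      (Sum.elim (fun k => -1 / (m * n) + Pi.single (M := fun _ => ℝ) i (1 : ℝ) k / n)
        (fun k => - (Pi.single (M := fun _ => ℝ) j (1 : ℝ) k) / m)) ?_
    · rw [h]
      simp only [Sum.elim_inl, Sum.elim_inr, Pi.single_eq_same]
      field_simp
      ring
    · ext x
      rcases x with x | x
      · rw [lap_inl]
        simp only [Sum.elim_inl, Sum.elim_inr, Pi.sub_apply]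
        rw [← Finset.sum_div]
        have e1 : (Pi.single (Sum.inl i : Fin m ⊕ Fin n) (1 : ℝ) : Fin m ⊕ Fin n → ℝ) (Sum.inl x)
            = Pi.single (M := fun _ => ℝ) i (1 : ℝ) x := by
          simp [Pi.single_apply]
        have e2 : (Pi.single (Sum.inr j : Fin m ⊕ Fin n) (1 : ℝ) : Fin m ⊕ Fin n → ℝ) (Sum.inl x)
            = 0 := by
          simp
        rw [e1, e2, Finset.sum_neg_distrib]
        have e3 : ∑ k : Fin n, Pi.single (M := fun _ => ℝ) j (1 : ℝ) k = 1 := by
          simp
        rw [e3]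
        field_simp
        ring
      · rw [lap_inr]
        simp only [Sum.elim_inl, Sum.elim_inr, Pi.sub_apply]
        rw [Finset.sum_add_distrib, ← Finset.sum_div, ← Finset.sum_div]
        have e1 : (Pi.single (Sum.inl i : Fin m ⊕ Fin n) (1 : ℝ) : Fin m ⊕ Fin n → ℝ) (Sum.inr x)
            = 0 := by
          simp
        have e2 : (Pi.single (Sum.inr j : Fin m ⊕ Fin n) (1 : ℝ) : Fin m ⊕ Fin n → ℝ) (Sum.inr x)
            = Pi.single (M := fun _ => ℝ) j (1 : ℝ) x := by
          simp [Pi.single_apply]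
        have e3 : ∑ k : Fin m, Pi.single (M := fun _ => ℝ) i (1 : ℝ) k = 1 := by
          simp
        rw [e1, e2, e3]
        simp only [Finset.sum_const, Finset.card_univ, Fintype.card_fin, nsmul_eq_mul]
        field_simp
        ring

end Pool.Agent.ResSpec
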