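import Pool.Agent.ResSpec.Lap
import Pool.Agent.ResSpec.Kmn
import Pool.Agent.ResSpec.Cnt

/-! # Module COR: the combinatorial core of an equality of resistance spectra -/

set_option linter.unusedSectionVars false

namespace Pool.Agent.ResSpec

open Finset

universe u

namespace CorMod

variable {V : Type u} [Fintype V] [DecidableEq V]

open Classical in
/-- the integer `m n R(u,v)` -/
noncomputable def Qd (G : SimpleGraph V) (n D : ℕ) (u v : V) : ℤ :=
  if u = v then 0
  else if resistance G u v = 2 / (n + D : ℝ) then 2 * n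
  else if resistance G u v = (2 * n + D - 1 : ℝ) / ((n + D) * n) then 2 * n + D - 1
  else 2 * n + 2 * D

theorem res_self (G : SimpleGraph V) (u : V) : resistance G u u = 0 := by
  unfold resistance; simp

theorem Qd_cast {G : SimpleGraph V} {n D : ℕ} (hn : 2 ≤ n)
    (hv : ∀ u v, u ≠ v → resistance G u v = 2 / (n + D : ℝ) ∨
      resistance G u v = (2 * n + D - 1 : ℝ) / ((n + D) * n) ∨ resistance G u v = 2 / (n : ℝ))
    (u v : V) : (Qd G n D u v : ℝ) = (n + D) * n * resistance G u v := by
  have h5 : (2 : ℝ) ≤ n := by exact_mod_cast hn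
  have h6 : (0 : ℝ) ≤ D := by positivity
  have h7 : (n : ℝ) ≠ 0 := by linarith
  have h8 : (n + D : ℝ) ≠ 0 := by linarith
  unfold Qd
  by_cases huv : u = v
  · rw [if_pos huv, huv, res_self]; simp
  · rw [if_neg huv]
    split_ifs with h1 h2
    · rw [h1]; push_cast; field_simp
    · rw [h2]; push_cast; field_simp
    · rcases hv u v huv with h | h | h
      · exact absurd h h1
      · exact absurd h h2
      · rw [h]; push_cast; field_simp

end CorMod

open CorMod in
theorem cor_proof : Stmt_Cor.{u} := by
  intro V _ _ G _ n D hn hD hc hRS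
  obtain ⟨hcard, hv, cA, cB, cC⟩ := cnt_proof (kmn_proof pot_proof) V G n D hn hD hRS
  have hQ := Qd_cast (G := G) (D := D) hn hv
  obtain ⟨hs1, hs2, hs3⟩ := sum_proof V G hc
  have h5 : (2 : ℝ) ≤ n := by exact_mod_cast hn
  have h6 : (0 : ℝ) ≤ D := by positivity
  have h7 : (n : ℝ) ≠ 0 := by linarith
  have h8 : (n + D : ℝ) ≠ 0 := by linarith
  have hmn : (0 : ℝ) < (n + D) * n := by positivity
  have hT : ∀ u, ((2 * (n + D) * n - ∑ w ∈ G.neighborFinset u, Qd G n D u w : ℤ) : ℝ) =
      (n + D) * n * (2 - ∑ w ∈ G.neighborFinset u, resistance G u w) := by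
    intro u
    push_cast
    rw [Finset.sum_congr rfl (fun w _ => hQ u w), ← Finset.mul_sum]
    ring
  have hval : ∀ (x : ℤ) (r : ℝ), ((x : ℤ) : ℝ) = (n + D) * n * r → ∀ u v,
      (Qd G n D u v = x ↔ resistance G u v = r) := by
    intro x r hx u v
    constructor
    · intro h
      have h1 := hQ u v
      rw [h, hx] at h1
      exact (mul_left_cancel₀ hmn.ne' h1).symm
    · intro h
      have h1 := hQ u v
      rw [h, ← hx] at h1
      exact_mod_cast h1
  have hvA := hval (2 * n) (2 / (n + D : ℝ)) (by push_cast; field_simp)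
  have hvB := hval (2 * n + D - 1) ((2 * n + D - 1 : ℝ) / ((n + D) * n))
    (by push_cast; field_simp)
  have hvC := hval (2 * n + 2 * D) (2 / (n : ℝ)) (by push_cast; field_simp)
  refine ⟨Qd G n D, fun u => 2 * (n + D) * n - ∑ w ∈ G.neighborFinset u, Qd G n D u w,
    ⟨hc, hcard, ?_, ?_, ?_, ?_, ?_, ?_, ?_, ?_, ?_, ?_⟩⟩
  · intro u v
    have h1 := hQ u v
    have h2 := hQ v u
    rw [resistance_comm, ← h2] at h1
    exact_mod_cast h1
  · intro u; unfold Qd; simp
  · intro u v huv
    rcases hv u v huv with h | h | h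
    · left; exact (hvA u v).2 h
    · right; left; exact (hvB u v).2 h
    · right; right; exact (hvC u v).2 h
  · intro u; rfl
  · intro u v huv
    have h1 := hT u
    rw [hs1 u v huv] at h1
    have h2 : ((∑ w ∈ G.neighborFinset u, (Qd G n D u v - Qd G n D w v) : ℤ) : ℝ) =
        (n + D) * n * ∑ w ∈ G.neighborFinset u, (resistance G u v - resistance G w v) := by
      push_cast
      rw [Finset.mul_sum]
      refine Finset.sum_congr rfl fun w _ => ?_
      rw [hQ, hQ]; ring
    rw [← h2] at h1
    exact_mod_cast h1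
  · have h1 : ((∑ u, (2 * (n + D) * n - ∑ w ∈ G.neighborFinset u, Qd G n D u w) : ℤ) : ℝ) =
        (n + D) * n * ∑ u, (2 - ∑ w ∈ G.neighborFinset u, resistance G u w) := by
      rw [Finset.mul_sum]
      push_cast
      refine Finset.sum_congr rfl fun u _ => ?_
      have := hT u
      push_cast at this
      exact this
    rw [hs2] at h1
    have h2 : ((2 * (n + D) * n : ℤ) : ℝ) = (n + D) * n * 2 := by push_cast; ring
    rw [← h2] at h1
    exact_mod_cast h1
  · intro u v huv
    have h1 := hs3 u v huv
    have h2 := mul_le_mul_of_nonneg_left h1 hmn.le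
    have h3 : ((Qd G n D u v * (G.degree u + G.degree v + 2 * (if G.Adj u v then 1 else 0)) : ℤ) : ℝ)
        = (n + D) * n * (resistance G u v *
          (G.degree u + G.degree v + 2 * (if G.Adj u v then 1 else 0))) := by
      push_cast
      rw [hQ]; ring
    rw [← h3] at h2
    have h4 : ((4 * ((n : ℤ) + D) * n : ℤ) : ℝ) = (n + D) * n * 4 := by push_cast; ring
    rw [← h4] at h2
    exact_mod_cast h2
  · rw [← cA]
    congr 1
    ext p
    simp only [mem_filter, mem_univ, true_and]
    rw [hvA]
  · rw [← cB]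
    congr 1
    ext p
    simp only [mem_filter, mem_univ, true_and]
    rw [hvB]
  · rw [← cC]
    congr 1
    ext p
    simp only [mem_filter, mem_univ, true_and]
    rw [hvC]

end Pool.Agent.ResSpec
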