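import Mathlib

/-!
# Resistance spectrum of graphs (MP_23a9ba_co): definitions and module interface

`pinvLap G = (L + J/|V|)⁻¹ - J/|V|` is the Moore-Penrose inverse of the Laplacian of a connected
graph (the four Penrose identities are proved in `Analytic.lean`), `resistance G u v` is
`(e_u - e_v)ᵀ L⁺ (e_u - e_v)`, and `resSpec G` is the multiset of the resistances over all
unordered pairs of distinct vertices.
-/

namespace Pool.Agent.ResSpec

open Finset Matrix

universe u

section Definitions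

variable {V : Type u} [Fintype V] [DecidableEq V]

/-- The matrix `J/|V|`. -/
noncomputable def avgMat (V : Type u) [Fintype V] : Matrix V V ℝ :=
  Matrix.of fun _ _ => (1 : ℝ) / Fintype.card V

open Classical in
/-- The matrix `(L + J/|V|)⁻¹`. -/
noncomputable def green (G : SimpleGraph V) : Matrix V V ℝ :=
  (G.lapMatrix ℝ + avgMat V)⁻¹

/-- The Moore-Penrose inverse of the Laplacian (for connected graphs):
`L⁺ = (L + J/|V|)⁻¹ - J/|V|`. -/
noncomputable def pinvLap (G : SimpleGraph V) : Matrix V V ℝ :=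
  green G - avgMat V

/-- The resistance distance `R_G(u,v) = (e_u - e_v)ᵀ L⁺ (e_u - e_v)`. -/
noncomputable def resistance (G : SimpleGraph V) (u v : V) : ℝ :=
  (Pi.single u 1 - Pi.single v 1) ⬝ᵥ (pinvLap G *ᵥ (Pi.single u 1 - Pi.single v 1))

theorem resistance_comm (G : SimpleGraph V) (u v : V) : resistance G u v = resistance G v u := by
  unfold resistance
  have : (Pi.single u 1 - Pi.single v 1 : V → ℝ) = -(Pi.single v 1 - Pi.single u 1) := by
    simp
  rw [this, Matrix.mulVec_neg]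
  simp

/-- The resistance spectrum: the multiset of `R_G(u,v)` over all unordered pairs of distinct
vertices. -/
noncomputable def resSpec (G : SimpleGraph V) : Multiset ℝ :=
  ((Finset.univ : Finset (Sym2 V)).filter (fun e => ¬ e.IsDiag)).val.map
    (Sym2.lift ⟨resistance G, resistance_comm G⟩)

end Definitions

section Core

variable {V : Type u} [Fintype V] [DecidableEq V]

/-- The combinatorial data extracted from `RS(G) = RS(K_{n+D,n})`.
`Q u v = m n R(u,v)` with `m = n + D`; its off-diagonal values are `a = 2n`, `b = 2n+D-1`,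
`c = 2n+2D`. `T u = 2mn - ∑_{w ~ u} Q u w`. -/
structure Core (n D : ℕ) (G : SimpleGraph V) [DecidableRel G.Adj] (Q : V → V → ℤ) (T : V → ℤ) :
    Prop where
  conn : G.Connected
  card : Fintype.card V = 2 * n + D
  symm : ∀ u v, Q u v = Q v u
  diag : ∀ u, Q u u = 0
  vals : ∀ u v, u ≠ v → Q u v = 2 * n ∨ Q u v = 2 * n + D - 1 ∨ Q u v = 2 * n + 2 * D
  tdef : ∀ u, T u = 2 * (n + D) * n - ∑ w ∈ G.neighborFinset u, Q u w
  key : ∀ u v, u ≠ v → T u = ∑ w ∈ G.neighborFinset u, (Q u v - Q w v)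
  sumT : ∑ u, T u = 2 * (n + D) * n
  cs : ∀ u v, u ≠ v →
    4 * ((n : ℤ) + D) * n ≤ Q u v * (G.degree u + G.degree v + 2 * (if G.Adj u v then 1 else 0))
  cntA : ((Finset.univ : Finset (V × V)).filter
    (fun p => p.1 ≠ p.2 ∧ Q p.1 p.2 = 2 * n)).card = n * (n - 1)
  cntB : ((Finset.univ : Finset (V × V)).filter
    (fun p => p.1 ≠ p.2 ∧ Q p.1 p.2 = 2 * n + D - 1)).card = 2 * (n + D) * n
  cntC : ((Finset.univ : Finset (V × V)).filter
    (fun p => p.1 ≠ p.2 ∧ Q p.1 p.2 = 2 * n + 2 * D)).card = (n + D) * (n + D - 1)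

end Core

/-! ## Module statements -/

/-- (LAP) Basic facts on `green G` for connected `G`. -/
def Stmt_Lap : Prop :=
  ∀ (V : Type u) [Fintype V] [DecidableEq V] (G : SimpleGraph V) [DecidableRel G.Adj],
    G.Connected →
      G.lapMatrix ℝ * green G = 1 - avgMat V ∧ green G * G.lapMatrix ℝ = 1 - avgMat V ∧
      (green G).IsSymm

/-- (RES) Potentials compute the resistance. -/
def Stmt_Pot : Prop :=
  ∀ (V : Type u) [Fintype V] [DecidableEq V] (G : SimpleGraph V) [DecidableRel G.Adj],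
    G.Connected → ∀ (u v : V) (φ : V → ℝ),
      G.lapMatrix ℝ *ᵥ φ = Pi.single u 1 - Pi.single v 1 → resistance G u v = φ u - φ v

/-- (SUM) The sum rule (Klein / Foster): `τ_u = 2 - ∑_{w~u} R_uw` satisfies
`τ_u = ∑_{w~u} (R_uv - R_wv)` for all `v ≠ u` and `∑ τ = 2`; and the Cauchy-Schwarz lower bound
`R_uv (d_u + d_v + 2[u~v]) ≥ 4`. -/
def Stmt_Sum : Prop :=
  ∀ (V : Type u) [Fintype V] [DecidableEq V] (G : SimpleGraph V) [DecidableRel G.Adj],
    G.Connected →
      (∀ u v, u ≠ v → 2 - ∑ w ∈ G.neighborFinset u, resistance G u w =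
        ∑ w ∈ G.neighborFinset u, (resistance G u v - resistance G w v)) ∧
      (∑ u, (2 - ∑ w ∈ G.neighborFinset u, resistance G u w) = 2) ∧
      (∀ u v, u ≠ v →
        4 ≤ resistance G u v *
          (G.degree u + G.degree v + 2 * (if G.Adj u v then 1 else 0)))

/-- (KMN) The resistance spectrum of `K_{m,n}`. -/
def Stmt_Kmn : Prop :=
  ∀ (m n : ℕ), 1 ≤ m → 1 ≤ n →
    (∀ i j : Fin m, i ≠ j →
      resistance (completeBipartiteGraph (Fin m) (Fin n)) (Sum.inl i) (Sum.inl j) = 2 / n) ∧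
    (∀ i j : Fin n, i ≠ j →
      resistance (completeBipartiteGraph (Fin m) (Fin n)) (Sum.inr i) (Sum.inr j) = 2 / m) ∧
    (∀ (i : Fin m) (j : Fin n),
      resistance (completeBipartiteGraph (Fin m) (Fin n)) (Sum.inl i) (Sum.inr j) =
        (m + n - 1) / (m * n))

/-- (CNT) From equality of the resistance spectra to values and counts
(ordered pairs of distinct vertices). -/
def Stmt_Cnt : Prop :=
  ∀ (V : Type u) [Fintype V] [DecidableEq V] (G : SimpleGraph V) (n D : ℕ), 2 ≤ n → 2 ≤ D →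
    resSpec G = resSpec (completeBipartiteGraph (Fin (n + D)) (Fin n)) →
    Fintype.card V = 2 * n + D ∧
    (∀ u v, u ≠ v → resistance G u v = 2 / (n + D : ℝ) ∨
      resistance G u v = (2 * n + D - 1 : ℝ) / ((n + D) * n) ∨ resistance G u v = 2 / (n : ℝ)) ∧
    ((Finset.univ : Finset (V × V)).filter
      (fun p => p.1 ≠ p.2 ∧ resistance G p.1 p.2 = 2 / (n + D : ℝ))).card = n * (n - 1) ∧
    ((Finset.univ : Finset (V × V)).filter
      (fun p => p.1 ≠ p.2 ∧ resistance G p.1 p.2 = (2 * n + D - 1 : ℝ) / ((n + D) * n))).card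
        = 2 * (n + D) * n ∧
    ((Finset.univ : Finset (V × V)).filter
      (fun p => p.1 ≠ p.2 ∧ resistance G p.1 p.2 = 2 / (n : ℝ))).card = (n + D) * (n + D - 1)

/-- (COR) Assembly: the combinatorial data exist. -/
def Stmt_Cor : Prop :=
  ∀ (V : Type u) [Fintype V] [DecidableEq V] (G : SimpleGraph V) [DecidableRel G.Adj]
    (n D : ℕ), 2 ≤ n → 2 ≤ D → G.Connected →
    resSpec G = resSpec (completeBipartiteGraph (Fin (n + D)) (Fin n)) →
    ∃ (Q : V → V → ℤ) (T : V → ℤ), Core n D G Q T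

/-- (FIN) The finish: if `Q = a` inside `S`, `|S| = n`, `Q = b` across and `Q = c` outside, then
`G` is complete bipartite. -/
def Stmt_Fin : Prop :=
  ∀ (V : Type u) [Fintype V] [DecidableEq V] (G : SimpleGraph V) [DecidableRel G.Adj]
    (n D : ℕ) (Q : V → V → ℤ) (T : V → ℤ), 2 ≤ n → 2 ≤ D → Core n D G Q T →
    ∀ S : Finset V, S.card = n →
      (∀ u ∈ S, ∀ v ∈ S, u ≠ v → Q u v = 2 * n) →
      (∀ u ∈ S, ∀ v, v ∉ S → Q u v = 2 * n + D - 1) →
      (∀ u, u ∉ S → ∀ v, v ∉ S → u ≠ v → Q u v = 2 * n + 2 * D) →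
      Nonempty (G ≃g completeBipartiteGraph (Fin (n + D)) (Fin n))

/-- (TWO) The case `D = 2`. -/
def Stmt_Two : Prop :=
  ∀ (V : Type u) [Fintype V] [DecidableEq V] (G : SimpleGraph V) [DecidableRel G.Adj]
    (n : ℕ) (Q : V → V → ℤ) (T : V → ℤ), 2 ≤ n → Core n 2 G Q T →
      Nonempty (G ≃g completeBipartiteGraph (Fin (n + 2)) (Fin n))

/-- (LARGE) The case `D (D - 1) > 2 n`. -/
def Stmt_Large : Prop :=
  ∀ (V : Type u) [Fintype V] [DecidableEq V] (G : SimpleGraph V) [DecidableRel G.Adj]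
    (n D : ℕ) (Q : V → V → ℤ) (T : V → ℤ), 2 ≤ n → 2 ≤ D → 2 * n < D * (D - 1) →
      Core n D G Q T → Nonempty (G ≃g completeBipartiteGraph (Fin (n + D)) (Fin n))

end Pool.Agent.ResSpec
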