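import Pool.Agent.ResSpec.Basic

/-! # The finish: module FIN -/

set_option linter.unusedSectionVars false
set_option linter.unusedVariables false

namespace Pool.Agent.ResSpec

open Finset

universe u

namespace FinMod

variable {V : Type u} [Fintype V] [DecidableEq V] {G : SimpleGraph V} [DecidableRel G.Adj]
  {n D : ℕ} {Q : V → V → ℤ} {T : V → ℤ}

/-- the isomorphism with the complete bipartite graph -/
theorem iso_of_adj (hcard : Fintype.card V = 2 * n + D) (S : Finset V) (hS : S.card = n)
    (hadj : ∀ u v, G.Adj u v ↔ ((u ∈ S ∧ v ∉ S) ∨ (u ∉ S ∧ v ∈ S))) :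
    Nonempty (G ≃g completeBipartiteGraph (Fin (n + D)) (Fin n)) := by
  have c1 : Fintype.card {a : V // a ∈ S} = n := by simp [hS]
  have c2 : Fintype.card {a : V // ¬ a ∈ S} = n + D := by
    rw [Fintype.card_subtype_compl, hcard, c1]; omega
  let e1 : {a : V // a ∈ S} ≃ Fin n := Fintype.equivFinOfCardEq c1
  let e2 : {a : V // ¬ a ∈ S} ≃ Fin (n + D) := Fintype.equivFinOfCardEq c2
  let e : V ≃ Fin (n + D) ⊕ Fin n :=
    (Equiv.sumCompl (fun a : V => a ∈ S)).symm.trans
      ((Equiv.sumCongr e1 e2).trans (Equiv.sumComm _ _))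
  have he1 : ∀ u : V, u ∈ S → ∃ j : Fin n, e u = Sum.inr j := by
    intro u hu
    refine ⟨e1 ⟨u, hu⟩, ?_⟩
    simp [e, Equiv.sumCompl_symm_apply_of_pos (p := fun a : V => a ∈ S) hu]
  have he2 : ∀ u : V, u ∉ S → ∃ j : Fin (n + D), e u = Sum.inl j := by
    intro u hu
    refine ⟨e2 ⟨u, hu⟩, ?_⟩
    simp [e, Equiv.sumCompl_symm_apply_of_neg (p := fun a : V => a ∈ S) hu]
  refine ⟨⟨e, ?_⟩⟩
  intro u v
  rw [hadj u v]
  by_cases hu : u ∈ S <;> by_cases hv : v ∈ S
  · obtain ⟨i, hi⟩ := he1 u hu
    obtain ⟨j, hj⟩ := he1 v hv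
    rw [hi, hj]; simp [hu, hv]
  · obtain ⟨i, hi⟩ := he1 u hu
    obtain ⟨j, hj⟩ := he2 v hv
    rw [hi, hj]; simp [hu, hv]
  · obtain ⟨i, hi⟩ := he2 u hu
    obtain ⟨j, hj⟩ := he1 v hv
    rw [hi, hj]; simp [hu, hv]
  · obtain ⟨i, hi⟩ := he2 u hu
    obtain ⟨j, hj⟩ := he2 v hv
    rw [hi, hj]; simp [hu, hv]

theorem main (hn : 2 ≤ n) (hD : 2 ≤ D) (C : Core n D G Q T) (S : Finset V) (hS : S.card = n)
    (hA : ∀ u ∈ S, ∀ v ∈ S, u ≠ v → Q u v = 2 * n)
    (hB : ∀ u ∈ S, ∀ v, v ∉ S → Q u v = 2 * n + D - 1)
    (hC : ∀ u, u ∉ S → ∀ v, v ∉ S → u ≠ v → Q u v = 2 * n + 2 * D) :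
    Nonempty (G ≃g completeBipartiteGraph (Fin (n + D)) (Fin n)) := by
  have h4 : (2 : ℤ) ≤ D := by exact_mod_cast hD
  have h5 : (2 : ℤ) ≤ n := by exact_mod_cast hn
  have hSc : (Sᶜ).card = n + D := by
    rw [Finset.card_compl, C.card, hS]; omega
  -- step 1
  have step1 : ∀ u ∈ S, ∀ y, y ∉ S → (2 * (n + D) : ℤ) * ad G u y =
      T u + (D + 1) * (((G.neighborFinset u).filter (fun w => w ∉ S)).card : ℤ) := by
    intro u hu y hy
    have huy : u ≠ y := by rintro rfl; exact hy hu
    have h2 := C.L2 hn hD huy (hB u hu y hy)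
    have hal : al G Q n u y = 0 := by
      apply al_zero_of
      intro w _ hQ
      by_cases hw : w ∈ S
      · rw [hB w hw y hy] at hQ; linarith
      · by_cases hwy : w = y
        · subst hwy; rw [C.diag] at hQ; linarith
        · rw [hC w hw y hy hwy] at hQ; linarith
    have hnb : nb G Q (2 * n + 2 * D) u y =
        ((G.neighborFinset u).filter (fun w => w ∉ S)).erase y := by
      ext w
      rw [mem_nb]
      simp only [mem_erase, mem_filter, SimpleGraph.mem_neighborFinset]
      constructor
      · rintro ⟨h1, h3⟩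
        refine ⟨?_, h1, ?_⟩
        · rintro rfl; rw [C.diag] at h3; linarith
        · intro hw; rw [hB w hw y hy] at h3; linarith
      · rintro ⟨h1, h3, h6⟩
        exact ⟨h3, hC w h6 y hy h1⟩
    have hga : ga G Q n D u y =
        (((G.neighborFinset u).filter (fun w => w ∉ S)).card : ℤ) - ad G u y := by
      unfold ga
      rw [hnb]
      by_cases h : G.Adj u y
      · have hmem : y ∈ (G.neighborFinset u).filter (fun w => w ∉ S) := by
          simp [h, hy]
        have := Finset.card_erase_add_one hmem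
        rw [ad_of_adj h]
        push_cast [← this]
        ring
      · have hmem : y ∉ (G.neighborFinset u).filter (fun w => w ∉ S) := by
          simp [h]
        rw [Finset.erase_eq_of_notMem hmem, ad_of_not h]; ring
    rw [hal, hga] at h2
    linarith
  -- step 2
  have step2 : ∀ u ∈ S, ∀ y, y ∉ S → G.Adj u y := by
    intro u hu y hy
    by_contra hna
    have e0 := step1 u hu y hy
    rw [ad_of_not hna] at e0
    have hno : ∀ z, z ∉ S → ¬ G.Adj u z := by
      intro z hz hz2
      have e1 := step1 u hu z hz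
      rw [ad_of_adj hz2] at e1
      have : (0 : ℤ) < n + D := by linarith
      linarith
    have hd0 : (G.neighborFinset u).filter (fun w => w ∉ S) = ∅ := by
      rw [Finset.filter_eq_empty_iff]
      intro z hz hzS
      exact hno z hzS (by simpa using hz)
    rw [hd0] at e0
    simp only [card_empty, Nat.cast_zero, mul_zero, add_zero] at e0
    have hsub : ∀ w, G.Adj u w → w ∈ S := by
      intro w hw
      by_contra hwS
      exact hno w hwS hw
    have hbe : be G Q n D u u = 0 := by
      apply be_zero_of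
      intro w hw hQ
      rw [hA w (hsub w hw) u hu hw.ne'] at hQ; linarith
    have hga : ga G Q n D u u = 0 := by
      apply ga_zero_of
      intro w hw hQ
      rw [hA w (hsub w hw) u hu hw.ne'] at hQ; linarith
    have hF := C.F0 hn hD u
    have hdeg := C.deg_split_self hn hD u
    rw [hbe, hga] at hF hdeg
    have hle : G.degree u ≤ n - 1 := by
      have : G.neighborFinset u ⊆ S.erase u := by
        intro w hw
        rw [SimpleGraph.mem_neighborFinset] at hw
        exact Finset.mem_erase.2 ⟨hw.ne', hsub w hw⟩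
      have h := Finset.card_le_card this
      rw [Finset.card_erase_of_mem hu, hS] at h
      simpa using h
    have hle' : (G.degree u : ℤ) ≤ n - 1 := by
      have : (G.degree u : ℤ) ≤ ((n - 1 : ℕ) : ℤ) := by exact_mod_cast hle
      push_cast [Nat.cast_sub (show 1 ≤ n by omega)] at this
      exact this
    have : 2 * (n : ℤ) * (n + D - G.degree u) = 0 := by
      rw [hdeg]; linarith
    have h7 : 0 < 2 * (n : ℤ) * (n + D - G.degree u) := by
      apply mul_pos <;> linarith
    linarith
  -- step 3
  have step3 : ∀ u ∈ S, ∀ v ∈ S, ¬ G.Adj u v := by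
    intro u hu v hv huv
    obtain ⟨y, hy⟩ : ∃ y, y ∉ S := by
      have : (Sᶜ).Nonempty := by rw [← Finset.card_pos, hSc]; omega
      obtain ⟨y, hy⟩ := this
      exact ⟨y, by simpa using hy⟩
    have hd : (G.neighborFinset u).filter (fun w => w ∉ S) = Sᶜ := by
      ext w
      simp only [mem_filter, SimpleGraph.mem_neighborFinset, mem_compl]
      constructor
      · exact fun h => h.2
      · exact fun h => ⟨step2 u hu w h, h⟩
    have e0 := step1 u hu y hy
    rw [ad_of_adj (step2 u hu y hy), hd, hSc] at e0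
    push_cast at e0
    have hga : ga G Q n D u u = 0 := by
      apply ga_zero_of
      intro w hw hQ
      by_cases hwS : w ∈ S
      · rw [hA w hwS u hu hw.ne'] at hQ; linarith
      · rw [C.symm, hB u hu w hwS] at hQ; linarith
    have hbe : be G Q n D u u = n + D := by
      unfold be
      have : nb G Q (2 * n + D - 1) u u = Sᶜ := by
        ext w
        rw [mem_nb, mem_compl]
        constructor
        · rintro ⟨h1, h2⟩ hwS
          rw [hA w hwS u hu h1.ne'] at h2; linarith
        · intro h
          exact ⟨step2 u hu w h, by rw [C.symm]; exact hB u hu w h⟩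
      rw [this, hSc]; push_cast; ring
    have hF := C.F0 hn hD u
    rw [hbe, hga] at hF
    have hz : 2 * (n : ℤ) * al G Q n u u = 0 := by
      have : 2 * (n : ℤ) * al G Q n u u =
        2 * (n + D) * n - (2 * n + D - 1) * (n + D) - T u := by linarith
      rw [this]
      have hT : T u = 2 * (n + D) - (D + 1) * (n + D) := by linarith
      rw [hT]; ring
    have hpos : 0 < al G Q n u u := by
      rw [al_pos_iff]
      exact ⟨v, huv, by rw [C.symm]; exact hA u hu v hv huv.ne⟩
    have : 0 < 2 * (n : ℤ) * al G Q n u u := by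
      apply mul_pos _ hpos; linarith
    linarith
  -- step 4
  have step4 : ∀ y, y ∉ S → ∀ z, z ∉ S → ¬ G.Adj y z := by
    intro y hy z hz hyz
    have h1 := C.L1 hn hD hyz.ne (hC y hy z hz hyz.ne)
    have hbe1 : (n : ℤ) ≤ be G Q n D y z := by
      unfold be
      have : S ⊆ nb G Q (2 * n + D - 1) y z := by
        intro w hw
        rw [mem_nb]
        exact ⟨(step2 w hw y hy).symm, hB w hw z hz⟩
      have := Finset.card_le_card this
      rw [hS] at this
      exact_mod_cast this
    have hbe2 : be G Q n D y y = n := by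
      unfold be
      have : nb G Q (2 * n + D - 1) y y = S := by
        ext w
        rw [mem_nb]
        constructor
        · rintro ⟨h1, h2⟩
          by_contra hwS
          rw [hC w hwS y hy h1.ne'] at h2; linarith
        · intro hw
          exact ⟨(step2 w hw y hy).symm, hB w hw y hy⟩
      rw [this, hS]
    have hga : 0 < ga G Q n D y y := by
      rw [ga_pos_iff]
      exact ⟨z, hyz, by rw [C.symm]; exact hC y hy z hz hyz.ne⟩
    have hal : al G Q n y y = 0 := by
      apply al_zero_of
      intro w hw hQ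
      by_cases hwS : w ∈ S
      · rw [hB w hwS y hy] at hQ; linarith
      · rw [hC w hwS y hy hw.ne'] at hQ; linarith
    have hF := C.F0 hn hD y
    rw [hbe2, hal] at hF
    rw [ad_of_adj hyz] at h1
    have h6 : ((D : ℤ) + 1) * n ≤ (D + 1) * be G Q n D y z :=
      mul_le_mul_of_nonneg_left hbe1 (by linarith)
    have h7 : 0 ≤ 2 * (D : ℤ) * al G Q n y z :=
      mul_nonneg (by linarith) (al_nonneg _ _)
    have h8 : 0 ≤ (2 * (n : ℤ) + 2 * D) * ga G Q n D y y :=
      mul_nonneg (by linarith) hga.le
    have h9 : T y = (D + 1) * n - (2 * n + 2 * D) * ga G Q n D y y := by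
      rw [hF]; ring
    linarith
  apply iso_of_adj C.card S hS
  intro u v
  constructor
  · intro h
    by_cases hu : u ∈ S <;> by_cases hv : v ∈ S
    · exact absurd h (step3 u hu v hv)
    · exact Or.inl ⟨hu, hv⟩
    · exact Or.inr ⟨hu, hv⟩
    · exact absurd h (step4 u hu v hv)
  · rintro (⟨h1, h2⟩ | ⟨h1, h2⟩)
    · exact step2 u h1 v h2
    · exact (step2 v h2 u h1).symm

end FinMod

theorem fin_proof : Stmt_Fin.{u} := by
  intro V _ _ G _ n D Q T hn hD C S hS hA hB hC
  exact FinMod.main hn hD C S hS hA hB hC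

end Pool.Agent.ResSpec
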