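import Pool.Agent.ResSpec.Defs

/-! # Analytic part: modules LAP, POT, SUM -/

set_option linter.unusedSectionVars false
set_option linter.unusedSimpArgs false

namespace Pool.Agent.ResSpec

open Finset Matrix

universe u

namespace LapMod

variable {V : Type u} [Fintype V] [DecidableEq V] (G : SimpleGraph V) [DecidableRel G.Adj]

theorem green_eq : green G = (G.lapMatrix ℝ + avgMat V)⁻¹ := by
  unfold green
  have h : (fun a b => Classical.propDecidable (G.Adj a b)) = ‹DecidableRel G.Adj› :=
    Subsingleton.elim _ _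
  rw [h]

theorem avg_mulVec (x : V → ℝ) : avgMat V *ᵥ x = fun _ => (∑ v, x v) / Fintype.card V := by
  ext i
  simp [avgMat, Matrix.mulVec, dotProduct, Finset.mul_sum, div_eq_inv_mul, Finset.sum_div]

theorem lap_quad (x : V → ℝ) : 0 ≤ x ⬝ᵥ (G.lapMatrix ℝ *ᵥ x) := by
  have := (SimpleGraph.posSemidef_lapMatrix ℝ G).dotProduct_mulVec_nonneg x
  simpa using this

theorem lap_symm_dot (x y : V → ℝ) :
    x ⬝ᵥ (G.lapMatrix ℝ *ᵥ y) = (G.lapMatrix ℝ *ᵥ x) ⬝ᵥ y := by
  rw [Matrix.dotProduct_mulVec, ← Matrix.mulVec_transpose, (G.isSymm_lapMatrix (R := ℝ)).eq]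

theorem sum_lap (x : V → ℝ) : ∑ u, (G.lapMatrix ℝ *ᵥ x) u = 0 := by
  have h := lap_symm_dot G (fun _ => (1 : ℝ)) x
  have h2 : G.lapMatrix ℝ *ᵥ (fun _ => (1 : ℝ)) = 0 := G.lapMatrix_mulVec_const_eq_zero (R := ℝ)
  rw [h2, zero_dotProduct] at h
  simpa [dotProduct] using h

variable {G}

theorem inj (hc : G.Connected) {x : V → ℝ} (h : (G.lapMatrix ℝ + avgMat V) *ᵥ x = 0) : x = 0 := by
  classical
  have : Nonempty V := hc.nonempty
  have hcard : (0 : ℝ) < Fintype.card V := by exact_mod_cast Fintype.card_pos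
  rw [Matrix.add_mulVec, avg_mulVec] at h
  -- sum over all vertices
  have hs : ∑ v, x v = 0 := by
    have h1 := congrArg (fun f : V → ℝ => ∑ u, f u) h
    simp only [Pi.add_apply, Finset.sum_add_distrib, sum_lap, zero_add, Finset.sum_const,
      Pi.zero_apply, Finset.sum_const_zero, Finset.card_univ, nsmul_eq_mul] at h1
    rw [mul_div_cancel₀ _ hcard.ne', mul_zero] at h1
    exact h1
  rw [hs] at h
  have hL : G.lapMatrix ℝ *ᵥ x = 0 := by
    have : (fun _ : V => (0 : ℝ) / (Fintype.card V : ℝ)) = 0 := by ext; simp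
    rw [this, add_zero] at h
    exact h
  rw [SimpleGraph.lapMatrix_mulVec_eq_zero_iff_forall_reachable] at hL
  obtain ⟨v₀⟩ := this
  have hconst : ∀ v, x v = x v₀ := fun v => hL v v₀ (hc.preconnected v v₀)
  have h0 : x v₀ = 0 := by
    rw [Finset.sum_congr rfl (fun v _ => hconst v)] at hs
    simp only [Finset.sum_const, Finset.card_univ, nsmul_eq_mul] at hs
    rcases mul_eq_zero.1 hs with h1 | h1
    · linarith
    · exact h1
  ext v
  rw [hconst v, h0]; rfl

theorem isUnit (hc : G.Connected) : IsUnit (G.lapMatrix ℝ + avgMat V) := by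
  rw [← Matrix.mulVec_injective_iff_isUnit]
  intro x y hxy
  have : (G.lapMatrix ℝ + avgMat V) *ᵥ (x - y) = 0 := by
    rw [Matrix.mulVec_sub]; exact sub_eq_zero.2 hxy
  exact sub_eq_zero.1 (inj hc this)

theorem avg_mul_lap : avgMat V * G.lapMatrix ℝ = 0 := by
  ext i j
  rw [Matrix.mul_apply]
  have h1 : ∑ k, G.lapMatrix ℝ k j = 0 := by
    have h := sum_lap G (Pi.single j 1)
    simpa [Matrix.mulVec_single_one, Matrix.col_apply] using h
  simp only [avgMat, Matrix.of_apply, Matrix.zero_apply]
  rw [← Finset.mul_sum, h1, mul_zero]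

theorem lap_mul_avg : G.lapMatrix ℝ * avgMat V = 0 := by
  have h := congrArg Matrix.transpose (avg_mul_lap (G := G))
  rw [Matrix.transpose_mul, (G.isSymm_lapMatrix (R := ℝ)).eq] at h
  have h2 : (avgMat V)ᵀ = avgMat V := by
    ext i j; simp [avgMat]
  rw [h2] at h
  simpa using h

theorem avg_mul_avg [Nonempty V] : avgMat V * avgMat V = avgMat V := by
  have hcard : (Fintype.card V : ℝ) ≠ 0 := by exact_mod_cast Fintype.card_ne_zero
  ext i j
  rw [Matrix.mul_apply]
  simp only [avgMat, Matrix.of_apply, Finset.sum_const, Finset.card_univ, nsmul_eq_mul]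
  field_simp

theorem avg_symm : (avgMat V)ᵀ = avgMat V := by
  ext i j; simp [avgMat]

theorem green_mul (hc : G.Connected) : green G * (G.lapMatrix ℝ + avgMat V) = 1 := by
  rw [green_eq]
  exact Matrix.nonsing_inv_mul _ ((Matrix.isUnit_iff_isUnit_det _).1 (isUnit hc))

theorem mul_green (hc : G.Connected) : (G.lapMatrix ℝ + avgMat V) * green G = 1 := by
  rw [green_eq]
  exact Matrix.mul_nonsing_inv _ ((Matrix.isUnit_iff_isUnit_det _).1 (isUnit hc))

theorem green_avg (hc : G.Connected) : green G * avgMat V = avgMat V := by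
  have : Nonempty V := hc.nonempty
  have h1 : (G.lapMatrix ℝ + avgMat V) * avgMat V = avgMat V := by
    rw [Matrix.add_mul, lap_mul_avg, zero_add, avg_mul_avg]
  calc green G * avgMat V = green G * ((G.lapMatrix ℝ + avgMat V) * avgMat V) := by rw [h1]
    _ = (green G * (G.lapMatrix ℝ + avgMat V)) * avgMat V := by rw [Matrix.mul_assoc]
    _ = avgMat V := by rw [green_mul hc, Matrix.one_mul]

theorem avg_green (hc : G.Connected) : avgMat V * green G = avgMat V := by
  have : Nonempty V := hc.nonempty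
  have h1 : avgMat V * (G.lapMatrix ℝ + avgMat V) = avgMat V := by
    rw [Matrix.mul_add, avg_mul_lap, zero_add, avg_mul_avg]
  calc avgMat V * green G = (avgMat V * (G.lapMatrix ℝ + avgMat V)) * green G := by rw [h1]
    _ = avgMat V * ((G.lapMatrix ℝ + avgMat V) * green G) := by rw [Matrix.mul_assoc]
    _ = avgMat V := by rw [mul_green hc, Matrix.mul_one]

theorem lap_green (hc : G.Connected) : G.lapMatrix ℝ * green G = 1 - avgMat V := by
  have h := mul_green hc
  rw [Matrix.add_mul, avg_green hc] at h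
  exact eq_sub_of_add_eq h

theorem green_lap (hc : G.Connected) : green G * G.lapMatrix ℝ = 1 - avgMat V := by
  have h := green_mul hc
  rw [Matrix.mul_add, green_avg hc] at h
  exact eq_sub_of_add_eq h

theorem green_symm : (green G)ᵀ = green G := by
  rw [green_eq, Matrix.transpose_nonsing_inv, Matrix.transpose_add,
    (G.isSymm_lapMatrix (R := ℝ)).eq, avg_symm]

/-! ### The Penrose identities -/

theorem pinv_mul (hc : G.Connected) : pinvLap G * G.lapMatrix ℝ = 1 - avgMat V := by
  rw [pinvLap, Matrix.sub_mul, green_lap hc, avg_mul_lap, sub_zero]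

theorem mul_pinv (hc : G.Connected) : G.lapMatrix ℝ * pinvLap G = 1 - avgMat V := by
  rw [pinvLap, Matrix.mul_sub, lap_green hc, lap_mul_avg, sub_zero]

/-- `pinvLap G` is the Moore-Penrose inverse of the Laplacian of a connected graph. -/
theorem penrose (hc : G.Connected) :
    G.lapMatrix ℝ * pinvLap G * G.lapMatrix ℝ = G.lapMatrix ℝ ∧
    pinvLap G * G.lapMatrix ℝ * pinvLap G = pinvLap G ∧
    (G.lapMatrix ℝ * pinvLap G)ᵀ = G.lapMatrix ℝ * pinvLap G ∧
    (pinvLap G * G.lapMatrix ℝ)ᵀ = pinvLap G * G.lapMatrix ℝ := by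
  have : Nonempty V := hc.nonempty
  refine ⟨?_, ?_, ?_, ?_⟩
  · rw [mul_pinv hc, Matrix.sub_mul, Matrix.one_mul, avg_mul_lap, sub_zero]
  · rw [pinv_mul hc, Matrix.sub_mul, Matrix.one_mul]
    have : avgMat V * pinvLap G = 0 := by
      rw [pinvLap, Matrix.mul_sub, avg_green hc, avg_mul_avg, sub_self]
    rw [this, sub_zero]
  · rw [mul_pinv hc, Matrix.transpose_sub, Matrix.transpose_one, avg_symm]
  · rw [pinv_mul hc, Matrix.transpose_sub, Matrix.transpose_one, avg_symm]

/-! ### Resistance in terms of `green` -/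

theorem avg_dipole (u v : V) :
    avgMat V *ᵥ (Pi.single u 1 - Pi.single v 1 : V → ℝ) = 0 := by
  rw [avg_mulVec]
  ext i
  simp

theorem res_green (u v : V) : resistance G u v =
    (Pi.single u 1 - Pi.single v 1) ⬝ᵥ (green G *ᵥ (Pi.single u 1 - Pi.single v 1)) := by
  unfold resistance pinvLap
  rw [Matrix.sub_mulVec, avg_dipole, sub_zero]

theorem res_eq (u v : V) :
    resistance G u v = green G u u + green G v v - 2 * green G u v := by
  rw [res_green]
  have hs : green G v u = green G u v := by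
    have := congrFun (congrFun (green_symm (G := G)) u) v
    simpa using this
  simp only [Matrix.mulVec_sub, Matrix.mulVec_single_one, sub_dotProduct, dotProduct_sub,
    single_one_dotProduct, Matrix.col_apply, hs]
  ring

theorem pot (hc : G.Connected) (u v : V) (φ : V → ℝ)
    (h : G.lapMatrix ℝ *ᵥ φ = Pi.single u 1 - Pi.single v 1) :
    resistance G u v = φ u - φ v := by
  rw [res_green, ← h, Matrix.mulVec_mulVec, green_lap hc, Matrix.sub_mulVec, Matrix.one_mulVec,
    dotProduct_sub, h, avg_mulVec]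
  have h1 : (Pi.single u 1 - Pi.single v 1 : V → ℝ) ⬝ᵥ
      (fun _ => (∑ v, φ v) / Fintype.card V) = 0 := by
    rw [sub_dotProduct, single_one_dotProduct, single_one_dotProduct, sub_self]
  rw [h1, sub_dotProduct, single_one_dotProduct, single_one_dotProduct, sub_zero]

/-! ### The sum rule -/

theorem lap_sum (u : V) (f : V → ℝ) :
    ∑ w, G.lapMatrix ℝ u w * f w = ∑ w ∈ G.neighborFinset u, (f u - f w) := by
  have := G.lapMatrix_mulVec_apply (R := ℝ) u f
  rw [Matrix.mulVec, dotProduct] at this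
  rw [this, Finset.sum_sub_distrib, Finset.sum_const, SimpleGraph.card_neighborFinset_eq_degree,
    nsmul_eq_mul]

theorem lap_res (hc : G.Connected) (u v : V) :
    ∑ w ∈ G.neighborFinset u, (resistance G u v - resistance G w v) =
      (∑ w, G.lapMatrix ℝ u w * green G w w + 2 / Fintype.card V) -
        2 * (if u = v then 1 else 0) := by
  rw [← lap_sum u (fun w => resistance G w v)]
  have h1 : ∀ w, G.lapMatrix ℝ u w * resistance G w v = G.lapMatrix ℝ u w * green G w w +
      green G v v * G.lapMatrix ℝ u w - 2 * (G.lapMatrix ℝ u w * green G w v) := by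
    intro w; rw [res_eq]; ring
  rw [Finset.sum_congr rfl (fun w _ => h1 w), Finset.sum_sub_distrib, Finset.sum_add_distrib,
    ← Finset.mul_sum, ← Finset.mul_sum]
  have h2 : ∑ w, G.lapMatrix ℝ u w = 0 := by
    have := lap_sum (G := G) u (fun _ => (1 : ℝ))
    simpa using this
  have h3 : ∑ w, G.lapMatrix ℝ u w * green G w v = (if u = v then 1 else 0) -
      1 / Fintype.card V := by
    have := congrFun (congrFun (lap_green hc) u) v
    rw [Matrix.mul_apply] at this
    rw [this, Matrix.sub_apply, Matrix.one_apply]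
    simp [avgMat]
  rw [h2, h3]
  ring

theorem tau_eq (hc : G.Connected) (u : V) :
    2 - ∑ w ∈ G.neighborFinset u, resistance G u w =
      ∑ w, G.lapMatrix ℝ u w * green G w w + 2 / Fintype.card V := by
  have h := lap_res hc u u
  rw [if_pos rfl] at h
  have h0 : resistance G u u = 0 := by rw [res_eq]; ring
  rw [Finset.sum_sub_distrib, h0, Finset.sum_const_zero, zero_sub] at h
  have h1 : ∑ w ∈ G.neighborFinset u, resistance G u w =
      ∑ w ∈ G.neighborFinset u, resistance G w u :=
    Finset.sum_congr rfl fun w _ => resistance_comm G u w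
  rw [h1]
  linarith

theorem sum_tau (hc : G.Connected) :
    ∑ u, (2 - ∑ w ∈ G.neighborFinset u, resistance G u w) = 2 := by
  have : Nonempty V := hc.nonempty
  have hcard : (Fintype.card V : ℝ) ≠ 0 := by exact_mod_cast Fintype.card_ne_zero
  rw [Finset.sum_congr rfl (fun u _ => tau_eq hc u), Finset.sum_add_distrib, Finset.sum_comm]
  have h1 : ∀ w, ∑ u, G.lapMatrix ℝ u w * green G w w = 0 := by
    intro w
    rw [← Finset.sum_mul]
    have h := sum_lap G (Pi.single w 1)
    have h2 : ∑ k, G.lapMatrix ℝ k w = 0 := by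
      simpa [Matrix.mulVec_single_one, Matrix.col_apply] using h
    rw [h2, zero_mul]
  rw [Finset.sum_eq_zero (fun w _ => h1 w), Finset.sum_const, Finset.card_univ, nsmul_eq_mul]
  field_simp
  ring

/-! ### Cauchy-Schwarz -/

theorem lap_dipole {u v : V} (huv : u ≠ v) :
    (Pi.single u 1 - Pi.single v 1 : V → ℝ) ⬝ᵥ
      (G.lapMatrix ℝ *ᵥ (Pi.single u 1 - Pi.single v 1)) =
      G.degree u + G.degree v + 2 * (if G.Adj u v then 1 else 0) := by
  have hs : G.lapMatrix ℝ v u = G.lapMatrix ℝ u v := by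
    have := congrFun (congrFun (G.isSymm_lapMatrix (R := ℝ)).eq u) v
    simpa using this
  have h1 : G.lapMatrix ℝ u v = - (if G.Adj u v then 1 else 0) := by
    simp [SimpleGraph.lapMatrix, SimpleGraph.degMatrix, huv, SimpleGraph.adjMatrix_apply]
  have h2 : ∀ x, G.lapMatrix ℝ x x = G.degree x := by
    intro x
    simp [SimpleGraph.lapMatrix, SimpleGraph.degMatrix, SimpleGraph.adjMatrix_apply]
  simp only [Matrix.mulVec_sub, Matrix.mulVec_single_one, sub_dotProduct, dotProduct_sub,
    single_one_dotProduct, Matrix.col_apply, hs, h1, h2]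
  ring

theorem cs (hc : G.Connected) {u v : V} (huv : u ≠ v) :
    4 ≤ resistance G u v * (G.degree u + G.degree v + 2 * (if G.Adj u v then 1 else 0)) := by
  set x : V → ℝ := Pi.single u 1 - Pi.single v 1 with hx
  set φ : V → ℝ := green G *ᵥ x with hφ
  have hLφ : G.lapMatrix ℝ *ᵥ φ = x := by
    rw [hφ, Matrix.mulVec_mulVec, lap_green hc, Matrix.sub_mulVec, Matrix.one_mulVec, hx,
      avg_dipole, sub_zero]
  have hR : resistance G u v = x ⬝ᵥ φ := by rw [res_green]
  set s : ℝ := G.degree u + G.degree v + 2 * (if G.Adj u v then 1 else 0) with hs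
  have hxx : x ⬝ᵥ x = 2 := by
    rw [hx]
    simp [sub_dotProduct, huv, huv.symm]
    norm_num
  have hxLx : x ⬝ᵥ (G.lapMatrix ℝ *ᵥ x) = s := lap_dipole huv
  have hquad : ∀ t : ℝ, 0 ≤ resistance G u v - 4 * t + t ^ 2 * s := by
    intro t
    have h := lap_quad G (φ - t • x)
    rw [Matrix.mulVec_sub, Matrix.mulVec_smul, hLφ, sub_dotProduct, smul_dotProduct] at h
    rw [dotProduct_sub φ x, dotProduct_sub x x, dotProduct_smul, dotProduct_smul,
      hxx, hxLx] at h
    have h2 : φ ⬝ᵥ (G.lapMatrix ℝ *ᵥ x) = 2 := by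
      rw [lap_symm_dot, hLφ, hxx]
    have h3 : φ ⬝ᵥ x = resistance G u v := by rw [hR, dotProduct_comm]
    rw [h2, h3] at h
    simp only [smul_eq_mul] at h
    nlinarith
  have hs0 : 0 ≤ s := by rw [← hxLx]; exact lap_quad G x
  rcases hs0.eq_or_lt with h0 | h0
  · exfalso
    have h := hquad (resistance G u v / 4 + 1)
    rw [← h0] at h
    linarith
  · have h := hquad (2 / s)
    have h2 : resistance G u v - 4 * (2 / s) + (2 / s) ^ 2 * s = resistance G u v - 4 / s := by
      field_simp
      ring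
    rw [h2] at h
    have h3 : 4 / s ≤ resistance G u v := by linarith
    rw [div_le_iff₀ h0] at h3
    exact h3

end LapMod

theorem lap_proof : Stmt_Lap.{u} := by
  intro V _ _ G _ hc
  exact ⟨LapMod.lap_green hc, LapMod.green_lap hc, LapMod.green_symm⟩

theorem pot_proof : Stmt_Pot.{u} := by
  intro V _ _ G _ hc u v φ h
  exact LapMod.pot hc u v φ h

theorem sum_proof : Stmt_Sum.{u} := by
  intro V _ _ G _ hc
  refine ⟨?_, LapMod.sum_tau hc, fun u v huv => LapMod.cs hc huv⟩
  intro u v huv
  rw [LapMod.tau_eq hc, LapMod.lap_res hc u v, if_neg huv]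
  ring

end Pool.Agent.ResSpec
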