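import Pool.Agent.ResSpec.FinMod

/-! # Module LARGE, part A: structure -/

set_option linter.unusedSectionVars false
set_option linter.unusedVariables false

namespace Pool.Agent.ResSpec

open Finset

universe u

namespace LargeMod

variable {V : Type u} [Fintype V] [DecidableEq V] {G : SimpleGraph V} [DecidableRel G.Adj]
  {n D : ℕ} {Q : V → V → ℤ} {T : V → ℤ}

/-- the `a`-partners of `v` -/
def pa (Q : V → V → ℤ) (n : ℕ) (v : V) : Finset V :=
  univ.filter (fun z => v ≠ z ∧ Q v z = 2 * n)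

theorem mem_pa {v z : V} : z ∈ pa Q n v ↔ v ≠ z ∧ Q v z = 2 * n := by simp [pa]

theorem closed_univ (hc : G.Connected) (P : V → Prop)
    (h : ∀ u v, P u → G.Adj u v → P v) {u : V} (hu : P u) (v : V) : P v := by
  obtain ⟨p⟩ := hc.preconnected u v
  induction p with
  | nil => exact hu
  | cons hadj p ih => exact ih (h _ _ hu hadj)

theorem sum_pa (C : Core n D G Q T) : ∑ v, (pa Q n v).card = n * (n - 1) := by
  rw [← C.cntA, Finset.card_filter, ← Finset.univ_product_univ, Finset.sum_product]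
  refine Finset.sum_congr rfl fun u _ => ?_
  unfold pa
  rw [Finset.card_filter]

/-- too many `a`-pairs -/
theorem too_many (C : Core n D G Q T) (hn : 2 ≤ n) (S : Finset V) (hS : n + 1 ≤ S.card)
    (h : ∀ w ∈ S, n ≤ (pa Q n w).card) : False := by
  have h1 : S.card * n ≤ ∑ v, (pa Q n v).card := by
    calc S.card * n = ∑ w ∈ S, n := by simp
      _ ≤ ∑ w ∈ S, (pa Q n w).card := Finset.sum_le_sum h
      _ ≤ ∑ v, (pa Q n v).card :=
          Finset.sum_le_sum_of_subset_of_nonneg (Finset.subset_univ _) (by simp)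
  rw [sum_pa C] at h1
  have h2 : (n + 1) * n ≤ S.card * n := Nat.mul_le_mul_right _ hS
  have h3 : n * (n - 1) ≤ n * n := Nat.mul_le_mul_left _ (by omega)
  nlinarith

variable (C : Core n D G Q T) (hn : 2 ≤ n) (hD : 2 ≤ D) (hL : 2 * n < D * (D - 1))
include C hn hD

theorem nb_sub_pa {u w : V} : nb G Q (2 * n) u w ⊆ pa Q n w := by
  intro z hz
  rw [mem_nb] at hz
  rw [mem_pa]
  refine ⟨?_, by rw [C.symm]; exact hz.2⟩
  rintro rfl
  have := hz.2
  rw [C.diag] at this
  have : (2 : ℤ) ≤ n := by exact_mod_cast hn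
  linarith

theorem hL' : (hL : 2 * n < D * (D - 1)) → 2 * (n : ℤ) < D * (D - 1) := by
  intro hL
  have : ((2 * n : ℕ) : ℤ) < ((D * (D - 1) : ℕ) : ℤ) := by exact_mod_cast hL
  push_cast [Nat.cast_sub (show 1 ≤ D by omega)] at this
  exact this

theorem Teq {u : V} (hT : T u ≤ 2 * n) :
    T u = 2 * n * (n + D - G.degree u) - (D - 1) * be G Q n D u u := by
  have hF := C.F0 hn hD u
  have hd := C.deg_split_self hn hD u
  rw [C.ga_self_zero hn hD hT] at hF hd
  rw [hd, hF]; ring

include hL

theorem S1a {u : V} (h0 : 0 ≤ T u) (hT : T u ≤ 2 * n) (hd : (G.degree u : ℤ) = n + D) :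
    False := by
  have h4 : (2 : ℤ) ≤ D := by exact_mod_cast hD
  have h5 : (2 : ℤ) ≤ n := by exact_mod_cast hn
  have hL := hL' C hn hD hL
  have hTe := Teq C hn hD hT
  have hbn := be_nonneg (G := G) (Q := Q) (n := n) (D := D) u u
  rw [hd] at hTe
  have hbe : be G Q n D u u = 0 := by
    by_contra hne
    have : 0 < be G Q n D u u := lt_of_le_of_ne hbn (Ne.symm hne)
    have : 0 < ((D : ℤ) - 1) * be G Q n D u u := mul_pos (by linarith) this
    linarith
  have hT0 : T u = 0 := by rw [hTe, hbe]; ring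
  have hga := C.ga_self_zero hn hD hT
  have hall : ∀ w, G.Adj u w → Q u w = 2 * n := by
    intro w hw
    rcases C.vals u w hw.ne with h | h | h
    · exact h
    · exfalso
      have : 0 < be G Q n D u u := be_pos_iff.2 ⟨w, hw, by rw [C.symm]; exact h⟩
      linarith
    · exact absurd h (C.not_c_of_adj hn hD hw hT)
  apply too_many C hn (G.neighborFinset u)
  · rw [SimpleGraph.card_neighborFinset_eq_degree]; omega
  · intro w hw
    rw [SimpleGraph.mem_neighborFinset] at hw
    have h3 := C.L3 hn hD hw.ne (hall w hw)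
    have h6 := C.deg_split hn hD u w
    rw [ad_of_adj hw] at h3 h6
    have hb := be_nonneg (G := G) (Q := Q) (n := n) (D := D) u w
    have hg := ga_nonneg (G := G) (Q := Q) (n := n) (D := D) u w
    have h7 : be G Q n D u w + ga G Q n D u w < D := by
      by_contra hcon
      push Not at hcon
      nlinarith
    have h8 : (n : ℤ) ≤ al G Q n u w := by linarith
    have h9 := Finset.card_le_card (nb_sub_pa C hn hD (u := u) (w := w))
    unfold al at h8
    have : n ≤ (nb G Q (2 * n) u w).card := by exact_mod_cast h8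
    exact this.trans h9

theorem S1b {u : V} (h0 : 0 ≤ T u) (hT : T u ≤ 2 * n) (hd : (G.degree u : ℤ) = n + D - 1) :
    False := by
  have h4 : (2 : ℤ) ≤ D := by exact_mod_cast hD
  have h5 : (2 : ℤ) ≤ n := by exact_mod_cast hn
  have hL := hL' C hn hD hL
  have hTe := Teq C hn hD hT
  have hbn := be_nonneg (G := G) (Q := Q) (n := n) (D := D) u u
  have hga := C.ga_self_zero hn hD hT
  have hds := C.deg_split_self hn hD u
  rw [hd] at hTe hds
  rw [hga] at hds
  have hbe : be G Q n D u u < D := by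
    by_contra hcon
    push Not at hcon
    nlinarith
  have hal : (n : ℤ) ≤ al G Q n u u := by linarith
  have hun : u ∉ nb G Q (2 * n) u u := by
    rw [mem_nb]; simp
  have haln : n ≤ (nb G Q (2 * n) u u).card := by
    unfold al at hal; exact_mod_cast hal
  apply too_many C hn (insert u (nb G Q (2 * n) u u))
  · rw [Finset.card_insert_of_notMem hun]; omega
  · intro w hw
    rw [Finset.mem_insert] at hw
    rcases hw with rfl | hw
    · exact haln.trans (Finset.card_le_card (nb_sub_pa C hn hD))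
    · rw [mem_nb] at hw
      obtain ⟨hadj, hQ⟩ := hw
      have hQ' : Q u w = 2 * n := by rw [C.symm]; exact hQ
      have h3 := C.L3 hn hD hadj.ne hQ'
      have h6 := C.deg_split hn hD u w
      rw [ad_of_adj hadj] at h3 h6
      rw [hd] at h6
      have hb := be_nonneg (G := G) (Q := Q) (n := n) (D := D) u w
      have hg := ga_nonneg (G := G) (Q := Q) (n := n) (D := D) u w
      have h7 : be G Q n D u w + ga G Q n D u w ≤ be G Q n D u u := by
        by_contra hcon
        push Not at hcon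
        nlinarith
      have h8 : (n : ℤ) - 1 ≤ al G Q n u w := by linarith
      have hun2 : u ∉ nb G Q (2 * n) u w := by
        rw [mem_nb]; simp
      have hsub : insert u (nb G Q (2 * n) u w) ⊆ pa Q n w := by
        intro z hz
        rw [Finset.mem_insert] at hz
        rcases hz with rfl | hz
        · rw [mem_pa]; exact ⟨hadj.ne', hQ⟩
        · exact nb_sub_pa C hn hD hz
      have h9 := Finset.card_le_card hsub
      rw [Finset.card_insert_of_notMem hun2] at h9
      unfold al at h8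
      omega

theorem S2 {u : V} (h0 : 0 ≤ T u) (hT : T u ≤ 2 * n) : (G.degree u : ℤ) ≤ n + D - 2 := by
  have h4 : (2 : ℤ) ≤ D := by exact_mod_cast hD
  have h5 : (2 : ℤ) ≤ n := by exact_mod_cast hn
  have hTe := Teq C hn hD hT
  have hbn := be_nonneg (G := G) (Q := Q) (n := n) (D := D) u u
  have hle : (G.degree u : ℤ) ≤ n + D := by
    by_contra hcon
    push Not at hcon
    have : 0 ≤ ((D : ℤ) - 1) * be G Q n D u u := mul_nonneg (by linarith) hbn
    nlinarith
  have hne1 : (G.degree u : ℤ) ≠ n + D := fun h => S1a C hn hD hL h0 hT h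
  have hne2 : (G.degree u : ℤ) ≠ n + D - 1 := fun h => S1b C hn hD hL h0 hT h
  omega

/-- an `a`-pair is never inside `Mid` -/
theorem S3 {u w : V} (huw : u ≠ w) (hQ : Q u w = 2 * n) (h0 : 0 ≤ T u) : T w < 0 := by
  by_contra hcon
  push Not at hcon
  have h5 : (2 : ℤ) ≤ n := by exact_mod_cast hn
  have hTu := C.T_le_of_a hn hD huw hQ
  have hTw := C.T_le_of_a hn hD huw.symm (by rw [C.symm]; exact hQ)
  have h1 := S2 C hn hD hL h0 hTu
  have h2 := S2 C hn hD hL hcon hTw
  have h3 := C.cs u w huw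
  rw [hQ] at h3
  have h6 : ((if G.Adj u w then 1 else 0 : ℤ)) ≤ 1 := by split_ifs <;> norm_num
  nlinarith

/-- S5 -/
theorem S5 {w v : V} (hwv : w ≠ v) (hQ : Q w v = 2 * n) (h0 : 0 ≤ T w) :
    ∃ y, w ≠ y ∧ Q w y = 2 * n + 2 * D := by
  by_contra hcon
  push Not at hcon
  have h4 : (2 : ℤ) ≤ D := by exact_mod_cast hD
  have h5 : (2 : ℤ) ≤ n := by exact_mod_cast hn
  have hTw := C.T_le_of_a hn hD hwv hQ
  have hTv := S3 C hn hD hL hwv hQ h0
  have h2 := S2 C hn hD hL h0 hTw
  have hsub : nb G Q (2 * n + D - 1) w w ⊆ nb G Q (2 * n + D - 1) w v := by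
    intro u hu
    rw [mem_nb] at hu ⊢
    refine ⟨hu.1, ?_⟩
    have hTu : 2 * (n : ℤ) < T u := by
      by_contra hc
      push Not at hc
      obtain ⟨z, _, hz2, hz3⟩ := C.exists_c_of_b hn hD hu.1.symm hc hu.2
      exact hcon z hz2.symm (by rw [C.symm]; exact hz3)
    have huv : u ≠ v := by rintro rfl; linarith
    rcases C.vals u v huv with h | h | h
    · have := C.T_le_of_a hn hD huv h; linarith
    · exact h
    · exact absurd (by rw [C.symm]; exact h) (C.hub_not_c hn hD huv.symm hTv)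
  have h3 := Finset.card_le_card hsub
  have h6 : be G Q n D w w ≤ be G Q n D w v := by
    unfold be; exact_mod_cast h3
  have hTe := Teq C hn hD hTw
  have h7 := C.L3 hn hD hwv hQ
  have hg := ga_nonneg (G := G) (Q := Q) (n := n) (D := D) w v
  have h8 : ad G w v ≤ 1 := by unfold ad; split_ifs <;> norm_num
  have h9 : ((D : ℤ) - 1) * be G Q n D w w ≤ (D - 1) * be G Q n D w v :=
    mul_le_mul_of_nonneg_left h6 (by linarith)
  have h10 : 0 ≤ 2 * (D : ℤ) * ga G Q n D w v := mul_nonneg (by linarith) hg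
  nlinarith

/-- S6a -/
theorem S6a {w : V} (h0 : 0 ≤ T w) (hT : T w ≤ 2 * n) : (D + 1) * al G Q n w w ≤ T w := by
  have h4 : (2 : ℤ) ≤ D := by exact_mod_cast hD
  have h5 : (2 : ℤ) ≤ n := by exact_mod_cast hn
  rcases (al_nonneg (G := G) (Q := Q) (n := n) w w).eq_or_lt with h | h
  · rw [← h]; linarith
  · obtain ⟨v, hv1, hv2⟩ := al_pos_iff.1 h
    have hQ : Q w v = 2 * n := by rw [C.symm]; exact hv2
    obtain ⟨y, hy1, hy2⟩ := S5 C hn hD hL hv1.ne hQ h0
    have hna : ¬ G.Adj w y := fun hadj => C.not_c_of_adj hn hD hadj hT hy2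
    have h1 := C.L1 hn hD hy1 hy2
    rw [ad_of_not hna] at h1
    have hTy := C.T_nonneg_of_c hn hD hy1.symm (by rw [C.symm]; exact hy2)
    have hsub : nb G Q (2 * n) w w ⊆ nb G Q (2 * n) w y ∪ nb G Q (2 * n + D - 1) w y := by
      intro z hz
      rw [mem_nb] at hz
      have hzQ : Q w z = 2 * n := by rw [C.symm]; exact hz.2
      have hTz := S3 C hn hD hL hz.1.ne hzQ h0
      have hzy : z ≠ y := by rintro rfl; linarith
      rw [Finset.mem_union, mem_nb, mem_nb]
      rcases C.vals z y hzy with h | h | h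
      · left; exact ⟨hz.1, h⟩
      · right; exact ⟨hz.1, h⟩
      · exact absurd h (C.hub_not_c hn hD hzy hTz)
    have h6 := (Finset.card_le_card hsub).trans (Finset.card_union_le _ _)
    have h7 : al G Q n w w ≤ al G Q n w y + be G Q n D w y := by
      unfold al be; exact_mod_cast h6
    have h8 := al_nonneg (G := G) (Q := Q) (n := n) w y
    nlinarith

/-- S6b -/
theorem S6b {w₀ v₀ : V} (hwv : w₀ ≠ v₀) (hQ₀ : Q w₀ v₀ = 2 * n) (h₀ : 0 ≤ T w₀) :
    ∃ w, 0 ≤ T w ∧ T w ≤ 2 * n ∧ 0 < al G Q n w w := by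
  by_contra hcon
  push Not at hcon
  have h4 : (2 : ℤ) ≤ D := by exact_mod_cast hD
  have h5 : (2 : ℤ) ≤ n := by exact_mod_cast hn
  have hclosed : ∀ u v : V, (0 ≤ T u ∧ ∃ x, u ≠ x ∧ Q u x = 2 * n) → G.Adj u v →
      (0 ≤ T v ∧ ∃ x, v ≠ x ∧ Q v x = 2 * n) := by
    rintro w z ⟨h0, v, hv1, hv2⟩ hwz
    have hT := C.T_le_of_a hn hD hv1 hv2
    have hal0 := hcon w h0 hT
    have hna : ¬ G.Adj w v := by
      intro hadj
      have : 0 < al G Q n w w := al_pos_iff.2 ⟨v, hadj, by rw [C.symm]; exact hv2⟩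
      linarith
    have hT0 : T w = 0 := le_antisymm (C.T_le_zero_of_a hn hD hv1 hv2 hna) h0
    have h3 := C.L3 hn hD hv1 hv2
    rw [ad_of_not hna, hT0] at h3
    have hb := be_nonneg (G := G) (Q := Q) (n := n) (D := D) w v
    have hg := ga_nonneg (G := G) (Q := Q) (n := n) (D := D) w v
    have hb1 : 0 ≤ ((D : ℤ) - 1) * be G Q n D w v := mul_nonneg (by linarith) hb
    have hg1 : 0 ≤ 2 * (D : ℤ) * ga G Q n D w v := mul_nonneg (by linarith) hg
    have hb0 : be G Q n D w v ≤ 0 := by
      by_contra hc; push Not at hc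
      have : 0 < ((D : ℤ) - 1) * be G Q n D w v := mul_pos (by linarith) hc
      linarith
    have hg0 : ga G Q n D w v ≤ 0 := by
      by_contra hc; push Not at hc
      have : 0 < 2 * (D : ℤ) * ga G Q n D w v := mul_pos (by linarith) hc
      linarith
    have hzv : z ≠ v := by rintro rfl; exact hna hwz
    have hzvQ : Q z v = 2 * n := by
      rcases C.vals z v hzv with h | h | h
      · exact h
      · have : 0 < be G Q n D w v := be_pos_iff.2 ⟨z, hwz, h⟩
        linarith
      · have : 0 < ga G Q n D w v := ga_pos_iff.2 ⟨z, hwz, h⟩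
        linarith
    obtain ⟨y, hy1, hy2⟩ := S5 C hn hD hL hv1 hv2 h0
    have hnay : ¬ G.Adj w y := fun hadj => C.not_c_of_adj hn hD hadj hT hy2
    have h1 := C.L1 hn hD hy1 hy2
    rw [ad_of_not hnay, hT0] at h1
    have hb' := be_nonneg (G := G) (Q := Q) (n := n) (D := D) w y
    have ha' := al_nonneg (G := G) (Q := Q) (n := n) w y
    have hb1' : 0 ≤ ((D : ℤ) + 1) * be G Q n D w y := mul_nonneg (by linarith) hb'
    have ha1' : 0 ≤ 2 * (D : ℤ) * al G Q n w y := mul_nonneg (by linarith) ha'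
    have hb0' : be G Q n D w y ≤ 0 := by
      by_contra hc; push Not at hc
      have : 0 < ((D : ℤ) + 1) * be G Q n D w y := mul_pos (by linarith) hc
      linarith
    have ha0' : al G Q n w y ≤ 0 := by
      by_contra hc; push Not at hc
      have : 0 < 2 * (D : ℤ) * al G Q n w y := mul_pos (by linarith) hc
      linarith
    have hzy : z ≠ y := by rintro rfl; exact hnay hwz
    have hzyQ : Q z y = 2 * n + 2 * D := by
      rcases C.vals z y hzy with h | h | h
      · have : 0 < al G Q n w y := al_pos_iff.2 ⟨z, hwz, h⟩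
        linarith
      · have : 0 < be G Q n D w y := be_pos_iff.2 ⟨z, hwz, h⟩
        linarith
      · exact h
    exact ⟨C.T_nonneg_of_c hn hD hzy hzyQ, v, hzv, hzvQ⟩
  have hall := closed_univ C.conn _ hclosed (u := w₀) ⟨h₀, v₀, hwv, hQ₀⟩ v₀
  have := S3 C hn hD hL hwv hQ₀ h₀
  linarith [hall.1]

end LargeMod

end Pool.Agent.ResSpec
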