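import Pool.Agent.ResSpec.LargeA

/-! # Module LARGE, part B: counting -/

set_option linter.unusedSectionVars false
set_option linter.unusedVariables false

namespace Pool.Agent.ResSpec

open Finset

universe u

namespace LargeMod

variable {V : Type u} [Fintype V] [DecidableEq V] {G : SimpleGraph V} [DecidableRel G.Adj]
  {n D : ℕ} {Q : V → V → ℤ} {T : V → ℤ}

/-- `a`-pair indicator -/
def ai (Q : V → V → ℤ) (n : ℕ) (z v : V) : ℤ := if Q z v = 2 * n then 1 else 0

/-- hubs -/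
def Hs (T : V → ℤ) : Finset V := univ.filter (fun z => T z < 0)
/-- middle vertices -/
def Ms (T : V → ℤ) (n : ℕ) : Finset V := univ.filter (fun z => 0 ≤ T z ∧ T z ≤ 2 * n)
/-- top vertices -/
def Ks (T : V → ℤ) (n : ℕ) : Finset V := univ.filter (fun z => 2 * n < T z)

theorem mem_Hs {z : V} : z ∈ Hs T ↔ T z < 0 := by simp [Hs]
theorem mem_Ms {z : V} : z ∈ Ms T n ↔ 0 ≤ T z ∧ T z ≤ 2 * n := by simp [Ms]
theorem mem_Ks {z : V} : z ∈ Ks T n ↔ 2 * n < T z := by simp [Ks]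

theorem sum3 (f : V → ℤ) : ∑ z, f z = ∑ z ∈ Hs T, f z + ∑ z ∈ Ms T n, f z + ∑ z ∈ Ks T n, f z := by
  unfold Hs Ms Ks
  rw [Finset.sum_filter, Finset.sum_filter, Finset.sum_filter, ← Finset.sum_add_distrib,
    ← Finset.sum_add_distrib]
  refine Finset.sum_congr rfl fun z _ => ?_
  by_cases h1 : T z < 0
  · have h2 : ¬ (0 ≤ T z ∧ T z ≤ 2 * n) := by intro h; linarith [h.1]
    have h3 : ¬ (2 * (n : ℤ) < T z) := by
      intro h
      have : (0 : ℤ) ≤ n := by positivity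
      linarith
    simp [h1, h2, h3]
  · by_cases h2 : T z ≤ 2 * n
    · have h3 : ¬ (2 * (n : ℤ) < T z) := by linarith
      have h4 : 0 ≤ T z := by linarith
      simp [h1, h2, h3, h4]
    · have h3 : (2 * (n : ℤ) < T z) := by linarith
      have h4 : ¬ (0 ≤ T z ∧ T z ≤ 2 * n) := fun h => h2 h.2
      simp [h1, h3, h4]

theorem card3 : (Fintype.card V : ℤ) = (Hs T).card + (Ms T n).card + (Ks T n).card := by
  have := sum3 (T := T) (n := n) (fun _ : V => (1 : ℤ))
  simpa using this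

theorem al_eq_sum (u v : V) : al G Q n u v = ∑ z, ad G u z * ai Q n z v := by
  unfold al nb ad ai
  rw [Finset.card_filter]
  push_cast
  rw [← Finset.sum_filter_add_sum_filter_not univ (fun z => G.Adj u z)]
  have h2 : ∑ z ∈ univ.filter (fun z => ¬ G.Adj u z),
      (if G.Adj u z then (1 : ℤ) else 0) * (if Q z v = 2 * n then 1 else 0) = 0 := by
    apply Finset.sum_eq_zero
    intro z hz
    have : ¬ G.Adj u z := (Finset.mem_filter.1 hz).2
    simp [this]
  rw [h2, add_zero]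
  have h3 : G.neighborFinset u = univ.filter (fun z => G.Adj u z) := by
    ext z; simp
  rw [h3]
  refine Finset.sum_congr rfl fun z hz => ?_
  have : G.Adj u z := (Finset.mem_filter.1 hz).2
  simp [this]

theorem deg_eq_sum (u : V) : (G.degree u : ℤ) = ∑ z, ad G u z := by
  have h3 : G.neighborFinset u = univ.filter (fun z => G.Adj u z) := by
    ext z; simp
  rw [← SimpleGraph.card_neighborFinset_eq_degree, h3, Finset.card_filter]
  push_cast
  rfl

theorem ad_sq (u v : V) : ad G u v * ad G u v = ad G u v := by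
  rcases ad_cases (G := G) u v with ⟨h, _⟩ | ⟨h, _⟩ <;> rw [h] <;> norm_num

theorem ad_nonneg (u v : V) : 0 ≤ ad G u v := by
  rcases ad_cases (G := G) u v with ⟨h, _⟩ | ⟨h, _⟩ <;> rw [h] <;> norm_num

theorem ad_le_one (u v : V) : ad G u v ≤ 1 := by
  rcases ad_cases (G := G) u v with ⟨h, _⟩ | ⟨h, _⟩ <;> rw [h] <;> norm_num

section facts

variable (C : Core n D G Q T) (hn : 2 ≤ n) (hD : 2 ≤ D) (hL : 2 * n < D * (D - 1))
include C hn hD

theorem ai_comm (u v : V) : ai Q n u v = ai Q n v u := by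
  unfold ai; rw [C.symm]

theorem ne_of_a {u v : V} (h : Q u v = 2 * n) : u ≠ v := by
  rintro rfl
  rw [C.diag] at h
  have h5 : (2 : ℤ) ≤ n := by exact_mod_cast hn
  linarith

theorem ai_K {z : V} (hz : z ∈ Ks T n) (v : V) : ai Q n z v = 0 := by
  unfold ai
  rw [if_neg]
  intro h
  have := C.T_le_of_a hn hD (ne_of_a C hn hD h) h
  rw [mem_Ks] at hz
  linarith

theorem ai_HH {z v : V} (hz : z ∈ Hs T) (hv : v ∈ Hs T) :
    ai Q n z v = 1 - (if z = v then 1 else 0) := by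
  unfold ai
  by_cases h : z = v
  · subst h
    rw [C.diag, if_neg, if_pos rfl]
    · norm_num
    · have h5 : (2 : ℤ) ≤ n := by exact_mod_cast hn
      intro h; linarith
  · rw [if_neg h, if_pos (C.hub_hub hn hD h (mem_Hs.1 hz) (mem_Hs.1 hv))]; norm_num

include hL

theorem ai_MM {z w : V} (hz : z ∈ Ms T n) (hw : w ∈ Ms T n) : ai Q n z w = 0 := by
  unfold ai
  rw [if_neg]
  intro h
  have := S3 C hn hD hL (ne_of_a C hn hD h) h (mem_Ms.1 hz).1
  rw [mem_Ms] at hw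
  linarith [hw.1]

omit hL in
theorem ga_hub {w v : V} (hv : T v < 0) : ga G Q n D w v = 0 := by
  apply ga_zero_of
  intro z _ hz
  have hzv : z ≠ v := by
    rintro rfl
    rw [C.diag] at hz
    have h5 : (2 : ℤ) ≤ n := by exact_mod_cast hn
    linarith
  exact C.hub_not_c hn hD hzv.symm hv (by rw [C.symm]; exact hz)

omit hL in
/-- an edge between `Mid` and `Hub` is an `a`-edge -/
theorem edge_MH {w v : V} (hT : T w ≤ 2 * n) (hv : T v < 0) (hadj : G.Adj w v) :
    Q w v = 2 * n := by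
  rcases C.vals w v hadj.ne with h | h | h
  · exact h
  · exfalso
    have := C.T_nonneg_of_b hn hD hadj hT h
    linarith
  · exact absurd (by rw [C.symm]; exact h) (C.hub_not_c hn hD hadj.ne' hv)

/-- the invariants of a middle vertex -/
theorem mu_w {w : V} (hw : w ∈ Ms T n) :
    T w - (D - 1) * al G Q n w w = 2 * (n + D) * n - (2 * n + D - 1) * G.degree w ∧
    2 * al G Q n w w ≤ T w - (D - 1) * al G Q n w w ∧
    T w - (D - 1) * al G Q n w w ≤ 2 * n := by
  have h4 : (2 : ℤ) ≤ D := by exact_mod_cast hD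
  rw [mem_Ms] at hw
  have h1 := C.F0 hn hD w
  have h2 := C.deg_split_self hn hD w
  rw [C.ga_self_zero hn hD hw.2] at h1 h2
  have h3 := S6a C hn hD hL hw.1 hw.2
  have h6 : 0 ≤ ((D : ℤ) - 1) * al G Q n w w := mul_nonneg (by linarith) (al_nonneg _ _)
  refine ⟨?_, ?_, ?_⟩
  · rw [h1, h2]; ring
  · linarith
  · linarith [hw.2]

theorem mu_unique {w z : V} (hw : w ∈ Ms T n) (hz : z ∈ Ms T n) : G.degree w = G.degree z := by
  have h4 : (2 : ℤ) ≤ D := by exact_mod_cast hD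
  have h5 : (2 : ℤ) ≤ n := by exact_mod_cast hn
  obtain ⟨a1, a2, a3⟩ := mu_w C hn hD hL hw
  obtain ⟨b1, b2, b3⟩ := mu_w C hn hD hL hz
  have a4 := al_nonneg (G := G) (Q := Q) (n := n) w w
  have b4 := al_nonneg (G := G) (Q := Q) (n := n) z z
  rw [a1] at a2 a3
  rw [b1] at b2 b3
  have h6 : (2 * (n : ℤ) + D - 1) * (G.degree w - G.degree z) ≤ 2 * n := by linarith
  have h7 : (2 * (n : ℤ) + D - 1) * (G.degree z - G.degree w) ≤ 2 * n := by linarith
  have h8 : ¬ (1 : ℤ) ≤ (G.degree w - G.degree z) := by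
    intro h; nlinarith
  have h9 : ¬ (1 : ℤ) ≤ (G.degree z - G.degree w) := by
    intro h; nlinarith
  omega

end facts

/-- The arithmetic situation at a middle vertex `w₀` with an `a`-neighbour. -/
structure Sit (n D : ℕ) (G : SimpleGraph V) [DecidableRel G.Adj] (Q : V → V → ℤ) (T : V → ℤ)
    (w₀ : V) (d μ : ℤ) : Prop where
  core : Core n D G Q T
  hn : 2 ≤ n
  hD : 2 ≤ D
  hL : 2 * n < D * (D - 1)
  hw : w₀ ∈ Ms T n
  hal : 0 < al G Q n w₀ w₀
  hd : (G.degree w₀ : ℤ) = d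
  hμ : μ = 2 * (n + D) * n - (2 * n + D - 1) * d

namespace Sit

variable {w₀ : V} {d μ : ℤ} (S : Sit n D G Q T w₀ d μ)
include S

theorem h4 : (2 : ℤ) ≤ D := by exact_mod_cast S.hD
theorem h5 : (2 : ℤ) ≤ n := by exact_mod_cast S.hn

theorem deg {w : V} (hw : w ∈ Ms T n) : (G.degree w : ℤ) = d := by
  rw [mu_unique S.core S.hn S.hD S.hL hw S.hw, S.hd]

theorem Tw {w : V} (hw : w ∈ Ms T n) : T w = μ + (D - 1) * al G Q n w w := by
  obtain ⟨a1, _, _⟩ := mu_w S.core S.hn S.hD S.hL hw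
  rw [S.deg hw, ← S.hμ] at a1
  linarith

theorem two_al {w : V} (hw : w ∈ Ms T n) : 2 * al G Q n w w ≤ μ := by
  obtain ⟨a1, a2, a3⟩ := mu_w S.core S.hn S.hD S.hL hw
  rw [S.deg hw, ← S.hμ] at a1
  linarith

theorem mu_le : μ ≤ 2 * n := by
  obtain ⟨a1, a2, a3⟩ := mu_w S.core S.hn S.hD S.hL S.hw
  rw [S.hd, ← S.hμ] at a1
  linarith

theorem two_le_mu : 2 ≤ μ := by
  have h1 := S.two_al S.hw
  have h2 := S.hal
  linarith

theorem Tpos {w : V} (hw : w ∈ Ms T n) : 0 < T w := by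
  have h1 := S.Tw hw
  have h2 := S.two_le_mu
  have h3 := S.h4
  have h6 : 0 ≤ ((D : ℤ) - 1) * al G Q n w w := mul_nonneg (by linarith) (al_nonneg _ _)
  linarith

theorem d_le : d ≤ n + D - 2 := by
  have := S2 S.core S.hn S.hD S.hL (mem_Ms.1 S.hw).1 (mem_Ms.1 S.hw).2
  rw [S.hd] at this; exact this

theorem ai_MH {w v : V} (hw : w ∈ Ms T n) (hv : v ∈ Hs T) : ai Q n w v = ad G w v := by
  unfold ai
  rcases ad_cases (G := G) w v with ⟨h, h'⟩ | ⟨h, h'⟩
  · rw [h, if_neg]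
    intro hQ
    have h1 := S.core.T_le_zero_of_a S.hn S.hD (ne_of_a S.core S.hn S.hD hQ) hQ h'
    have := S.Tpos hw
    linarith
  · rw [h, if_pos]
    exact edge_MH S.core S.hn S.hD (mem_Ms.1 hw).2 (mem_Hs.1 hv) h'

/-- for `w` in `Mid`: number of hub neighbours is `al w w` -/
theorem al_self {w : V} (hw : w ∈ Ms T n) : al G Q n w w = ∑ z ∈ Hs T, ad G w z := by
  rw [al_eq_sum, sum3 (T := T) (n := n)]
  have h1 : ∑ z ∈ Ms T n, ad G w z * ai Q n z w = 0 := by
    apply Finset.sum_eq_zero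
    intro z hz
    rw [ai_MM S.core S.hn S.hD S.hL hz hw, mul_zero]
  have h2 : ∑ z ∈ Ks T n, ad G w z * ai Q n z w = 0 := by
    apply Finset.sum_eq_zero
    intro z hz
    rw [ai_K S.core S.hn S.hD hz, mul_zero]
  rw [h1, h2, add_zero, add_zero]
  refine Finset.sum_congr rfl fun z hz => ?_
  rw [ai_comm S.core S.hn S.hD, S.ai_MH hw hz, ad_sq]

/-- `al w v` for `v` a hub, arbitrary `w` -/
theorem al_hub (w : V) {v : V} (hv : v ∈ Hs T) :
    al G Q n w v = ∑ z ∈ Hs T, ad G w z - ad G w v + ∑ z ∈ Ms T n, ad G w z * ad G z v := by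
  rw [al_eq_sum, sum3 (T := T) (n := n)]
  have h2 : ∑ z ∈ Ks T n, ad G w z * ai Q n z v = 0 := by
    apply Finset.sum_eq_zero
    intro z hz
    rw [ai_K S.core S.hn S.hD hz, mul_zero]
  have h1 : ∑ z ∈ Ms T n, ad G w z * ai Q n z v = ∑ z ∈ Ms T n, ad G w z * ad G z v := by
    refine Finset.sum_congr rfl fun z hz => ?_
    rw [S.ai_MH hz hv]
  have h3 : ∑ z ∈ Hs T, ad G w z * ai Q n z v = ∑ z ∈ Hs T, ad G w z - ad G w v := by
    have : ∀ z ∈ Hs T, ad G w z * ai Q n z v = ad G w z - (if z = v then ad G w v else 0) := by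
      intro z hz
      rw [ai_HH S.core S.hn S.hD hz hv]
      by_cases h : z = v
      · subst h; simp
      · simp [h]
    rw [Finset.sum_congr rfl this, Finset.sum_sub_distrib, Finset.sum_ite_eq' (Hs T) v, if_pos hv]
  rw [h1, h2, h3, add_zero]

/-- S8 -/
theorem S8 {w v : V} (hw : w ∈ Ms T n) (hv : v ∈ Hs T) :
    (D - 1) * ∑ z ∈ Ms T n, ad G w z * ad G z v =
      ad G w v * (2 * n * (n + D - 1 - d)) + (1 - ad G w v) * μ := by
  have hwT := mem_Ms.1 hw
  have hvT := mem_Hs.1 hv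
  have hne : w ≠ v := by
    rintro rfl; linarith [hwT.1]
  have hg := ga_hub (G := G) S.core S.hn S.hD (w := w) hvT
  have h1 := S.al_hub w hv
  rw [← S.al_self hw] at h1
  have h2 := S.core.deg_split S.hn S.hD w v
  rw [S.deg hw, hg] at h2
  have hT := S.Tw hw
  have hμ := S.hμ
  rcases ad_cases (G := G) w v with ⟨h, h'⟩ | ⟨h, h'⟩
  · have hna : Q w v ≠ 2 * n := by
      intro hQ
      have h1 := S.core.T_le_zero_of_a S.hn S.hD hne hQ h'
      have := S.Tpos hw
      linarith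
    have hb : Q w v = 2 * n + D - 1 := by
      rcases S.core.vals w v hne with h | h | h
      · exact absurd h hna
      · exact h
      · exact absurd (by rw [S.core.symm]; exact h) (S.core.hub_not_c S.hn S.hD hne.symm hvT)
    have h3 := S.core.L2 S.hn S.hD hne hb
    rw [h, hg] at h3
    rw [h] at h1 h2 ⊢
    have h6 : ∑ z ∈ Ms T n, ad G w z * ad G z v = al G Q n w v - al G Q n w w := by linarith
    rw [h6]
    linarith
  · have ha := edge_MH S.core S.hn S.hD hwT.2 hvT h'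
    have h3 := S.core.L3 S.hn S.hD hne ha
    rw [h, hg] at h3
    rw [h] at h1 h2 ⊢
    have h6 : ∑ z ∈ Ms T n, ad G w z * ad G z v = al G Q n w v - al G Q n w w + 1 := by linarith
    have h7 : be G Q n D w v = d - 1 - al G Q n w v := by linarith
    rw [h7] at h3
    rw [h6]
    linarith

/-- number of middle neighbours -/
def mm (G : SimpleGraph V) [DecidableRel G.Adj] (T : V → ℤ) (n : ℕ) (w : V) : ℤ :=
  ∑ z ∈ Ms T n, ad G w z

theorem deg3 {w : V} (hw : w ∈ Ms T n) :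
    d = al G Q n w w + mm G T n w + ∑ z ∈ Ks T n, ad G w z := by
  rw [← S.deg hw, deg_eq_sum, sum3 (T := T) (n := n), S.al_self hw, mm]

theorem E4' : (D - 1) * ∑ z ∈ Ms T n, al G Q n z z * mm G T n z =
    (2 * n * (n + D - 1 - d)) * (∑ z ∈ Ms T n, al G Q n z z) +
      μ * ((Hs T).card * (Ms T n).card - ∑ z ∈ Ms T n, al G Q n z z) := by
  have h1 : ∀ w ∈ Ms T n, (D - 1) * ∑ z ∈ Ms T n, ad G w z * al G Q n z z =
      (2 * n * (n + D - 1 - d)) * al G Q n w w + μ * ((Hs T).card - al G Q n w w) := by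
    intro w hw
    have h2 : ∑ z ∈ Ms T n, ad G w z * al G Q n z z =
        ∑ v ∈ Hs T, ∑ z ∈ Ms T n, ad G w z * ad G z v := by
      rw [Finset.sum_comm]
      refine Finset.sum_congr rfl fun z hz => ?_
      rw [S.al_self hz, Finset.mul_sum]
    rw [h2, Finset.mul_sum, Finset.sum_congr rfl (fun v hv => S.S8 hw hv),
      Finset.sum_add_distrib, ← Finset.sum_mul, ← Finset.sum_mul, Finset.sum_sub_distrib,
      ← S.al_self hw]
    simp
    ring
  have h2 : ∑ z ∈ Ms T n, al G Q n z z * mm G T n z =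
      ∑ w ∈ Ms T n, ∑ z ∈ Ms T n, ad G w z * al G Q n z z := by
    rw [Finset.sum_comm]
    refine Finset.sum_congr rfl fun z hz => ?_
    rw [mm, Finset.mul_sum]
    refine Finset.sum_congr rfl fun w hw => ?_
    rw [ad_comm]; ring
  rw [h2, Finset.mul_sum, Finset.sum_congr rfl h1, Finset.sum_add_distrib, ← Finset.mul_sum,
    ← Finset.mul_sum, Finset.sum_sub_distrib, Finset.sum_const, nsmul_eq_mul]
  ring

theorem hmu' : ((D : ℤ) - 1) * d = 2 * n * (n + D - d) - μ := by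
  have := S.hμ
  rw [this]; ring

/-- E4 -/
theorem E4 : (D - 1) * ∑ z ∈ Ms T n, al G Q n z z ^ 2 + μ * ((Hs T).card * (Ms T n).card) ≤
    2 * n * ∑ z ∈ Ms T n, al G Q n z z := by
  have h1 := S.E4'
  have h4 := S.h4
  have h2 : ∑ z ∈ Ms T n, al G Q n z z * mm G T n z ≤
      d * (∑ z ∈ Ms T n, al G Q n z z) - ∑ z ∈ Ms T n, al G Q n z z ^ 2 := by
    rw [Finset.mul_sum, ← Finset.sum_sub_distrib]
    apply Finset.sum_le_sum
    intro z hz
    have h3 := S.deg3 hz
    have h5 : 0 ≤ ∑ y ∈ Ks T n, ad G z y := Finset.sum_nonneg fun y _ => ad_nonneg _ _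
    have h6 := al_nonneg (G := G) (Q := Q) (n := n) z z
    nlinarith
  have h3 := mul_le_mul_of_nonneg_left h2 (show (0 : ℤ) ≤ (D : ℤ) - 1 by linarith)
  rw [h1] at h3
  have h5 := S.hmu'
  have h6 : (2 * (n : ℤ) * (n + D - 1 - d)) = (D - 1) * d + μ - 2 * n := by
    rw [h5]; ring
  rw [h6] at h3
  linarith

/-- total number of `a`-pairs -/
theorem count_a : (n : ℤ) * (n - 1) = (Hs T).card * ((Hs T).card - 1) +
    2 * ∑ z ∈ Ms T n, al G Q n z z := by
  have h0 := sum_pa S.core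
  have h1 : ∀ v, ((pa Q n v).card : ℤ) = ∑ z, ai Q n v z := by
    intro v
    have : pa Q n v = univ.filter (fun z => Q v z = 2 * n) := by
      ext z
      rw [mem_pa]
      simp only [mem_filter, mem_univ, true_and]
      exact ⟨fun h => h.2, fun h => ⟨ne_of_a S.core S.hn S.hD h, h⟩⟩
    rw [this, Finset.card_filter]
    push_cast
    rfl
  have h2 : (n : ℤ) * (n - 1) = ∑ v, ∑ z, ai Q n v z := by
    rw [← Finset.sum_congr rfl (fun v _ => h1 v)]
    have : ((n * (n - 1) : ℕ) : ℤ) = ((∑ v, (pa Q n v).card : ℕ) : ℤ) := by rw [h0]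
    push_cast [Nat.cast_sub (show 1 ≤ n by have := S.hn; omega)] at this
    exact this
  have hH : ∀ v ∈ Hs T, ∑ z, ai Q n v z = ((Hs T).card - 1) + ∑ z ∈ Ms T n, ad G z v := by
    intro v hv
    rw [sum3 (T := T) (n := n)]
    have e1 : ∑ z ∈ Hs T, ai Q n v z = (Hs T).card - 1 := by
      rw [Finset.sum_congr rfl (fun z hz => ai_HH S.core S.hn S.hD hv hz),
        Finset.sum_sub_distrib, Finset.sum_ite_eq (Hs T) v, if_pos hv]
      simp
    have e2 : ∑ z ∈ Ms T n, ai Q n v z = ∑ z ∈ Ms T n, ad G z v := by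
      refine Finset.sum_congr rfl fun z hz => ?_
      rw [ai_comm S.core S.hn S.hD, S.ai_MH hz hv]
    have e3 : ∑ z ∈ Ks T n, ai Q n v z = 0 := by
      apply Finset.sum_eq_zero
      intro z hz
      rw [ai_comm S.core S.hn S.hD, ai_K S.core S.hn S.hD hz]
    rw [e1, e2, e3, add_zero]
  have hM : ∀ w ∈ Ms T n, ∑ z, ai Q n w z = al G Q n w w := by
    intro w hw
    rw [sum3 (T := T) (n := n), S.al_self hw]
    have e1 : ∑ z ∈ Hs T, ai Q n w z = ∑ z ∈ Hs T, ad G w z :=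
      Finset.sum_congr rfl (fun z hz => S.ai_MH hw hz)
    have e2 : ∑ z ∈ Ms T n, ai Q n w z = 0 := by
      apply Finset.sum_eq_zero
      intro z hz
      exact ai_MM S.core S.hn S.hD S.hL hw hz
    have e3 : ∑ z ∈ Ks T n, ai Q n w z = 0 := by
      apply Finset.sum_eq_zero
      intro z hz
      rw [ai_comm S.core S.hn S.hD, ai_K S.core S.hn S.hD hz]
    rw [e1, e2, e3, add_zero, add_zero]
  have hK : ∀ w ∈ Ks T n, ∑ z, ai Q n w z = 0 := by
    intro w hw
    exact Finset.sum_eq_zero fun z _ => ai_K S.core S.hn S.hD hw z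
  rw [h2, sum3 (T := T) (n := n), Finset.sum_congr rfl hH, Finset.sum_congr rfl hM,
    Finset.sum_congr rfl hK, Finset.sum_add_distrib]
  have e5 : ∑ v ∈ Hs T, ∑ z ∈ Ms T n, ad G z v = ∑ z ∈ Ms T n, al G Q n z z := by
    rw [Finset.sum_comm]
    exact Finset.sum_congr rfl fun z hz => (S.al_self hz).symm
  rw [e5]
  simp
  ring

/-- lower bound for the number of (Hub, Mid) `a`-pairs -/
theorem exists_nu : ∃ ν : ℤ, 0 ≤ ν ∧ (D - 1) * ν = 2 * n * (n + D - 1 - d) ∧
    (Hs T).card * (1 + ν) ≤ ∑ z ∈ Ms T n, al G Q n z z := by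
  have h4 := S.h4
  obtain ⟨v₀, hv₀, hQ₀⟩ := al_pos_iff.1 S.hal
  have hv₀H : v₀ ∈ Hs T := by
    rw [mem_Hs]
    exact S3 S.core S.hn S.hD S.hL hv₀.ne (by rw [S.core.symm]; exact hQ₀) (mem_Ms.1 S.hw).1
  have key : ∀ w ∈ Ms T n, ∀ v ∈ Hs T, G.Adj w v →
      (D - 1) * ∑ z ∈ Ms T n, ad G w z * ad G z v = 2 * n * (n + D - 1 - d) := by
    intro w hw v hv hadj
    rw [S.S8 hw hv, ad_of_adj hadj]; ring
  refine ⟨∑ z ∈ Ms T n, ad G w₀ z * ad G z v₀, ?_, key w₀ S.hw v₀ hv₀H hv₀, ?_⟩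
  · exact Finset.sum_nonneg fun z _ => mul_nonneg (ad_nonneg _ _) (ad_nonneg _ _)
  · have e5 : ∑ z ∈ Ms T n, al G Q n z z = ∑ v ∈ Hs T, ∑ z ∈ Ms T n, ad G z v := by
      rw [Finset.sum_comm]
      exact Finset.sum_congr rfl fun z hz => (S.al_self hz)
    rw [e5]
    have hconst : ((Hs T).card : ℤ) * (1 + ∑ z ∈ Ms T n, ad G w₀ z * ad G z v₀) =
        ∑ v ∈ Hs T, (1 + ∑ z ∈ Ms T n, ad G w₀ z * ad G z v₀) := by
      rw [Finset.sum_const, nsmul_eq_mul]
    rw [hconst]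
    apply Finset.sum_le_sum
    intro v hv
    -- some middle vertex is adjacent to v
    have hex : ∃ w ∈ Ms T n, G.Adj w v := by
      by_contra hcon
      push Not at hcon
      have h1 := S.S8 S.hw hv
      rw [ad_of_not (hcon w₀ S.hw)] at h1
      have h2 : ∑ z ∈ Ms T n, ad G w₀ z * ad G z v = 0 := by
        apply Finset.sum_eq_zero
        intro z hz
        rw [ad_of_not (hcon z hz), mul_zero]
      rw [h2] at h1
      have := S.two_le_mu
      linarith
    obtain ⟨w, hw, hadj⟩ := hex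
    have h1 := key w hw v hv hadj
    have h2 := key w₀ S.hw v₀ hv₀H hv₀
    have h3 : ∑ z ∈ Ms T n, ad G w z * ad G z v = ∑ z ∈ Ms T n, ad G w₀ z * ad G z v₀ := by
      have h6 : ((D : ℤ) - 1) ≠ 0 := by linarith
      exact mul_left_cancel₀ h6 (h1.trans h2.symm)
    rw [← h3, ← Finset.add_sum_erase _ _ hw, ← Finset.add_sum_erase _ _ hw]
    rw [ad_self, ad_of_adj hadj, zero_mul, zero_add]
    have : ∑ x ∈ (Ms T n).erase w, ad G w x * ad G x v ≤ ∑ x ∈ (Ms T n).erase w, ad G x v := by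
      apply Finset.sum_le_sum
      intro z _
      have h7 := ad_le_one (G := G) w z
      have h8 := ad_nonneg (G := G) z v
      nlinarith
    linarith

/-- size bound -/
theorem size : ((D : ℤ) - 1) * (n + (Hs T).card - 1) ≤ 4 * (Ms T n).card ∧
    ((Hs T).card : ℤ) < n ∧ 1 ≤ ((Hs T).card : ℤ) := by
  have h4 := S.h4
  have h5 := S.h5
  have hE := S.E4
  have hc := S.count_a
  set p := ∑ z ∈ Ms T n, al G Q n z z with hp
  set η : ℤ := ((Hs T).card : ℤ) with hη
  set M : ℤ := ((Ms T n).card : ℤ) with hM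
  have hη1 : 1 ≤ η := by
    obtain ⟨v₀, hv₀, hQ₀⟩ := al_pos_iff.1 S.hal
    have hv₀H : v₀ ∈ Hs T := by
      rw [mem_Hs]
      exact S3 S.core S.hn S.hD S.hL hv₀.ne (by rw [S.core.symm]; exact hQ₀) (mem_Ms.1 S.hw).1
    have : 0 < (Hs T).card := Finset.card_pos.2 ⟨v₀, hv₀H⟩
    rw [hη]; exact_mod_cast this
  have hp1 : 1 ≤ p := by
    rw [hp, ← Finset.add_sum_erase _ _ S.hw]
    have : 0 ≤ ∑ x ∈ (Ms T n).erase w₀, al G Q n x x :=
      Finset.sum_nonneg fun z _ => al_nonneg _ _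
    have := S.hal
    linarith
  have hηn : η < n := by
    by_contra hcon
    push Not at hcon
    nlinarith
  refine ⟨?_, hηn, hη1⟩
  -- 2 p ≤ M μ
  have h6 : 2 * p ≤ M * μ := by
    rw [hp, Finset.mul_sum, hM]
    calc ∑ z ∈ Ms T n, 2 * al G Q n z z ≤ ∑ z ∈ Ms T n, μ :=
          Finset.sum_le_sum fun z hz => S.two_al hz
      _ = _ := by rw [Finset.sum_const, nsmul_eq_mul]
  -- Cauchy-Schwarz
  have h7 : p ^ 2 ≤ M * ∑ z ∈ Ms T n, al G Q n z z ^ 2 := by
    rw [hp, hM]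
    exact sq_sum_le_card_mul_sum_sq
  set q := ∑ z ∈ Ms T n, al G Q n z z ^ 2 with hq
  have hM0 : 0 ≤ M := by rw [hM]; positivity
  -- (D-1) q ≤ 2 (n - η) p
  have h8 : ((D : ℤ) - 1) * q ≤ 2 * (n - η) * p := by
    have : η * (2 * p) ≤ η * (M * μ) := mul_le_mul_of_nonneg_left h6 (by linarith)
    nlinarith
  have h9 : ((D : ℤ) - 1) * p ^ 2 ≤ M * (2 * (n - η) * p) := by
    calc ((D : ℤ) - 1) * p ^ 2 ≤ ((D : ℤ) - 1) * (M * q) :=
          mul_le_mul_of_nonneg_left h7 (by linarith)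
      _ = M * (((D : ℤ) - 1) * q) := by ring
      _ ≤ _ := mul_le_mul_of_nonneg_left h8 hM0
  have h10 : ((D : ℤ) - 1) * p ≤ M * (2 * (n - η)) := by
    have : p * (((D : ℤ) - 1) * p) ≤ p * (M * (2 * (n - η))) := by nlinarith
    exact le_of_mul_le_mul_left this (by linarith)
  have h11 : 2 * p = (n - η) * (n + η - 1) := by nlinarith
  have h12 : (n - η) * (((D : ℤ) - 1) * (n + η - 1)) ≤ (n - η) * (4 * M) := by nlinarith
  exact le_of_mul_le_mul_left h12 (by linarith)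

end Sit

end LargeMod

end Pool.Agent.ResSpec
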