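import Pool.Agent.ResSpec.LargeB

/-! # Module LARGE, part C: the top vertices, and the arithmetic elimination -/

set_option linter.unusedSectionVars false
set_option linter.unusedVariables false

namespace Pool.Agent.ResSpec

open Finset

universe u

namespace LargeMod

variable {V : Type u} [Fintype V] [DecidableEq V] {G : SimpleGraph V} [DecidableRel G.Adj]
  {n D : ℕ} {Q : V → V → ℤ} {T : V → ℤ}

namespace Sit

variable {w₀ : V} {d μ : ℤ} (S : Sit n D G Q T w₀ d μ)
include S

/-- S10 (i) -/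
theorem KK {u v : V} (huv : u ≠ v) (hu : u ∈ Ks T n) (hv : v ∈ Ks T n) :
    Q u v = 2 * n + 2 * D := by
  have C := S.core
  have h4 := S.h4
  have h5 := S.h5
  have huT := mem_Ks.1 hu
  have hvT := mem_Ks.1 hv
  rcases C.vals u v huv with h | h | h
  · have := C.T_le_of_a S.hn S.hD huv h; linarith
  · exfalso
    have h1 := C.L2 S.hn S.hD huv h
    have hal : al G Q n u v = 0 := by
      rw [al_eq_sum]
      apply Finset.sum_eq_zero
      intro z _
      rw [ai_comm C S.hn S.hD, ai_K C S.hn S.hD hv, mul_zero]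
    rw [hal] at h1
    have hg := ga_nonneg (G := G) (Q := Q) (n := n) (D := D) u v
    have hg' : 0 ≤ ((D : ℤ) + 1) * ga G Q n D u v := mul_nonneg (by linarith) hg
    rcases ad_cases (G := G) u v with ⟨ha, _⟩ | ⟨ha, hadj⟩
    · rw [ha] at h1; linarith
    · rw [ha] at h1
      have hg0 : ga G Q n D u v = 0 := by
        by_contra hne
        have : 1 ≤ ga G Q n D u v := by
          have := lt_of_le_of_ne hg (Ne.symm hne)
          linarith
        nlinarith
      rw [hg0] at h1
      have hTu : T u = 2 * n + D - 1 := by linarith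
      have hgs : ga G Q n D u u = 0 := by
        apply ga_zero_of
        intro w hw hQ
        have := C.T_ge_of_cadj S.hn S.hD hw (by rw [C.symm]; exact hQ)
        linarith
      have has : al G Q n u u = 0 := by
        rw [al_eq_sum]
        apply Finset.sum_eq_zero
        intro z _
        rw [ai_comm C S.hn S.hD, ai_K C S.hn S.hD hu, mul_zero]
      have hF := C.F0 S.hn S.hD u
      rw [hgs, has, hTu] at hF
      have hμ := S.hμ
      have h6 : μ = (2 * n + D - 1) * (1 + be G Q n D u u - d) := by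
        rw [hμ]; linarith
      have h7 := S.two_le_mu
      have h8 := S.mu_le
      have h9 : ¬ (1 ≤ 1 + be G Q n D u u - d) := by
        intro h; nlinarith
      have h10 : ¬ (1 + be G Q n D u u - d ≤ 0) := by
        intro h; nlinarith
      omega
  · exact h

/-- S10 (ii) -/
theorem exists_MK {u : V} (hu : u ∈ Ks T n) : ∃ z ∈ Ms T n, G.Adj z u := by
  by_contra hcon
  push Not at hcon
  have C := S.core
  have h4 := S.h4
  have h5 := S.h5
  have huT := mem_Ks.1 hu
  obtain ⟨hs1, hs2, hs3⟩ := S.size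
  -- L2 at u with a hub v
  have key : ∀ v ∈ Hs T, Q u v = 2 * n + D - 1 ∧
      T u = 2 * n * ad G u v + (D - 1) * ∑ z ∈ Hs T, ad G u z := by
    intro v hv
    have hvT := mem_Hs.1 hv
    have huv : u ≠ v := by rintro rfl; linarith
    have hb : Q u v = 2 * n + D - 1 := by
      rcases C.vals u v huv with h | h | h
      · have := C.T_le_of_a S.hn S.hD huv h; linarith
      · exact h
      · exact absurd (by rw [C.symm]; exact h) (C.hub_not_c S.hn S.hD huv.symm hvT)
    refine ⟨hb, ?_⟩
    have h1 := C.L2 S.hn S.hD huv hb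
    rw [ga_hub C S.hn S.hD hvT, S.al_hub u hv] at h1
    have h2 : ∑ z ∈ Ms T n, ad G u z * ad G z v = 0 := by
      apply Finset.sum_eq_zero
      intro z hz
      rw [ad_of_not (fun h => hcon z hz h.symm), zero_mul]
    rw [h2] at h1
    linarith
  obtain ⟨v₁, hv₁⟩ : (Hs T).Nonempty := by
    rw [← Finset.card_pos]; exact_mod_cast hs3
  have hall : ∀ v ∈ Hs T, ad G u v = 1 := by
    intro v hv
    rcases ad_cases (G := G) u v with ⟨ha, _⟩ | ⟨ha, _⟩
    · exfalso
      obtain ⟨_, h1⟩ := key v hv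
      rw [ha] at h1
      have hnone : ∀ v' ∈ Hs T, ad G u v' = 0 := by
        intro v' hv'
        rcases ad_cases (G := G) u v' with ⟨ha', _⟩ | ⟨ha', _⟩
        · exact ha'
        · obtain ⟨_, h2⟩ := key v' hv'
          rw [ha'] at h2
          linarith
      rw [Finset.sum_eq_zero hnone] at h1
      linarith
    · exact ha
  have hsum : ∑ z ∈ Hs T, ad G u z = (Hs T).card := by
    rw [Finset.sum_congr rfl hall]; simp
  obtain ⟨_, h1⟩ := key v₁ hv₁
  rw [hall v₁ hv₁, hsum] at h1
  -- F0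
  have has : al G Q n u u = 0 := by
    rw [al_eq_sum]
    apply Finset.sum_eq_zero
    intro z _
    rw [ai_comm C S.hn S.hD, ai_K C S.hn S.hD hu, mul_zero]
  have hbs : be G Q n D u u = (Hs T).card := by
    unfold be
    congr 2
    ext z
    rw [mem_nb]
    constructor
    · rintro ⟨hz1, hz2⟩
      by_contra hzH
      have hzu : z ≠ u := hz1.ne'
      have hz3 : 0 ≤ T z := by
        by_contra hc; push Not at hc; exact hzH (mem_Hs.2 hc)
      by_cases hz4 : T z ≤ 2 * n
      · exact hcon z (mem_Ms.2 ⟨hz3, hz4⟩) hz1.symm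
      · have hzK : z ∈ Ks T n := mem_Ks.2 (by linarith)
        rw [S.KK hzu hzK hu] at hz2
        linarith
    · intro hz
      refine ⟨?_, by rw [C.symm]; exact (key z hz).1⟩
      have := hall z hz
      rcases ad_cases (G := G) u z with ⟨ha', _⟩ | ⟨_, h⟩
      · rw [ha'] at this; norm_num at this
      · exact h
  have hF := C.F0 S.hn S.hD u
  rw [has, hbs, h1] at hF
  have h6 : ((n : ℤ) + D) * (n - ga G Q n D u u - (Hs T).card) = n - (Hs T).card := by linarith
  have h7 : 0 < (n : ℤ) - (Hs T).card := by linarith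
  have h8 : ¬ ((n : ℤ) - ga G Q n D u u - (Hs T).card ≤ 0) := by
    intro h; nlinarith
  push Not at h8
  nlinarith

/-- S10 (iv) -/
theorem T_congr {w z : V} (hw : w ∈ Ms T n) (hz : z ∈ Ms T n) :
    ((D : ℤ) + 1) ∣ T w - T z := by
  have C := S.core
  by_cases hwz : w = z
  · subst hwz; simp
  have halsymm : al G Q n w z = al G Q n z w := by
    rw [al_eq_sum, al_eq_sum, sum3 (T := T) (n := n), sum3 (T := T) (n := n)]
    have e : ∀ {x y : V}, x ∈ Ms T n → y ∈ Ms T n →
        ∑ t ∈ Ms T n, ad G x t * ai Q n t y = 0 := by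
      intro x y hx hy
      apply Finset.sum_eq_zero
      intro t ht
      rw [ai_MM C S.hn S.hD S.hL ht hy, mul_zero]
    have e' : ∀ {x y : V}, ∑ t ∈ Ks T n, ad G x t * ai Q n t y = 0 := by
      intro x y
      apply Finset.sum_eq_zero
      intro t ht
      rw [ai_K C S.hn S.hD ht, mul_zero]
    have e'' : ∀ {x y : V}, y ∈ Ms T n →
        ∑ t ∈ Hs T, ad G x t * ai Q n t y = ∑ t ∈ Hs T, ad G x t * ad G y t := by
      intro x y hy
      refine Finset.sum_congr rfl fun t ht => ?_
      rw [ai_comm C S.hn S.hD, S.ai_MH hy ht]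
    rw [e hw hz, e hz hw, e', e', e'' hz, e'' hw]
    simp only [add_zero]
    exact Finset.sum_congr rfl fun t _ => mul_comm _ _
  rcases C.vals w z hwz with h | h | h
  · exfalso
    have h1 := S3 C S.hn S.hD S.hL hwz h (mem_Ms.1 hw).1
    linarith [(mem_Ms.1 hz).1]
  · have h1 := C.L2 S.hn S.hD hwz h
    have h2 := C.L2 S.hn S.hD (Ne.symm hwz) (by rw [C.symm]; exact h)
    rw [h1, h2, halsymm, ad_comm w z]
    exact ⟨ga G Q n D z w - ga G Q n D w z, by ring⟩
  · have h1 := C.L1 S.hn S.hD hwz h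
    have h2 := C.L1 S.hn S.hD (Ne.symm hwz) (by rw [C.symm]; exact h)
    rw [h1, h2, halsymm, ad_comm w z]
    exact ⟨be G Q n D w z - be G Q n D z w, by ring⟩

/-- S10: the congruence when `Cee` is non-empty -/
theorem congr_of_K (hK : (Ks T n).Nonempty) : ((D : ℤ) + 1) ∣ T w₀ - (2 * n + D - 1) := by
  have C := S.core
  obtain ⟨u, hu⟩ := hK
  obtain ⟨z, hz, hadj⟩ := S.exists_MK hu
  have hzT := mem_Ms.1 hz
  have huT := mem_Ks.1 hu
  have hQ : Q z u = 2 * n + D - 1 := by
    rcases C.vals z u hadj.ne with h | h | h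
    · have := C.T_le_of_a S.hn S.hD hadj.ne' (by rw [C.symm]; exact h); linarith
    · exact h
    · exact absurd h (C.not_c_of_adj S.hn S.hD hadj hzT.2)
  have h1 := C.L2 S.hn S.hD hadj.ne hQ
  have hal : al G Q n z u = 0 := by
    rw [al_eq_sum]
    apply Finset.sum_eq_zero
    intro y _
    rw [ai_comm C S.hn S.hD, ai_K C S.hn S.hD hu, mul_zero]
  rw [hal, ad_of_adj hadj] at h1
  have h2 := S.T_congr S.hw hz
  have h3 : T w₀ - (2 * n + D - 1) = (T w₀ - T z) + (D + 1) * (- ga G Q n D z u) := by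
    rw [h1]; ring
  rw [h3]
  exact dvd_add h2 (dvd_mul_right _ _)

/-- S12: the count when `Cee` is empty -/
theorem count_c (hK : Ks T n = ∅) :
    ((n : ℤ) + D) * (n + D - 1) = (Ms T n).card * ((Ms T n).card - 1 - d) +
      ∑ z ∈ Ms T n, al G Q n z z := by
  have C := S.core
  have h4 := S.h4
  have h5 := S.h5
  let ci : V → V → ℤ := fun w z => if w ≠ z ∧ Q w z = 2 * n + 2 * D then 1 else 0
  have h0 : ((n : ℤ) + D) * (n + D - 1) = ∑ w, ∑ z, ci w z := by
    have h1 := C.cntC
    have h2 : (((univ : Finset (V × V)).filter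
      (fun p => p.1 ≠ p.2 ∧ Q p.1 p.2 = 2 * n + 2 * D)).card : ℤ) = ∑ w, ∑ z, ci w z := by
      rw [Finset.card_filter, ← Finset.univ_product_univ, Finset.sum_product]
      push_cast
      rfl
    rw [← h2, h1]
    push_cast [Nat.cast_sub (show 1 ≤ n + D by have := S.hn; omega)]
    ring
  have hrow : ∀ w ∈ Hs T, ∑ z, ci w z = 0 := by
    intro w hw
    apply Finset.sum_eq_zero
    intro z _
    simp only [ci]
    rw [if_neg]
    rintro ⟨h1, h2⟩
    exact C.hub_not_c S.hn S.hD h1 (mem_Hs.1 hw) h2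
  have hrowM : ∀ w ∈ Ms T n, ∑ z, ci w z = (Ms T n).card - 1 - d + al G Q n w w := by
    intro w hw
    rw [sum3 (T := T) (n := n), hK]
    have e1 : ∑ z ∈ Hs T, ci w z = 0 := by
      apply Finset.sum_eq_zero
      intro z hz
      simp only [ci]
      rw [if_neg]
      rintro ⟨h1, h2⟩
      exact C.hub_not_c S.hn S.hD h1.symm (mem_Hs.1 hz) (by rw [C.symm]; exact h2)
    have e2 : ∀ z ∈ Ms T n, ci w z = 1 - (if w = z then 1 else 0) - ad G w z := by
      intro z hz
      simp only [ci]
      by_cases hwz : w = z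
      · subst hwz; simp [ad_self]
      · rw [if_neg hwz]
        rcases ad_cases (G := G) w z with ⟨ha, hna⟩ | ⟨ha, hadj⟩
        · rw [ha, if_pos]
          · norm_num
          · refine ⟨hwz, ?_⟩
            rcases C.vals w z hwz with h | h | h
            · exfalso
              have h1 := S3 C S.hn S.hD S.hL hwz h (mem_Ms.1 hw).1
              linarith [(mem_Ms.1 hz).1]
            · exfalso
              have h1 := C.cs w z hwz
              rw [h, S.deg hw, S.deg hz, if_neg hna] at h1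
              have h2 := S.hμ
              have h3 := S.two_le_mu
              linarith
            · exact h
        · rw [ha, if_neg]
          · norm_num
          · rintro ⟨_, h⟩
            exact C.not_c_of_adj S.hn S.hD hadj (mem_Ms.1 hw).2 h
    rw [e1, Finset.sum_congr rfl e2, Finset.sum_sub_distrib, Finset.sum_sub_distrib,
      Finset.sum_ite_eq (Ms T n) w, if_pos hw]
    have hd := S.deg3 hw
    rw [hK, mm] at hd
    simp only [Finset.sum_empty, add_zero, Finset.sum_const, nsmul_eq_mul, mul_one, zero_add]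
      at hd ⊢
    linarith
  rw [h0, sum3 (T := T) (n := n), Finset.sum_congr rfl hrow, Finset.sum_congr rfl hrowM, hK,
    Finset.sum_add_distrib]
  simp
  ring

/-- semigroup facts for `T w₀` -/
theorem semi : (∃ x y : ℤ, 0 ≤ x ∧ 0 ≤ y ∧ T w₀ = (D + 1) * x + 2 * D * y) ∧
    ∃ x : ℤ, 0 ≤ x ∧ 2 * n - T w₀ = (D - 1) * x := by
  have C := S.core
  have hw := mem_Ms.1 S.hw
  obtain ⟨v, hv1, hv2⟩ := al_pos_iff.1 S.hal
  have hQ : Q w₀ v = 2 * n := by rw [C.symm]; exact hv2
  obtain ⟨y, hy1, hy2⟩ := S5 C S.hn S.hD S.hL hv1.ne hQ hw.1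
  have hna : ¬ G.Adj w₀ y := fun hadj => C.not_c_of_adj S.hn S.hD hadj hw.2 hy2
  have h1 := C.L1 S.hn S.hD hy1 hy2
  rw [ad_of_not hna] at h1
  have hTv := S3 C S.hn S.hD S.hL hv1.ne hQ hw.1
  have h3 := C.L3 S.hn S.hD hv1.ne hQ
  rw [ad_of_adj hv1, ga_hub C S.hn S.hD hTv] at h3
  refine ⟨⟨be G Q n D w₀ y, al G Q n w₀ y, be_nonneg _ _, al_nonneg _ _, by linarith⟩,
    ⟨be G Q n D w₀ v, be_nonneg _ _, by linarith⟩⟩

end Sit

/-- the finite check -/
def chk (n D : ℕ) : Bool :=
  let m := n + D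
  let N1 := 2 * n + D - 1
  let d := 2 * m * n / N1
  let μ := 2 * m * n % N1
  if 2 * n < D * (D - 1) ∧ 2 ≤ μ ∧ μ ≤ 2 * n ∧ d + 2 ≤ m ∧ 2 * n * (m - 1 - d) % (D - 1) = 0 then
    -- no `a` for the case `Cee ≠ ∅`
    ((List.range (n + 1)).all fun a =>
      !(decide (1 ≤ a ∧ 2 * a ≤ μ ∧ μ + (D - 1) * a ≤ 2 * n ∧
        (μ + (D - 1) * a) % (D + 1) = N1 % (D + 1)))) &&
    -- no `η` for the case `Cee = ∅`
    ((List.range n).all fun η =>
      !(decide (1 ≤ η ∧
        2 * η * (1 + 2 * n * (m - 1 - d) / (D - 1)) ≤ (n - η) * (n + η - 1) ∧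
        2 * (2 * n + D - η) * (2 * n + D - η - 1) + (n - η) * (n + η - 1) =
          2 * m * (m - 1) + 2 * (2 * n + D - η) * d)))
  else true

theorem chk_all : ((List.range 37).all fun n => (List.range (n + 1)).all fun D => chk n D) = true := by
  decide +kernel

theorem chk_apply {n D : ℕ} (hn : n < 37) (hD : D ≤ n) : chk n D = true := by
  have h := chk_all
  rw [List.all_eq_true] at h
  have h1 := h n (List.mem_range.2 hn)
  rw [List.all_eq_true] at h1
  exact h1 D (List.mem_range.2 (by omega))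

end LargeMod

end Pool.Agent.ResSpec
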