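import Pool.Agent.ResSpec.LargeC

/-! # Module LARGE, part D: elimination and assembly -/

set_option linter.unusedSectionVars false
set_option linter.unusedVariables false

namespace Pool.Agent.ResSpec

open Finset

universe u

namespace LargeMod

variable {V : Type u} [Fintype V] [DecidableEq V] {G : SimpleGraph V} [DecidableRel G.Adj]
  {n D : ℕ} {Q : V → V → ℤ} {T : V → ℤ}

/-- elimination for `D > n` -/
theorem elim_big {n D d μ a ν η p t x y z : ℤ} (hn : 2 ≤ n) (hDn : n < D)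
    (hμ : μ = 2 * (n + D) * n - (2 * n + D - 1) * d) (h2 : 2 * a ≤ μ) (ha : 0 < a)
    (ht : t = μ + (D - 1) * a) (ht2 : t ≤ 2 * n) (hx : 0 ≤ x) (hy : 0 ≤ y)
    (hxy : t = (D + 1) * x + 2 * D * y) (hz : 0 ≤ z) (hz' : 2 * n - t = (D - 1) * z)
    (hν : (D - 1) * ν = 2 * n * (n + D - 1 - d)) (hη : 1 ≤ η) (hηn : η < n)
    (hp : 2 * p = (n - η) * (n + η - 1)) (hpν : η * (1 + ν) ≤ p) : False := by
  have hy0 : y = 0 := by
    by_contra hne
    have : 1 ≤ y := by omega
    nlinarith
  subst hy0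
  have hx1 : x ≤ 1 := by
    by_contra hcon
    push Not at hcon
    nlinarith
  have ha1 : a = 1 := by
    by_contra hne
    have : 2 ≤ a := by omega
    nlinarith
  subst ha1
  have hx2 : x = 1 := by
    have : 1 ≤ x := by
      by_contra hcon
      push Not at hcon
      have : x = 0 := by omega
      subst this
      linarith
    omega
  subst hx2
  have hμ2 : μ = 2 := by linarith
  have hz0 : z = 0 := by
    by_contra hne
    have : 1 ≤ z := by omega
    nlinarith
  subst hz0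
  have hD : D = 2 * n - 1 := by linarith
  subst hD
  have h1 : (2 * n - 1) * (6 * n + 1 - 4 * d) = 3 := by
    rw [hμ2] at hμ
    nlinarith
  have hn2 : n = 2 := by
    have h3 : 0 < 6 * n + 1 - 4 * d := by
      by_contra hcon
      push Not at hcon
      nlinarith
    by_contra hne
    have : 3 ≤ n := by omega
    nlinarith
  subst hn2
  have hη1 : η = 1 := by omega
  subst hη1
  omega

/-- elimination for `D ≤ n` -/
theorem elim_small {n D η : ℕ} {d μ a ν M t : ℤ} (hn : 2 ≤ n) (hD2 : 2 ≤ D) (hDn : D ≤ n)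
    (hL : 2 * n < D * (D - 1))
    (hμ : μ = 2 * (n + D) * n - (2 * n + D - 1) * d) (hμ2 : 2 ≤ μ) (hμn : μ ≤ 2 * n)
    (hd : d ≤ n + D - 2) (hd0 : 0 ≤ d)
    (h2 : 2 * a ≤ μ) (ha : 0 < a)
    (ht : t = μ + (D - 1) * a) (ht2 : t ≤ 2 * n)
    (hν : (D - 1) * ν = 2 * n * (n + D - 1 - d)) (hη : 1 ≤ η) (hηn : η < n)
    (hpν : 2 * (η * (1 + ν)) ≤ ((n : ℤ) - η) * (n + η - 1))
    (hsize : ((D : ℤ) - 1) * (n + η - 1) ≤ 4 * M) (hM : M ≤ 2 * n + D - η)
    (hcase : ((D : ℤ) + 1 ∣ t - (2 * n + D - 1)) ∨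
      (M = 2 * n + D - η ∧ 2 * (((n : ℤ) + D) * (n + D - 1)) =
        2 * (M * (M - 1 - d)) + (n - η) * (n + η - 1))) : False := by
  have hn37 : n < 37 := by
    by_contra hcon
    push Not at hcon
    have h1 : ((D : ℤ) - 1) * (n - 4) ≤ 8 * n := by
      have : (1 : ℤ) ≤ η := by exact_mod_cast hη
      have h3 : ((D : ℤ) - 1) * n ≤ (D - 1) * (n + η - 1) :=
        mul_le_mul_of_nonneg_left (by linarith) (by have : (2 : ℤ) ≤ D := by exact_mod_cast hD2
                                                    linarith)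
      nlinarith
    have h3 : (37 : ℤ) ≤ n := by exact_mod_cast hcon
    have h4 : (D : ℤ) ≤ 9 := by
      by_contra hc
      push Not at hc
      nlinarith
    have h5 : D ≤ 9 := by exact_mod_cast h4
    have h6 : D * (D - 1) ≤ 9 * 8 := Nat.mul_le_mul h5 (by omega)
    omega
  have hchk := chk_apply hn37 hDn
  -- natural number versions
  obtain ⟨d', rfl⟩ := Int.eq_ofNat_of_zero_le hd0
  obtain ⟨μ', rfl⟩ := Int.eq_ofNat_of_zero_le (show 0 ≤ μ by linarith)
  obtain ⟨a', rfl⟩ := Int.eq_ofNat_of_zero_le ha.le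
  have hD1 : 1 ≤ 2 * n + D := by omega
  have e1 : 2 * (n + D) * n = (2 * n + D - 1) * d' + μ' := by
    have : (2 * (n + D) * n : ℤ) = (2 * n + D - 1) * d' + μ' := by linarith
    have h7 : ((2 * (n + D) * n : ℕ) : ℤ) = (((2 * n + D - 1) * d' + μ' : ℕ) : ℤ) := by
      push_cast [Nat.cast_sub hD1]
      exact this
    exact_mod_cast h7
  have hμlt : μ' < 2 * n + D - 1 := by omega
  have ediv : 2 * (n + D) * n / (2 * n + D - 1) = d' := by
    rw [e1, Nat.mul_add_div (by omega), Nat.div_eq_of_lt hμlt, add_zero]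
  have emod : 2 * (n + D) * n % (2 * n + D - 1) = μ' := by
    rw [e1, Nat.mul_add_mod, Nat.mod_eq_of_lt hμlt]
  have hdm : d' + 2 ≤ n + D := by omega
  -- ν is a natural number
  have hD0 : (0 : ℤ) < (D : ℤ) - 1 := by
    have : (2 : ℤ) ≤ D := by exact_mod_cast hD2
    linarith
  have hν0 : 0 ≤ ν := by
    by_contra hc
    push Not at hc
    have h1 : ((D : ℤ) - 1) * ν < 0 := mul_neg_of_pos_of_neg hD0 hc
    have h2 : (0 : ℤ) ≤ 2 * n * (n + D - 1 - d') := by
      apply mul_nonneg (by positivity)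
      have : ((d' + 2 : ℕ) : ℤ) ≤ ((n + D : ℕ) : ℤ) := by exact_mod_cast hdm
      push_cast at this
      linarith
    linarith
  obtain ⟨ν', rfl⟩ := Int.eq_ofNat_of_zero_le hν0
  have e2 : 2 * n * (n + D - 1 - d') = (D - 1) * ν' := by
    have h7 : ((2 * n * (n + D - 1 - d') : ℕ) : ℤ) = (((D - 1) * ν' : ℕ) : ℤ) := by
      push_cast [Nat.cast_sub (show 1 ≤ D by omega), Nat.cast_sub (show 1 ≤ n + D by omega),
        Nat.cast_sub (show d' ≤ n + D - 1 by omega)]
      linarith
    exact_mod_cast h7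
  have e2mod : 2 * n * (n + D - 1 - d') % (D - 1) = 0 := by
    rw [e2]; exact Nat.mul_mod_right _ _
  have e2div : 2 * n * (n + D - 1 - d') / (D - 1) = ν' := by
    rw [e2]; exact Nat.mul_div_cancel_left _ (by omega)
  unfold chk at hchk
  simp only [ediv, emod, e2mod, e2div] at hchk
  rw [if_pos ⟨hL, by exact_mod_cast hμ2, by exact_mod_cast hμn, hdm, trivial⟩] at hchk
  rw [Bool.and_eq_true, List.all_eq_true, List.all_eq_true] at hchk
  obtain ⟨c1, c2⟩ := hchk
  rcases hcase with hc | ⟨hM', hc⟩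
  · have ha'n : a' < n + 1 := by
      have : 2 * (a' : ℤ) ≤ 2 * n := by linarith
      omega
    have c1' := c1 a' (List.mem_range.2 ha'n)
    simp only [Bool.not_eq_true', decide_eq_false_iff_not] at c1'
    apply c1'
    refine ⟨by exact_mod_cast ha, by exact_mod_cast h2, ?_, ?_⟩
    · have h7 : ((μ' + (D - 1) * a' : ℕ) : ℤ) ≤ ((2 * n : ℕ) : ℤ) := by
        push_cast [Nat.cast_sub (show 1 ≤ D by omega)]
        linarith
      exact_mod_cast h7
    · have h7 : (((D + 1 : ℕ) : ℤ)) ∣ ((μ' + (D - 1) * a' : ℕ) : ℤ) - ((2 * n + D - 1 : ℕ) : ℤ) := by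
        push_cast [Nat.cast_sub (show 1 ≤ D by omega), Nat.cast_sub hD1]
        rw [← ht]
        exact hc
      have h8 : ((2 * n + D - 1 : ℕ) : ℤ) ≡ ((μ' + (D - 1) * a' : ℕ) : ℤ) [ZMOD ((D + 1 : ℕ) : ℤ)] :=
        (Int.modEq_iff_dvd).2 h7
      exact ((Int.natCast_modEq_iff).1 h8).symm
  · have c2' := c2 η (List.mem_range.2 hηn)
    simp only [Bool.not_eq_true', decide_eq_false_iff_not] at c2'
    apply c2'
    refine ⟨hη, ?_, ?_⟩
    · have h7 : ((2 * η * (1 + ν') : ℕ) : ℤ) ≤ (((n - η) * (n + η - 1) : ℕ) : ℤ) := by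
        push_cast [Nat.cast_sub hηn.le, Nat.cast_sub (show 1 ≤ n + η by omega)]
        linarith
      exact_mod_cast h7
    · have h7 : ((2 * (2 * n + D - η) * (2 * n + D - η - 1) + (n - η) * (n + η - 1) : ℕ) : ℤ) =
          ((2 * (n + D) * (n + D - 1) + 2 * (2 * n + D - η) * d' : ℕ) : ℤ) := by
        push_cast [Nat.cast_sub hηn.le, Nat.cast_sub (show 1 ≤ n + η by omega),
          Nat.cast_sub (show 1 ≤ n + D by omega), Nat.cast_sub (show η ≤ 2 * n + D by omega),
          Nat.cast_sub (show 1 ≤ 2 * n + D - η by omega)]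
        rw [hM'] at hc
        linarith
      exact_mod_cast h7

/-- no middle vertex has an `a`-partner -/
theorem no_mid (C : Core n D G Q T) (hn : 2 ≤ n) (hD : 2 ≤ D) (hL : 2 * n < D * (D - 1))
    {w v : V} (hwv : w ≠ v) (hQ : Q w v = 2 * n) (h0 : 0 ≤ T w) : False := by
  obtain ⟨w₀, h1, h2, h3⟩ := S6b C hn hD hL hwv hQ h0
  have S : Sit n D G Q T w₀ (G.degree w₀) (2 * (n + D) * n - (2 * n + D - 1) * G.degree w₀) :=
    ⟨C, hn, hD, hL, mem_Ms.2 ⟨h1, h2⟩, h3, rfl, rfl⟩
  obtain ⟨ν, hν0, hν1, hν2⟩ := S.exists_nu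
  obtain ⟨hs1, hs2, hs3⟩ := S.size
  have hp := S.count_a
  have hp' : 2 * ∑ z ∈ Ms T n, al G Q n z z =
      ((n : ℤ) - (Hs T).card) * (n + (Hs T).card - 1) := by linarith
  obtain ⟨⟨x, y, hx, hy, hxy⟩, ⟨z, hz, hz'⟩⟩ := S.semi
  have h5 : (2 : ℤ) ≤ n := by exact_mod_cast hn
  rcases lt_or_ge n D with hDn | hDn
  · have h6 : (n : ℤ) < D := by exact_mod_cast hDn
    exact elim_big h5 h6 rfl (S.two_al S.hw) h3 (S.Tw S.hw) h2 hx hy hxy hz hz' hν1 hs3 hs2
      hp' hν2
  · have hcard := card3 (T := T) (n := n) (V := V)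
    rw [C.card] at hcard
    push_cast at hcard
    have hK0 : (0 : ℤ) ≤ (Ks T n).card := by positivity
    refine elim_small (η := (Hs T).card) (M := (Ms T n).card) (t := T w₀)
      hn hD hDn hL rfl S.two_le_mu S.mu_le S.d_le (by positivity)
      (S.two_al S.hw) h3 (S.Tw S.hw) h2 hν1 (by exact_mod_cast hs3) (by exact_mod_cast hs2)
      (by linarith) hs1 (by linarith) ?_
    rcases (Ks T n).eq_empty_or_nonempty with hK | hK
    · right
      refine ⟨?_, ?_⟩
      · rw [hK] at hcard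
        simp only [card_empty, Nat.cast_zero, add_zero] at hcard
        linarith
      · have := S.count_c hK
        linarith
    · left
      exact S.congr_of_K hK

end LargeMod

/-- if all `a`-pairs are inside `Hub`, then `G` is complete bipartite -/
theorem finish_of_hub {V : Type u} [Fintype V] [DecidableEq V] {G : SimpleGraph V}
    [DecidableRel G.Adj] {n D : ℕ} {Q : V → V → ℤ} {T : V → ℤ}
    (C : Core n D G Q T) (hn : 2 ≤ n) (hD : 2 ≤ D)
    (h : ∀ w v, w ≠ v → Q w v = 2 * n → T w < 0) :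
    Nonempty (G ≃g completeBipartiteGraph (Fin (n + D)) (Fin n)) := by
  classical
  -- count
  have h1 : ∀ v, ((LargeMod.pa Q n v).card : ℤ) =
      if T v < 0 then ((LargeMod.Hs T).card : ℤ) - 1 else 0 := by
    intro v
    split_ifs with hv
    · have : LargeMod.pa Q n v = (LargeMod.Hs T).erase v := by
        ext z
        rw [LargeMod.mem_pa, Finset.mem_erase, LargeMod.mem_Hs]
        constructor
        · rintro ⟨h1, h2⟩
          exact ⟨h1.symm, h z v h1.symm (by rw [C.symm]; exact h2)⟩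
        · rintro ⟨h1, h2⟩
          exact ⟨h1.symm, C.hub_hub hn hD h1.symm hv h2⟩
      rw [this, Finset.card_erase_of_mem (LargeMod.mem_Hs.2 hv)]
      have : 1 ≤ (LargeMod.Hs T).card := Finset.card_pos.2 ⟨v, LargeMod.mem_Hs.2 hv⟩
      push_cast [Nat.cast_sub this]
      ring
    · have : LargeMod.pa Q n v = ∅ := by
        rw [Finset.eq_empty_iff_forall_notMem]
        intro z hz
        rw [LargeMod.mem_pa] at hz
        exact hv (h v z hz.1 hz.2)
      rw [this]; simp
  have h2 := LargeMod.sum_pa C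
  have h3 : ((n * (n - 1) : ℕ) : ℤ) =
      ((LargeMod.Hs T).card : ℤ) * ((LargeMod.Hs T).card - 1) := by
    rw [← h2]
    push_cast
    rw [Finset.sum_congr rfl (fun v _ => h1 v), ← Finset.sum_filter, Finset.sum_const,
      nsmul_eq_mul]
    rfl
  have hcard : (LargeMod.Hs T).card = n := by
    have h5 : (2 : ℤ) ≤ n := by exact_mod_cast hn
    push_cast [Nat.cast_sub (show 1 ≤ n by omega)] at h3
    have h6 : (((LargeMod.Hs T).card : ℤ) - n) * ((LargeMod.Hs T).card + n - 1) = 0 := by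
      linarith
    rcases mul_eq_zero.1 h6 with h7 | h7
    · have : ((LargeMod.Hs T).card : ℤ) = n := by linarith
      exact_mod_cast this
    · exfalso
      have : (0 : ℤ) ≤ (LargeMod.Hs T).card := by positivity
      linarith
  have hcross : ∀ u ∈ LargeMod.Hs T, ∀ v, v ∉ LargeMod.Hs T → Q u v = 2 * n + D - 1 := by
    intro u hu v hv
    rw [LargeMod.mem_Hs] at hu hv
    have huv : u ≠ v := by rintro rfl; exact hv hu
    rcases C.vals u v huv with h4 | h4 | h4
    · exact absurd (h v u huv.symm (by rw [C.symm]; exact h4)) hv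
    · exact h4
    · exact absurd h4 (C.hub_not_c hn hD huv hu)
  -- count the c-pairs
  have hY : (LargeMod.Hs T)ᶜ.card = n + D := by
    rw [Finset.card_compl, C.card, hcard]; omega
  have hsub : (univ : Finset (V × V)).filter (fun p => p.1 ≠ p.2 ∧ Q p.1 p.2 = 2 * n + 2 * D) ⊆
      (LargeMod.Hs T)ᶜ.offDiag := by
    intro p hp
    rw [Finset.mem_filter] at hp
    obtain ⟨_, h4, h5⟩ := hp
    rw [Finset.mem_offDiag, Finset.mem_compl, Finset.mem_compl, LargeMod.mem_Hs, LargeMod.mem_Hs]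
    refine ⟨fun h6 => C.hub_not_c hn hD h4 h6 h5,
      fun h6 => C.hub_not_c hn hD h4.symm h6 (by rw [C.symm]; exact h5), h4⟩
  have heq := Finset.eq_of_subset_of_card_le hsub (by
    rw [Finset.offDiag_card, hY, C.cntC, Nat.mul_sub, mul_one])
  apply fin_proof V G n D Q T hn hD C (LargeMod.Hs T) hcard
  · intro u hu v hv huv
    exact C.hub_hub hn hD huv (LargeMod.mem_Hs.1 hu) (LargeMod.mem_Hs.1 hv)
  · exact hcross
  · intro u hu v hv huv
    have : (u, v) ∈ (LargeMod.Hs T)ᶜ.offDiag := by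
      rw [Finset.mem_offDiag, Finset.mem_compl, Finset.mem_compl]
      exact ⟨hu, hv, huv⟩
    rw [← heq, Finset.mem_filter] at this
    exact this.2.2

theorem large_proof : Stmt_Large.{u} := by
  intro V _ _ G _ n D Q T hn hD hL C
  apply finish_of_hub C hn hD
  intro w v hwv hQ
  by_contra hcon
  push Not at hcon
  exact LargeMod.no_mid C hn hD hL hwv hQ hcon

end Pool.Agent.ResSpec
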