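import Pool.Agent.ResSpec.Main

/-!
# Complete bipartite graphs and the resistance spectrum: `m = n + 2` or `(m-n)(m-n-1) > 2n`

`resSpec G` is the multiset of the resistance distances `(e_u - e_v)ᵀ L⁺ (e_u - e_v)` over all
unordered pairs of distinct vertices (`Pool.Agent.ResSpec.Defs`; that `pinvLap G` is the
Moore-Penrose inverse of the Laplacian of a connected graph is
`Pool.Agent.ResSpec.LapMod.penrose`).
-/

namespace Pool.Agent.Results.MP_23a9ba_co.LargeGap

open Pool.Agent.ResSpec

/-- If `n ≥ 2` and `m = n + 2`, or `m ≥ n + 2` and `(m - n)(m - n - 1) > 2 n`, then every connected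
graph with the resistance spectrum of `K_{m,n}` is isomorphic to `K_{m,n}`. -/
theorem result (m n : ℕ) (hn : 2 ≤ n) (hm : n + 2 ≤ m)
    (h : m = n + 2 ∨ 2 * n < (m - n) * (m - n - 1))
    {V : Type*} [Fintype V] [DecidableEq V] (H : SimpleGraph V) (hH : H.Connected)
    (hRS : resSpec H = resSpec (completeBipartiteGraph (Fin m) (Fin n))) :
    Nonempty (H ≃g completeBipartiteGraph (Fin m) (Fin n)) :=
  drs_of_gap m n hn hm h H hH hRS

end Pool.Agent.Results.MP_23a9ba_co.LargeGap
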