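import Pool.Agent.ResSpec.Defs

/-!
# Module TWO: the case `D = 2`
-/

namespace Pool.Agent.ResSpec.Two

open Finset SimpleGraph

universe u

variable {V : Type u} [Fintype V] [DecidableEq V]

/-- Number of neighbours `w` of `u` with `Q w v = k`. -/
def cnt (G : SimpleGraph V) [DecidableRel G.Adj] (Q : V → V → ℤ) (k : ℤ) (u v : V) : ℤ :=
  (((G.neighborFinset u).filter (fun w => Q w v = k)).card : ℤ)

/-- Adjacency indicator. -/
def adj (G : SimpleGraph V) [DecidableRel G.Adj] (u v : V) : ℤ := if G.Adj u v then 1 else 0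

section

variable {G : SimpleGraph V} [DecidableRel G.Adj] {n : ℕ} {Q : V → V → ℤ} {T : V → ℤ}

omit [DecidableEq V] in
theorem cnt_nonneg (k : ℤ) (u v : V) : 0 ≤ cnt G Q k u v := by
  unfold cnt
  positivity

omit [DecidableEq V] in
theorem cnt_eq_sum (k : ℤ) (u v : V) :
    cnt G Q k u v = ∑ w ∈ G.neighborFinset u, (if Q w v = k then (1 : ℤ) else 0) := by
  unfold cnt
  rw [Finset.card_filter]
  push_cast
  rfl

theorem vals' (_hn : 2 ≤ n) (h : Core n 2 G Q T) (w v : V) :
    (w = v ∧ Q w v = 0) ∨ (w ≠ v ∧ Q w v = 2 * n) ∨ (w ≠ v ∧ Q w v = 2 * n + 1) ∨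
      (w ≠ v ∧ Q w v = 2 * n + 4) := by
  by_cases hwv : w = v
  · left
    subst hwv
    exact ⟨rfl, h.diag w⟩
  · right
    rcases h.vals w v hwv with h1 | h1 | h1
    · exact Or.inl ⟨hwv, h1⟩
    · refine Or.inr (Or.inl ⟨hwv, ?_⟩)
      rw [h1]
      push_cast
      ring
    · refine Or.inr (Or.inr ⟨hwv, ?_⟩)
      rw [h1]
      push_cast
      ring

theorem sum_cnt (hn : 2 ≤ n) (h : Core n 2 G Q T) (u v : V) :
    ∑ w ∈ G.neighborFinset u, Q w v = 2 * n * cnt G Q (2 * n) u v +
      (2 * n + 1) * cnt G Q (2 * n + 1) u v + (2 * n + 4) * cnt G Q (2 * n + 4) u v := by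
  have hn' : (2 : ℤ) ≤ n := by exact_mod_cast hn
  rw [cnt_eq_sum, cnt_eq_sum, cnt_eq_sum, Finset.mul_sum, Finset.mul_sum, Finset.mul_sum,
    ← Finset.sum_add_distrib, ← Finset.sum_add_distrib]
  apply Finset.sum_congr rfl
  intro w _
  rcases vals' hn h w v with h1 | h1 | h1 | h1
  · rw [h1.2, if_neg (by omega), if_neg (by omega), if_neg (by omega)]
    ring
  · rw [h1.2, if_pos rfl, if_neg (by omega), if_neg (by omega)]
    ring
  · rw [h1.2, if_neg (by omega), if_pos rfl, if_neg (by omega)]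
    ring
  · rw [h1.2, if_neg (by omega), if_neg (by omega), if_pos rfl]
    ring

theorem deg_cnt (hn : 2 ≤ n) (h : Core n 2 G Q T) (u v : V) :
    (G.degree u : ℤ) = cnt G Q (2 * n) u v + cnt G Q (2 * n + 1) u v +
      cnt G Q (2 * n + 4) u v + adj G u v := by
  have hn' : (2 : ℤ) ≤ n := by exact_mod_cast hn
  have hadj : adj G u v = ∑ w ∈ G.neighborFinset u, (if w = v then (1 : ℤ) else 0) := by
    unfold adj
    rw [Finset.sum_ite_eq']
    simp
  have hdeg : (G.degree u : ℤ) = ∑ w ∈ G.neighborFinset u, (1 : ℤ) := by simp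
  rw [hadj, hdeg, cnt_eq_sum, cnt_eq_sum, cnt_eq_sum, ← Finset.sum_add_distrib,
    ← Finset.sum_add_distrib, ← Finset.sum_add_distrib]
  apply Finset.sum_congr rfl
  intro w _
  rcases vals' hn h w v with h1 | h1 | h1 | h1
  · rw [h1.2, if_neg (by omega), if_neg (by omega), if_neg (by omega), if_pos h1.1]
    ring
  · rw [h1.2, if_pos rfl, if_neg (by omega), if_neg (by omega), if_neg h1.1]
    ring
  · rw [h1.2, if_neg (by omega), if_pos rfl, if_neg (by omega), if_neg h1.1]
    ring
  · rw [h1.2, if_neg (by omega), if_neg (by omega), if_pos rfl, if_neg h1.1]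
    ring

theorem key' (h : Core n 2 G Q T) {u v : V} (huv : u ≠ v) :
    T u = (G.degree u : ℤ) * Q u v - ∑ w ∈ G.neighborFinset u, Q w v := by
  rw [h.key u v huv, Finset.sum_sub_distrib, Finset.sum_const, card_neighborFinset_eq_degree]
  simp

/-- c-pair -/
theorem L1 (hn : 2 ≤ n) (h : Core n 2 G Q T) {u v : V} (huv : u ≠ v) (hq : Q u v = 2 * n + 4) :
    T u = (2 * n + 4) * adj G u v + 3 * cnt G Q (2 * n + 1) u v + 4 * cnt G Q (2 * n) u v := by
  rw [key' h huv, sum_cnt hn h, deg_cnt hn h u v, hq]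
  ring

/-- b-pair -/
theorem L2 (hn : 2 ≤ n) (h : Core n 2 G Q T) {u v : V} (huv : u ≠ v) (hq : Q u v = 2 * n + 1) :
    T u = (2 * n + 1) * adj G u v + cnt G Q (2 * n) u v - 3 * cnt G Q (2 * n + 4) u v := by
  rw [key' h huv, sum_cnt hn h, deg_cnt hn h u v, hq]
  ring

/-- a-pair -/
theorem L3 (hn : 2 ≤ n) (h : Core n 2 G Q T) {u v : V} (huv : u ≠ v) (hq : Q u v = 2 * n) :
    T u = 2 * n * adj G u v - cnt G Q (2 * n + 1) u v - 4 * cnt G Q (2 * n + 4) u v := by
  rw [key' h huv, sum_cnt hn h, deg_cnt hn h u v, hq]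
  ring

theorem F0 (hn : 2 ≤ n) (h : Core n 2 G Q T) (u : V) :
    T u = 2 * (n + 2) * n - 2 * n * cnt G Q (2 * n) u u - (2 * n + 1) * cnt G Q (2 * n + 1) u u -
      (2 * n + 4) * cnt G Q (2 * n + 4) u u := by
  have h1 := h.tdef u
  have h2 : ∑ w ∈ G.neighborFinset u, Q u w = ∑ w ∈ G.neighborFinset u, Q w u :=
    Finset.sum_congr rfl (fun w _ => h.symm u w)
  rw [h2, sum_cnt hn h] at h1
  rw [h1]
  push_cast
  ring

theorem deg_self (hn : 2 ≤ n) (h : Core n 2 G Q T) (u : V) :
    (G.degree u : ℤ) = cnt G Q (2 * n) u u + cnt G Q (2 * n + 1) u u +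
      cnt G Q (2 * n + 4) u u := by
  have := deg_cnt hn h u u
  rw [this]
  unfold adj
  simp

omit [Fintype V] [DecidableEq V] in
theorem adj_one {u v : V} (h : G.Adj u v) : adj G u v = 1 := by
  unfold adj
  simp [h]

omit [Fintype V] [DecidableEq V] in
theorem adj_zero {u v : V} (h : ¬ G.Adj u v) : adj G u v = 0 := by
  unfold adj
  simp [h]

omit [Fintype V] [DecidableEq V] in
theorem adj_le_one (u v : V) : adj G u v ≤ 1 := by
  unfold adj
  split_ifs <;> simp

omit [Fintype V] [DecidableEq V] in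
theorem adj_nonneg (u v : V) : 0 ≤ adj G u v := by
  unfold adj
  split_ifs <;> simp

omit [DecidableEq V] in
theorem cnt_pos {k : ℤ} {u v : V} (h : 0 < cnt G Q k u v) : ∃ w, G.Adj u w ∧ Q w v = k := by
  unfold cnt at h
  have h1 : 0 < ((G.neighborFinset u).filter (fun w => Q w v = k)).card := by exact_mod_cast h
  obtain ⟨w, hw⟩ := Finset.card_pos.mp h1
  rw [Finset.mem_filter, mem_neighborFinset] at hw
  exact ⟨w, hw⟩

omit [DecidableEq V] in
theorem cnt_eq_zero {k : ℤ} {u v : V} (h : ∀ w, G.Adj u w → Q w v ≠ k) : cnt G Q k u v = 0 := by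
  by_contra hne
  have h1 : 0 < cnt G Q k u v := lt_of_le_of_ne (cnt_nonneg k u v) (Ne.symm hne)
  obtain ⟨w, hw1, hw2⟩ := cnt_pos h1
  exact h w hw1 hw2

/-- `T u ≤ 2n` implies no c-edge at `u`. -/
theorem low_no_c (hn : 2 ≤ n) (h : Core n 2 G Q T) {u w : V} (hT : T u ≤ 2 * n)
    (huw : G.Adj u w) : Q u w ≠ 2 * n + 4 := by
  intro hq
  have h1 := L1 hn h huw.ne hq
  rw [adj_one huw] at h1
  have h2 := cnt_nonneg (G := G) (Q := Q) (2 * n + 1) u w
  have h3 := cnt_nonneg (G := G) (Q := Q) (2 * n) u w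
  linarith

theorem low_c_zero (hn : 2 ≤ n) (h : Core n 2 G Q T) {u : V} (hT : T u ≤ 2 * n) :
    cnt G Q (2 * n + 4) u u = 0 := by
  apply cnt_eq_zero
  intro w hw hq
  rw [h.symm] at hq
  exact low_no_c hn h hT hw hq

theorem low_deg (hn : 2 ≤ n) (h : Core n 2 G Q T) {u : V} (hT : T u ≤ 2 * n) :
    (n : ℤ) + 1 ≤ G.degree u := by
  have h1 := F0 hn h u
  have h2 := deg_self hn h u
  rw [low_c_zero hn h hT] at h1 h2
  have h3 := cnt_nonneg (G := G) (Q := Q) (2 * n) u u
  have h4 := cnt_nonneg (G := G) (Q := Q) (2 * n + 1) u u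
  have hn' : (2 : ℤ) ≤ n := by exact_mod_cast hn
  by_contra hlt
  push Not at hlt
  generalize cnt G Q (2 * n) u u = a at *
  generalize cnt G Q (2 * n + 1) u u = b at *
  have h5 : a + b ≤ n := by linarith
  have h6 : 2 * (n : ℤ) * (a + b) ≤ 2 * n * n := by
    apply mul_le_mul_of_nonneg_left h5
    linarith
  nlinarith

/-- `T u > 2n` implies no a-partner. -/
theorem cee_no_a (hn : 2 ≤ n) (h : Core n 2 G Q T) {u : V} (hT : 2 * n < T u) (v : V) :
    Q u v ≠ 2 * n := by
  intro hq
  have huv : u ≠ v := by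
    rintro rfl
    rw [h.diag] at hq
    omega
  have h1 := L3 hn h huv hq
  have h2 := cnt_nonneg (G := G) (Q := Q) (2 * n + 1) u v
  have h3 := cnt_nonneg (G := G) (Q := Q) (2 * n + 4) u v
  have h4 := adj_le_one (G := G) u v
  have hn' : (2 : ℤ) ≤ n := by exact_mod_cast hn
  have h5 : 2 * (n : ℤ) * adj G u v ≤ 2 * n * 1 := by
    apply mul_le_mul_of_nonneg_left h4
    linarith
  linarith

theorem cee_a_zero (hn : 2 ≤ n) (h : Core n 2 G Q T) {v : V} (hT : 2 * n < T v) (u : V) :
    cnt G Q (2 * n) u v = 0 := by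
  apply cnt_eq_zero
  intro w _ hq
  rw [h.symm] at hq
  exact cee_no_a hn h hT w hq

theorem cee_deg (hn : 2 ≤ n) (h : Core n 2 G Q T) {u : V} (hT : 2 * n < T u) :
    (G.degree u : ℤ) ≤ n := by
  have h1 := F0 hn h u
  have h2 := deg_self hn h u
  rw [cee_a_zero hn h hT u] at h1 h2
  have h3 := cnt_nonneg (G := G) (Q := Q) (2 * n + 4) u u
  have h4 := cnt_nonneg (G := G) (Q := Q) (2 * n + 1) u u
  have hn' : (2 : ℤ) ≤ n := by exact_mod_cast hn
  by_contra hlt
  push Not at hlt
  generalize cnt G Q (2 * n + 1) u u = b at *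
  generalize cnt G Q (2 * n + 4) u u = c at *
  have h5 : (n : ℤ) + 1 ≤ b + c := by linarith
  have h6 : (2 * (n : ℤ) + 1) * (n + 1) ≤ (2 * n + 1) * (b + c) := by
    apply mul_le_mul_of_nonneg_left h5
    linarith
  nlinarith

/-- Cee-Cee pairs are c-pairs. -/
theorem cee_cee (hn : 2 ≤ n) (h : Core n 2 G Q T) {u v : V} (huv : u ≠ v) (hu : 2 * n < T u)
    (hv : 2 * n < T v) : Q u v = 2 * n + 4 := by
  have hn' : (2 : ℤ) ≤ n := by exact_mod_cast hn
  rcases vals' hn h u v with h1 | h1 | h1 | h1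
  · exact absurd h1.1 huv
  · exact absurd h1.2 (cee_no_a hn h hu v)
  · exfalso
    have h2 := L2 hn h huv h1.2
    rw [cee_a_zero hn h hv u] at h2
    have h3 := cnt_nonneg (G := G) (Q := Q) (2 * n + 4) u v
    by_cases hadj : G.Adj u v
    · rw [adj_one hadj] at h2
      have h4 : cnt G Q (2 * n + 4) u v = 0 := by omega
      rw [h4] at h2
      have hT : T u = 2 * n + 1 := by linarith
      -- no c-edge at u
      have h5 : cnt G Q (2 * n + 4) u u = 0 := by
        apply cnt_eq_zero
        intro w hw hq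
        rw [h.symm] at hq
        have h6 := L1 hn h hw.ne hq
        rw [adj_one hw] at h6
        have h7 := cnt_nonneg (G := G) (Q := Q) (2 * n + 1) u w
        have h8 := cnt_nonneg (G := G) (Q := Q) (2 * n) u w
        linarith
      have h9 := F0 hn h u
      rw [cee_a_zero hn h hu u, h5, hT] at h9
      generalize cnt G Q (2 * n + 1) u u = b at *
      -- (2n+1)(b + 1) = 2n(n+2) = (2n+1)(n+1) + (n-1)
      have h10 : (2 * (n : ℤ) + 1) * (b - n) = n - 1 := by linarith
      rcases le_or_gt (b - n) 0 with h11 | h11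
      · nlinarith
      · nlinarith
    · rw [adj_zero hadj] at h2
      linarith
  · exact h1.2

/-- Low neighbours. -/
def lowN (G : SimpleGraph V) [DecidableRel G.Adj] (T : V → ℤ) (n : ℕ) (u : V) : Finset V :=
  (G.neighborFinset u).filter (fun w => T w ≤ 2 * n)

/-- High neighbours. -/
def highN (G : SimpleGraph V) [DecidableRel G.Adj] (T : V → ℤ) (n : ℕ) (u : V) : Finset V :=
  (G.neighborFinset u).filter (fun w => ¬ T w ≤ 2 * n)

omit [DecidableEq V] in
theorem mem_lowN {u w : V} : w ∈ lowN G T n u ↔ G.Adj u w ∧ T w ≤ 2 * n := by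
  unfold lowN
  rw [Finset.mem_filter, mem_neighborFinset]

omit [DecidableEq V] in
theorem mem_highN {u w : V} : w ∈ highN G T n u ↔ G.Adj u w ∧ 2 * n < T w := by
  unfold highN
  rw [Finset.mem_filter, mem_neighborFinset, not_le]

omit [DecidableEq V] in
theorem low_high (u : V) : ((lowN G T n u).card : ℤ) + (highN G T n u).card = G.degree u := by
  have := Finset.card_filter_add_card_filter_not (s := G.neighborFinset u)
    (fun w => T w ≤ 2 * (n : ℤ))
  unfold lowN highN
  rw [← card_neighborFinset_eq_degree]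
  exact_mod_cast this

theorem cee_low_b (hn : 2 ≤ n) (h : Core n 2 G Q T) {u w : V} (hu : 2 * n < T u)
    (hw : T w ≤ 2 * n) (hadj : G.Adj u w) : Q u w = 2 * n + 1 := by
  rcases vals' hn h u w with h1 | h1 | h1 | h1
  · exact absurd h1.1 hadj.ne
  · exact absurd h1.2 (cee_no_a hn h hu w)
  · exact h1.2
  · exfalso
    have h2 := h1.2
    rw [h.symm] at h2
    exact low_no_c hn h hw hadj.symm h2

theorem cnt_b_self (hn : 2 ≤ n) (h : Core n 2 G Q T) {u : V} (hu : 2 * n < T u) :
    cnt G Q (2 * n + 1) u u = (lowN G T n u).card := by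
  unfold cnt
  congr 2
  ext w
  rw [Finset.mem_filter, mem_neighborFinset, mem_lowN]
  constructor
  · rintro ⟨h1, h2⟩
    refine ⟨h1, ?_⟩
    by_contra h3
    push Not at h3
    have h4 := cee_cee hn h h1.ne hu h3
    rw [h.symm, h2] at h4
    omega
  · rintro ⟨h1, h2⟩
    refine ⟨h1, ?_⟩
    rw [h.symm]
    exact cee_low_b hn h hu h2 h1

theorem cnt_c_self (hn : 2 ≤ n) (h : Core n 2 G Q T) {u : V} (hu : 2 * n < T u) :
    cnt G Q (2 * n + 4) u u = (highN G T n u).card := by
  unfold cnt
  congr 2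
  ext w
  rw [Finset.mem_filter, mem_neighborFinset, mem_highN]
  constructor
  · rintro ⟨h1, h2⟩
    refine ⟨h1, ?_⟩
    by_contra h3
    push Not at h3
    have h4 := cee_low_b hn h hu h3 h1
    rw [h.symm, h2] at h4
    omega
  · rintro ⟨h1, h2⟩
    refine ⟨h1, ?_⟩
    rw [h.symm]
    exact cee_cee hn h h1.ne hu h2

theorem cee_T (hn : 2 ≤ n) (h : Core n 2 G Q T) {u : V} (hu : 2 * n < T u) :
    T u = 2 * (n + 2) * n - (2 * n + 1) * (lowN G T n u).card -
      (2 * n + 4) * (highN G T n u).card := by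
  rw [F0 hn h u, cnt_b_self hn h hu, cnt_c_self hn h hu, cee_a_zero hn h hu]
  ring

/-- a-partners of low neighbour `w` inside `N(u)` are low and different from `w`. -/
theorem alpha_le (hn : 2 ≤ n) (h : Core n 2 G Q T) {u w : V} (hw : w ∈ lowN G T n u) :
    cnt G Q (2 * n) u w + 1 ≤ (lowN G T n u).card := by
  have hn' : (2 : ℤ) ≤ n := by exact_mod_cast hn
  have hsub : (G.neighborFinset u).filter (fun x => Q x w = 2 * n) ⊆ (lowN G T n u).erase w := by
    intro x hx
    rw [Finset.mem_filter, mem_neighborFinset] at hx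
    rw [Finset.mem_erase, mem_lowN]
    refine ⟨?_, hx.1, ?_⟩
    · rintro rfl
      have := hx.2
      rw [h.diag] at this
      omega
    · by_contra h3
      push Not at h3
      exact cee_no_a hn h h3 w hx.2
  have h1 := Finset.card_le_card hsub
  rw [Finset.card_erase_of_mem hw] at h1
  have h2 : 0 < (lowN G T n u).card := Finset.card_pos.mpr ⟨w, hw⟩
  unfold cnt
  omega

theorem cee_full (hn : 2 ≤ n) (h : Core n 2 G Q T) {u w : V} (hu : 2 * n < T u)
    (hw : w ∈ lowN G T n u) :
    ((lowN G T n u).card : ℤ) + (highN G T n u).card = n ∧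
      T u = 3 * (lowN G T n u).card := by
  have hn' : (2 : ℤ) ≤ n := by exact_mod_cast hn
  have hw' := mem_lowN.mp hw
  have h1 := cee_T hn h hu
  have h2 := L2 hn h hw'.1.ne (cee_low_b hn h hu hw'.2 hw'.1)
  rw [adj_one hw'.1] at h2
  have h3 := alpha_le hn h hw
  have h4 := cnt_nonneg (G := G) (Q := Q) (2 * n + 4) u w
  have h5 := low_high (G := G) (T := T) (n := n) u
  have h6 := cee_deg hn h hu
  rw [← h5] at h6
  have h7 : 0 < (lowN G T n u).card := Finset.card_pos.mpr ⟨w, hw⟩
  have h8 : (0 : ℤ) ≤ (highN G T n u).card := by positivity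
  have h7' : (0 : ℤ) < (lowN G T n u).card := by exact_mod_cast h7
  generalize ((lowN G T n u).card : ℤ) = a at *
  generalize ((highN G T n u).card : ℤ) = b at *
  generalize cnt G Q (2 * n) u w = al at *
  generalize cnt G Q (2 * n + 4) u w = ga at *
  have h9 : (n : ℤ) ≤ a + b := by
    by_contra hlt
    push Not at hlt
    have h10 : a + b ≤ n - 1 := by linarith
    have h11 : 2 * ((n : ℤ) + 2) * n - (2 * n + 1) * a - (2 * n + 4) * b ≤ 2 * n + a := by
      linarith
    -- n(n+1) ≤ (n+1) a + (n+2) b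
    have h12 : (n : ℤ) * (n + 1) ≤ (n + 1) * (a + b) + b := by linarith
    have h13 : ((n : ℤ) + 1) * (a + b) ≤ (n + 1) * (n - 1) := by
      apply mul_le_mul_of_nonneg_left h10
      linarith
    linarith
  have h10 : a + b = n := le_antisymm h6 h9
  refine ⟨h10, ?_⟩
  rw [h1, ← h10]
  ring

theorem kappa (hn : 2 ≤ n) (h : Core n 2 G Q T) {u x : V} (hu : 2 * n < T u)
    (hx : x ∈ highN G T n u) (hne : (lowN G T n u).Nonempty) :
    3 * (∑ w ∈ lowN G T n u, if Q w x = 2 * n + 4 then (1 : ℤ) else 0) = 2 * n + 4 := by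
  obtain ⟨w₀, hw₀⟩ := hne
  obtain ⟨_, hT⟩ := cee_full hn h hu hw₀
  have hx' := mem_highN.mp hx
  have h1 := L1 hn h hx'.1.ne (cee_cee hn h hx'.1.ne hu hx'.2)
  rw [adj_one hx'.1, cee_a_zero hn h hx'.2 u] at h1
  have h2 : ∀ w ∈ lowN G T n u, Q w x = 2 * n + 1 ∨ Q w x = 2 * n + 4 := by
    intro w hw
    have hw' := mem_lowN.mp hw
    rcases vals' hn h w x with h1 | h1 | h1 | h1
    · exfalso
      rw [h1.1] at hw'
      linarith [hw'.2, hx'.2]
    · exfalso
      have := h1.2
      rw [h.symm] at this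
      exact cee_no_a hn h hx'.2 w this
    · exact Or.inl h1.2
    · exact Or.inr h1.2
  have h3 : cnt G Q (2 * n + 1) u x =
      ∑ w ∈ lowN G T n u, if Q w x = 2 * n + 1 then (1 : ℤ) else 0 := by
    unfold cnt
    rw [← Finset.sum_boole]
    have : (G.neighborFinset u).filter (fun w => Q w x = 2 * n + 1) =
        (lowN G T n u).filter (fun w => Q w x = 2 * n + 1) := by
      ext w
      rw [Finset.mem_filter, Finset.mem_filter, mem_neighborFinset, mem_lowN]
      constructor
      · rintro ⟨h4, h5⟩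
        refine ⟨⟨h4, ?_⟩, h5⟩
        by_contra h6
        push Not at h6
        by_cases hwx : w = x
        · rw [hwx, h.diag] at h5
          omega
        · have := cee_cee hn h hwx h6 hx'.2
          omega
      · rintro ⟨⟨h4, _⟩, h5⟩
        exact ⟨h4, h5⟩
    rw [Finset.sum_boole, Finset.sum_boole, this]
  have h4 : ((lowN G T n u).card : ℤ) =
      (∑ w ∈ lowN G T n u, if Q w x = 2 * n + 1 then (1 : ℤ) else 0) +
      (∑ w ∈ lowN G T n u, if Q w x = 2 * n + 4 then (1 : ℤ) else 0) := by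
    rw [← Finset.sum_add_distrib, Finset.card_eq_sum_ones]
    push_cast
    apply Finset.sum_congr rfl
    intro w hw
    rcases h2 w hw with h5 | h5
    · rw [if_pos h5, if_neg (by omega)]
      ring
    · rw [if_pos h5, if_neg (by omega)]
      ring
  linarith

theorem lambda (hn : 2 ≤ n) (h : Core n 2 G Q T) {u w : V} (hu : 2 * n < T u)
    (hw : w ∈ lowN G T n u) :
    3 * (∑ x ∈ highN G T n u, if Q w x = 2 * n + 4 then (1 : ℤ) else 0) ≤
      2 * (highN G T n u).card := by
  obtain ⟨hfull, hT⟩ := cee_full hn h hu hw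
  have hw' := mem_lowN.mp hw
  have h1 := L2 hn h hw'.1.ne (cee_low_b hn h hu hw'.2 hw'.1)
  rw [adj_one hw'.1] at h1
  have hd := deg_cnt hn h u w
  rw [adj_one hw'.1, ← low_high (G := G) (T := T) (n := n) u, hfull] at hd
  have h2 : ∀ x ∈ highN G T n u, Q w x = 2 * n + 1 ∨ Q w x = 2 * n + 4 := by
    intro x hx
    have hx' := mem_highN.mp hx
    rcases vals' hn h w x with h1 | h1 | h1 | h1
    · exfalso
      rw [h1.1] at hw'
      linarith [hw'.2, hx'.2]
    · exfalso
      have := h1.2
      rw [h.symm] at this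
      exact cee_no_a hn h hx'.2 w this
    · exact Or.inl h1.2
    · exact Or.inr h1.2
  have h3 : (∑ x ∈ highN G T n u, if Q w x = 2 * n + 1 then (1 : ℤ) else 0) ≤
      cnt G Q (2 * n + 1) u w := by
    rw [cnt_eq_sum]
    have : ∀ x ∈ highN G T n u, (if Q w x = 2 * n + 1 then (1 : ℤ) else 0) =
        (if Q x w = 2 * n + 1 then (1 : ℤ) else 0) := by
      intro x _
      rw [h.symm w x]
    rw [Finset.sum_congr rfl this]
    apply Finset.sum_le_sum_of_subset_of_nonneg
    · unfold highN
      exact Finset.filter_subset _ _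
    · intro i _ _
      split_ifs <;> simp
  have h4 : (∑ x ∈ highN G T n u, if Q w x = 2 * n + 4 then (1 : ℤ) else 0) ≤
      cnt G Q (2 * n + 4) u w := by
    rw [cnt_eq_sum]
    have : ∀ x ∈ highN G T n u, (if Q w x = 2 * n + 4 then (1 : ℤ) else 0) =
        (if Q x w = 2 * n + 4 then (1 : ℤ) else 0) := by
      intro x _
      rw [h.symm w x]
    rw [Finset.sum_congr rfl this]
    apply Finset.sum_le_sum_of_subset_of_nonneg
    · unfold highN
      exact Finset.filter_subset _ _
    · intro i _ _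
      split_ifs <;> simp
  have h5 : ((highN G T n u).card : ℤ) =
      (∑ x ∈ highN G T n u, if Q w x = 2 * n + 1 then (1 : ℤ) else 0) +
      (∑ x ∈ highN G T n u, if Q w x = 2 * n + 4 then (1 : ℤ) else 0) := by
    rw [← Finset.sum_add_distrib, Finset.card_eq_sum_ones]
    push_cast
    apply Finset.sum_congr rfl
    intro x hx
    rcases h2 x hx with h5 | h5
    · rw [if_pos h5, if_neg (by omega)]
      ring
    · rw [if_pos h5, if_neg (by omega)]
      ring
  linarith

theorem high_empty (hn : 2 ≤ n) (h : Core n 2 G Q T) {u w : V} (hu : 2 * n < T u)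
    (hw : w ∈ lowN G T n u) : highN G T n u = ∅ := by
  by_contra hne
  obtain ⟨hfull, hT⟩ := cee_full hn h hu hw
  have h1 : 3 * (∑ x ∈ highN G T n u, ∑ w ∈ lowN G T n u,
      if Q w x = 2 * n + 4 then (1 : ℤ) else 0) = (highN G T n u).card * (2 * n + 4) := by
    rw [Finset.mul_sum, Finset.sum_congr rfl (fun x hx => kappa hn h hu hx ⟨w, hw⟩)]
    simp
  have h2 : 3 * (∑ w ∈ lowN G T n u, ∑ x ∈ highN G T n u,
      if Q w x = 2 * n + 4 then (1 : ℤ) else 0) ≤
      (lowN G T n u).card * (2 * (highN G T n u).card) := by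
    rw [Finset.mul_sum]
    calc _ ≤ ∑ w ∈ lowN G T n u, 2 * ((highN G T n u).card : ℤ) :=
          Finset.sum_le_sum (fun w hw => lambda hn h hu hw)
      _ = _ := by simp
  rw [Finset.sum_comm] at h2
  rw [h1] at h2
  have h3 : (0 : ℤ) < (highN G T n u).card := by
    exact_mod_cast Finset.card_pos.mpr (Finset.nonempty_iff_ne_empty.mpr hne)
  have h4 : (2 * (n : ℤ) + 4) ≤ 2 * (lowN G T n u).card := by
    have : ((highN G T n u).card : ℤ) * (2 * n + 4) ≤
        (highN G T n u).card * (2 * (lowN G T n u).card) := by linarith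
    exact le_of_mul_le_mul_left this h3
  linarith

/-- If there is a high vertex, there is one with a low neighbour. -/
theorem exists_boundary (hn : 2 ≤ n) (h : Core n 2 G Q T) {u₀ : V} (hu₀ : 2 * n < T u₀) :
    ∃ u w, 2 * (n : ℤ) < T u ∧ w ∈ lowN G T n u := by
  by_contra hno
  push Not at hno
  have hclosed : ∀ u v, G.Adj u v → 2 * (n : ℤ) < T u → 2 * (n : ℤ) < T v := by
    intro u v huv hu
    by_contra hv
    push Not at hv
    exact hno u v hu (mem_lowN.mpr ⟨huv, hv⟩)
  have hall : ∀ v, 2 * (n : ℤ) < T v := by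
    intro v
    obtain ⟨p⟩ := h.conn.preconnected u₀ v
    induction p with
    | nil => exact hu₀
    | cons hadj _ ih => exact ih (hclosed _ _ hadj hu₀)
  have hA := h.cntA
  have hempty : ((Finset.univ : Finset (V × V)).filter
      (fun p => p.1 ≠ p.2 ∧ Q p.1 p.2 = 2 * n)) = ∅ := by
    ext p
    simp only [Finset.mem_filter, Finset.mem_univ, true_and, Finset.notMem_empty, iff_false,
      not_and]
    intro _
    exact cee_no_a hn h (hall p.1) p.2
  rw [hempty] at hA
  simp at hA
  omega

/-- The high case: the structure needed for `Stmt_Fin`. -/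
theorem high_case (hn : 2 ≤ n) (h : Core n 2 G Q T) {u₀ : V} (hu₀ : 2 * n < T u₀) :
    ∃ S : Finset V, S.card = n ∧ (∀ u ∈ S, ∀ v ∈ S, u ≠ v → Q u v = 2 * n) ∧
      (∀ u ∈ S, ∀ v, v ∉ S → Q u v = 2 * n + 1) ∧
      (∀ u, u ∉ S → ∀ v, v ∉ S → u ≠ v → Q u v = 2 * n + 4) := by
  have hn' : (2 : ℤ) ≤ n := by exact_mod_cast hn
  obtain ⟨u, w, hu, hw⟩ := exists_boundary hn h hu₀
  obtain ⟨hfull, hT⟩ := cee_full hn h hu hw
  have hhe := high_empty hn h hu hw
  rw [hhe, Finset.card_empty] at hfull
  have hcard : (lowN G T n u).card = n := by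
    have : ((lowN G T n u).card : ℤ) = n := by
      rw [← hfull]
      simp
    exact_mod_cast this
  have hN : lowN G T n u = G.neighborFinset u := by
    ext x
    rw [mem_lowN, mem_neighborFinset]
    constructor
    · exact fun hx => hx.1
    · intro hx
      refine ⟨hx, ?_⟩
      by_contra h3
      push Not at h3
      have : x ∈ highN G T n u := mem_highN.mpr ⟨hx, h3⟩
      rw [hhe] at this
      simp at this
  rw [hcard] at hT
  -- a-clique
  have hclique : ∀ v ∈ lowN G T n u, ∀ x ∈ lowN G T n u, x ≠ v → Q x v = 2 * n := by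
    intro v hv x hx hxv
    have hv' := mem_lowN.mp hv
    have h1 := L2 hn h hv'.1.ne (cee_low_b hn h hu hv'.2 hv'.1)
    rw [adj_one hv'.1] at h1
    have h2 := alpha_le hn h hv
    have h3 := cnt_nonneg (G := G) (Q := Q) (2 * n + 4) u v
    rw [hcard] at h2
    have h4 : cnt G Q (2 * n) u v = n - 1 := by linarith
    have hsub : (G.neighborFinset u).filter (fun x => Q x v = 2 * n) ⊆
        (lowN G T n u).erase v := by
      intro x hx
      rw [Finset.mem_filter] at hx
      rw [Finset.mem_erase, hN]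
      refine ⟨?_, hx.1⟩
      rintro rfl
      have := hx.2
      rw [h.diag] at this
      omega
    have heq := Finset.eq_of_subset_of_card_le hsub (by
      rw [Finset.card_erase_of_mem hv, hcard]
      unfold cnt at h4
      omega)
    have hx' : x ∈ (lowN G T n u).erase v := Finset.mem_erase.mpr ⟨hxv, hx⟩
    rw [← heq, Finset.mem_filter] at hx'
    exact hx'.2
  -- all a-pairs are inside
  have hApairs : ∀ x y, x ≠ y → Q x y = 2 * n → x ∈ lowN G T n u ∧ y ∈ lowN G T n u := by
    have hsub : (lowN G T n u).offDiag ⊆ ((Finset.univ : Finset (V × V)).filter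
        (fun p => p.1 ≠ p.2 ∧ Q p.1 p.2 = 2 * n)) := by
      intro p hp
      rw [Finset.mem_offDiag] at hp
      simp only [Finset.mem_filter, Finset.mem_univ, true_and]
      exact ⟨hp.2.2, hclique _ hp.2.1 _ hp.1 hp.2.2⟩
    have heq := Finset.eq_of_subset_of_card_le hsub (by
      rw [h.cntA, Finset.offDiag_card, hcard, Nat.mul_sub]
      simp)
    intro x y hxy hq
    have : (x, y) ∈ ((Finset.univ : Finset (V × V)).filter
        (fun p => p.1 ≠ p.2 ∧ Q p.1 p.2 = 2 * n)) := by
      simp only [Finset.mem_filter, Finset.mem_univ, true_and]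
      exact ⟨hxy, hq⟩
    rw [← heq, Finset.mem_offDiag] at this
    exact ⟨this.1, this.2.1⟩
  -- cross pairs are b
  have hcross : ∀ x ∈ lowN G T n u, ∀ y, y ∉ lowN G T n u → Q x y = 2 * n + 1 := by
    intro x hx y hy
    by_cases hyu : y = u
    · rw [hyu, h.symm]
      have hx' := mem_lowN.mp hx
      exact cee_low_b hn h hu hx'.2 hx'.1
    · have hnadj : ¬ G.Adj u y := by
        intro hadj
        apply hy
        rw [hN, mem_neighborFinset]
        exact hadj
      have hα : cnt G Q (2 * n) u y = 0 := by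
        apply cnt_eq_zero
        intro z _ hz
        have hzy : z ≠ y := by
          rintro rfl
          rw [h.diag] at hz
          omega
        exact hy (hApairs z y hzy hz).2
      have hγ := cnt_nonneg (G := G) (Q := Q) (2 * n + 4) u y
      rcases vals' hn h u y with h1 | h1 | h1 | h1
      · exact absurd h1.1.symm hyu
      · exact absurd h1.2 (cee_no_a hn h hu y)
      · exfalso
        have h2 := L2 hn h h1.1 h1.2
        rw [adj_zero hnadj, hα] at h2
        linarith
      · have h2 := L1 hn h h1.1 h1.2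
        rw [adj_zero hnadj, hα] at h2
        have h3 : cnt G Q (2 * n + 1) u y = n := by linarith
        have hsub : (G.neighborFinset u).filter (fun x => Q x y = 2 * n + 1) ⊆
            lowN G T n u := by
          rw [hN]
          exact Finset.filter_subset _ _
        have heq := Finset.eq_of_subset_of_card_le hsub (by
          rw [hcard]
          unfold cnt at h3
          omega)
        rw [← heq, Finset.mem_filter] at hx
        exact hx.2
  -- outside pairs are c
  have hcB := h.cntB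
  have hBset : (((lowN G T n u) ×ˢ (lowN G T n u)ᶜ) ∪ ((lowN G T n u)ᶜ ×ˢ (lowN G T n u))) =
      ((Finset.univ : Finset (V × V)).filter
        (fun p => p.1 ≠ p.2 ∧ Q p.1 p.2 = 2 * n + (2 : ℕ) - 1)) := by
    apply Finset.eq_of_subset_of_card_le
    · intro p hp
      simp only [Finset.mem_union, Finset.mem_product, Finset.mem_compl] at hp
      simp only [Finset.mem_filter, Finset.mem_univ, true_and]
      rcases hp with ⟨h1, h2⟩ | ⟨h1, h2⟩
      · refine ⟨fun he => h2 (he ▸ h1), ?_⟩
        rw [hcross _ h1 _ h2]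
        push_cast
        ring
      · refine ⟨fun he => h1 (he ▸ h2), ?_⟩
        rw [h.symm, hcross _ h2 _ h1]
        push_cast
        ring
    · rw [hcB, Finset.card_union_of_disjoint]
      · rw [Finset.card_product, Finset.card_product, Finset.card_compl, hcard, h.card]
        have : 2 * n + 2 - n = n + 2 := by omega
        rw [this]
        apply le_of_eq
        ring
      · rw [Finset.disjoint_left]
        intro p hp1 hp2
        simp only [Finset.mem_product, Finset.mem_compl] at hp1 hp2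
        exact hp2.1 hp1.1
  refine ⟨lowN G T n u, hcard, ?_, hcross, ?_⟩
  · intro x hx y hy hxy
    exact hclique y hy x hx hxy
  · intro x hx y hy hxy
    rcases vals' hn h x y with h1 | h1 | h1 | h1
    · exact absurd h1.1 hxy
    · exact absurd (hApairs x y hxy h1.2).1 hx
    · exfalso
      have hmem : (x, y) ∈ ((Finset.univ : Finset (V × V)).filter
          (fun p => p.1 ≠ p.2 ∧ Q p.1 p.2 = 2 * n + (2 : ℕ) - 1)) := by
        simp only [Finset.mem_filter, Finset.mem_univ, true_and]
        refine ⟨hxy, ?_⟩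
        rw [h1.2]
        push_cast
        ring
      rw [← hBset] at hmem
      simp only [Finset.mem_union, Finset.mem_product, Finset.mem_compl] at hmem
      rcases hmem with ⟨h2, _⟩ | ⟨_, h2⟩
      · exact hx h2
      · exact hy h2
    · exact h1.2

omit [DecidableEq V] in
theorem sum_adj (u : V) : ∑ v, adj G u v = G.degree u := by
  unfold adj
  rw [Finset.sum_boole, ← card_neighborFinset_eq_degree]
  congr 2
  ext v
  simp

/-- Indicator of a nonadjacent pair of distinct vertices. -/
def non (G : SimpleGraph V) [DecidableRel G.Adj] (u v : V) : ℤ :=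
  1 - (if u = v then 1 else 0) - adj G u v

omit [Fintype V] in
theorem non_nonneg (u v : V) : 0 ≤ non G u v := by
  unfold non
  by_cases huv : u = v
  · subst huv
    rw [adj_zero (G.irrefl)]
    simp
  · have := adj_le_one (G := G) u v
    simp only [if_neg huv]
    linarith

omit [Fintype V] in
theorem non_symm (u v : V) : non G u v = non G v u := by
  unfold non adj
  simp only [G.adj_comm, eq_comm]

theorem sum_non (u : V) : ∑ v, non G u v = Fintype.card V - 1 - G.degree u := by
  unfold non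
  rw [Finset.sum_sub_distrib, Finset.sum_sub_distrib, sum_adj]
  simp

/-- The low case is impossible. -/
theorem low_case (hn : 2 ≤ n) (h : Core n 2 G Q T) (hlow : ∀ u, T u ≤ 2 * n) : False := by
  have hn' : (2 : ℤ) ≤ n := by exact_mod_cast hn
  have hcardV : (Fintype.card V : ℤ) = 2 * n + 2 := by
    rw [h.card]
    push_cast
    ring
  obtain ⟨DA, hDA⟩ : ∃ x : ℤ, x = ∑ u, cnt G Q (2 * n) u u := ⟨_, rfl⟩
  obtain ⟨DB, hDB⟩ : ∃ x : ℤ, x = ∑ u, cnt G Q (2 * n + 1) u u := ⟨_, rfl⟩
  have hDA0 : 0 ≤ DA := by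
    rw [hDA]
    exact Finset.sum_nonneg (fun u _ => cnt_nonneg _ _ _)
  have hsumT := h.sumT
  have hT : ∀ u, T u = 2 * (n + 2) * n - 2 * n * cnt G Q (2 * n) u u -
      (2 * n + 1) * cnt G Q (2 * n + 1) u u := by
    intro u
    have := F0 hn h u
    rw [low_c_zero hn h (hlow u)] at this
    linarith
  have h1 : (2 * (n : ℤ) + 1) * (2 * (n + 2) * n) = 2 * n * DA + (2 * n + 1) * DB := by
    have e1 : ∑ u : V, 2 * (n : ℤ) * cnt G Q (2 * n) u u = 2 * n * DA := by
      rw [← Finset.mul_sum, ← hDA]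
    have e2 : ∑ u : V, (2 * (n : ℤ) + 1) * cnt G Q (2 * n + 1) u u = (2 * n + 1) * DB := by
      rw [← Finset.mul_sum, ← hDB]
    rw [Finset.sum_congr rfl (fun u _ => hT u), Finset.sum_sub_distrib, Finset.sum_sub_distrib,
      e1, e2, Finset.sum_const, Finset.card_univ, nsmul_eq_mul, hcardV] at hsumT
    push_cast at hsumT
    linarith
  have hdeg : ∑ u, (G.degree u : ℤ) = DA + DB := by
    rw [hDA, hDB, ← Finset.sum_add_distrib]
    apply Finset.sum_congr rfl
    intro u _
    have := deg_self hn h u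
    rw [low_c_zero hn h (hlow u)] at this
    linarith
  have hdvd : (2 * (n : ℤ) + 1) ∣ DA := by
    have hc : IsCoprime (2 * (n : ℤ) + 1) (2 * n) := ⟨1, -1, by ring⟩
    apply hc.dvd_of_dvd_mul_left
    refine ⟨2 * (n + 2) * n - DB, ?_⟩
    linarith
  obtain ⟨s, hs⟩ := hdvd
  have hs0 : 0 ≤ s := by
    by_contra hneg
    push Not at hneg
    have : (2 * (n : ℤ) + 1) * s < 0 := by
      apply mul_neg_of_pos_of_neg _ hneg
      linarith
    linarith
  have hDBs : DB = 2 * (n + 2) * n - 2 * n * s := by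
    have h2 : (2 * (n : ℤ) + 1) * DB = (2 * n + 1) * (2 * (n + 2) * n - 2 * n * s) := by
      rw [hs] at h1
      linarith
    exact mul_left_cancel₀ (by linarith) h2
  -- counts of b-pairs
  have hB : ∑ u, ∑ v, (if u ≠ v ∧ Q u v = 2 * n + 1 then (1 : ℤ) else 0) = 2 * (n + 2) * n := by
    have h2 := h.cntB
    rw [← Finset.univ_product_univ, Finset.card_filter, Finset.sum_product] at h2
    have h3 : ((∑ u : V, ∑ v : V, (if u ≠ v ∧ Q u v = 2 * n + (2 : ℕ) - 1 then 1 else 0) : ℕ) : ℤ)
        = ((2 * (n + 2) * n : ℕ) : ℤ) := by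
      rw [← h2]
    push_cast at h3
    rw [← h3]
    apply Finset.sum_congr rfl
    intro u _
    apply Finset.sum_congr rfl
    intro v _
    congr 1
    apply propext
    constructor
    · rintro ⟨h4, h5⟩
      exact ⟨h4, by linarith⟩
    · rintro ⟨h4, h5⟩
      exact ⟨h4, by linarith⟩
  have hDB' : DB = ∑ u, ∑ v, (if G.Adj u v ∧ Q u v = 2 * n + 1 then (1 : ℤ) else 0) := by
    rw [hDB]
    apply Finset.sum_congr rfl
    intro u _
    unfold cnt
    rw [Finset.sum_boole]
    congr 2
    ext v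
    simp only [Finset.mem_filter, mem_neighborFinset, Finset.mem_univ, true_and]
    rw [h.symm v u]
  -- nonadjacent b-pairs
  have hNB : ∑ u, ∑ v, ((if u ≠ v ∧ Q u v = 2 * n + 1 then (1 : ℤ) else 0) -
      (if G.Adj u v ∧ Q u v = 2 * n + 1 then (1 : ℤ) else 0)) = 2 * n * s := by
    simp only [Finset.sum_sub_distrib]
    rw [hB, ← hDB', hDBs]
    ring
  have hpt : ∀ u v, ((if u ≠ v ∧ Q u v = 2 * n + 1 then (1 : ℤ) else 0) -
      (if G.Adj u v ∧ Q u v = 2 * n + 1 then (1 : ℤ) else 0)) ≤
      non G u v * (if (n : ℤ) + 2 ≤ G.degree u then 1 else 0) +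
      non G v u * (if (n : ℤ) + 2 ≤ G.degree v then 1 else 0) := by
    intro u v
    have hnn1 : 0 ≤ non G u v * (if (n : ℤ) + 2 ≤ G.degree u then (1 : ℤ) else 0) :=
      mul_nonneg (non_nonneg u v) (by split_ifs <;> simp)
    have hnn2 : 0 ≤ non G v u * (if (n : ℤ) + 2 ≤ G.degree v then (1 : ℤ) else 0) :=
      mul_nonneg (non_nonneg v u) (by split_ifs <;> simp)
    by_cases hc : u ≠ v ∧ Q u v = 2 * n + 1
    · by_cases ha : G.Adj u v
      · rw [if_pos hc, if_pos ⟨ha, hc.2⟩]
        linarith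
      · rw [if_pos hc, if_neg (fun h' => ha h'.1)]
        have hcs := h.cs u v hc.1
        rw [hc.2, if_neg ha] at hcs
        push_cast at hcs
        have hnon : non G u v = 1 := by
          unfold non
          rw [adj_zero ha, if_neg hc.1]
          ring
        have hnon2 : non G v u = 1 := by
          rw [non_symm]
          exact hnon
        rw [hnon, hnon2]
        by_cases hdu : (n : ℤ) + 2 ≤ G.degree u
        · rw [if_pos hdu]
          have : 0 ≤ (if (n : ℤ) + 2 ≤ G.degree v then (1 : ℤ) else 0) := by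
            split_ifs <;> simp
          linarith
        · by_cases hdv : (n : ℤ) + 2 ≤ G.degree v
          · rw [if_pos hdv]
            have : 0 ≤ (if (n : ℤ) + 2 ≤ G.degree u then (1 : ℤ) else 0) := by
              split_ifs <;> simp
            linarith
          · exfalso
            push Not at hdu hdv
            have h5 : (G.degree u : ℤ) + G.degree v ≤ 2 * n + 2 := by linarith
            have h6 : (2 * (n : ℤ) + 1) * (G.degree u + G.degree v) ≤
                (2 * n + 1) * (2 * n + 2) := by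
              apply mul_le_mul_of_nonneg_left h5
              linarith
            nlinarith
    · have hc2 : ¬ (G.Adj u v ∧ Q u v = 2 * n + 1) := fun h' => hc ⟨h'.1.ne, h'.2⟩
      rw [if_neg hc, if_neg hc2]
      linarith
  have hbound : ∀ u, (∑ v, non G u v) * (if (n : ℤ) + 2 ≤ G.degree u then (1 : ℤ) else 0) ≤
      (n - 1) * (G.degree u - n - 1) := by
    intro u
    rw [sum_non, hcardV]
    have hd := low_deg hn h (hlow u)
    split_ifs with hdu
    · have h5 : (2 * (n : ℤ) + 2 - 1 - G.degree u) ≤ n - 1 := by linarith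
      have h6 : ((n : ℤ) - 1) * 1 ≤ (n - 1) * (G.degree u - n - 1) := by
        apply mul_le_mul_of_nonneg_left <;> linarith
      linarith
    · rw [mul_zero]
      apply mul_nonneg <;> linarith
  have hfinal : 2 * (n : ℤ) * s ≤ 2 * ((n - 1) * (s - 2)) := by
    calc 2 * (n : ℤ) * s = _ := hNB.symm
      _ ≤ ∑ u, ∑ v, (non G u v * (if (n : ℤ) + 2 ≤ G.degree u then (1 : ℤ) else 0) +
          non G v u * (if (n : ℤ) + 2 ≤ G.degree v then (1 : ℤ) else 0)) :=
        Finset.sum_le_sum (fun u _ => Finset.sum_le_sum (fun v _ => hpt u v))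
      _ = 2 * ∑ u, (∑ v, non G u v) * (if (n : ℤ) + 2 ≤ G.degree u then (1 : ℤ) else 0) := by
        simp only [Finset.sum_add_distrib]
        rw [Finset.sum_comm (f := fun u v => non G v u *
          (if (n : ℤ) + 2 ≤ G.degree v then (1 : ℤ) else 0))]
        simp only [← Finset.sum_mul]
        ring
      _ ≤ 2 * ∑ u : V, ((n : ℤ) - 1) * (G.degree u - n - 1) := by
        apply mul_le_mul_of_nonneg_left _ (by norm_num)
        exact Finset.sum_le_sum (fun u _ => hbound u)
      _ = 2 * ((n - 1) * (s - 2)) := by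
        rw [← Finset.mul_sum, Finset.sum_sub_distrib, Finset.sum_sub_distrib, hdeg]
        simp only [Finset.sum_const, Finset.card_univ, nsmul_eq_mul, hcardV]
        rw [hDBs, hs]
        ring
  nlinarith

end

end Two

open Two in
theorem two_proof.{u} (hFin : Stmt_Fin.{u}) : Stmt_Two.{u} := by
  intro V _ _ G _ n Q T hn h
  by_cases hlow : ∀ u, T u ≤ 2 * n
  · exact absurd (low_case hn h hlow) id
  · push Not at hlow
    obtain ⟨u₀, hu₀⟩ := hlow
    obtain ⟨S, h1, h2, h3, h4⟩ := high_case hn h hu₀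
    refine hFin V G n 2 Q T hn le_rfl h S h1 h2 ?_ ?_
    · intro u hu v hv
      rw [h3 u hu v hv]
      push_cast
      ring
    · intro u hu v hv huv
      rw [h4 u hu v hv huv]
      push_cast
      ring

end Pool.Agent.ResSpec
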