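import Pool.Agent.ResSpec.Cor
import Pool.Agent.ResSpec.LargeD
import Pool.Agent.ResSpec.Two

/-! # Assembly: `K_{n+D,n}` is determined by its resistance spectrum if `D = 2` or
`D (D - 1) > 2 n` -/

namespace Pool.Agent.ResSpec

universe u

theorem drs_of_gap (m n : ℕ) (hn : 2 ≤ n) (hm : n + 2 ≤ m)
    (h : m = n + 2 ∨ 2 * n < (m - n) * (m - n - 1))
    {V : Type u} [Fintype V] (H : SimpleGraph V) (hH : H.Connected) [DecidableEq V]
    (hRS : resSpec H = resSpec (completeBipartiteGraph (Fin m) (Fin n))) :
    Nonempty (H ≃g completeBipartiteGraph (Fin m) (Fin n)) := by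
  classical
  obtain ⟨D, rfl⟩ := Nat.exists_eq_add_of_le (show n ≤ m by omega)
  have hD : 2 ≤ D := by omega
  obtain ⟨Q, T, C⟩ := cor_proof V H n D hn hD hH hRS
  rcases h with h | h
  · have : D = 2 := by omega
    subst this
    exact two_proof fin_proof V H n Q T hn C
  · rw [show n + D - n = D by omega] at h
    exact large_proof V H n D Q T hn hD h C

end Pool.Agent.ResSpec
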